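import Pool.Agent.Lib.MP_72e2e6_nt.Sm.X.Spec

/-!
# MP_72e2e6_nt, `Sm/X`: module `Aux` (the file name `Aux.lean` is not allowed)
-/

namespace Pool.Agent.MP72S.SX

open Polynomial Finset

section

variable {k Q G : Type} [Field k] [Field Q] [Algebra k Q] [Group G]
    [MulSemiringAction G Q] {t : Q} {ν : Option k → Q → WithTop ℚ} {rs : Option k → Q → k}
    {τ : Option k → G}

private theorem aux_mul (h : Geo t ν rs τ) {N : Subgroup G} {a b : ℕ} {f f' : Q}
    (hf : f ∈ SA h N a) (hf' : f' ∈ SA h N b) : f * f' ∈ SA h N (a + b) := by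
  obtain ⟨h1, h2⟩ := (mem_LL h N _ f).1 hf
  obtain ⟨h3, h4⟩ := (mem_LL h N _ f').1 hf'
  refine (mem_LL h N _ _).2 ⟨fun g hg => by rw [smul_mul', h1 g hg, h3 g hg], fun x g => ?_⟩
  rw [smul_mul', h.mul]
  have h5 : ((ra N (a + b) x g : ℚ) : WithTop ℚ) =
      ((ra N a x g : ℚ) : WithTop ℚ) + ((ra N b x g : ℚ) : WithTop ℚ) := by
    rw [← WithTop.coe_add]
    congr 1
    cases x with
    | none =>
      change (-((a + b : ℕ) : ℚ)) = -(a : ℚ) + -(b : ℚ)
      push_cast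
      ring
    | some x =>
      change (0 : ℚ) = 0 + 0
      rw [add_zero]
  rw [h5]
  exact add_le_add (h2 x g) (h4 x g)

private theorem aux_one (h : Geo t ν rs τ) (N : Subgroup G) : (1 : Q) ∈ SA h N 0 := by
  refine (mem_LL h N _ _).2 ⟨fun g _ => smul_one g, fun x g => ?_⟩
  rw [smul_one, h.v1]
  cases x with
  | none =>
    change (((-((0 : ℕ) : ℚ)) : ℚ) : WithTop ℚ) ≤ 0
    rw [Nat.cast_zero, neg_zero, WithTop.coe_zero]
  | some x =>
    change (((0 : ℚ)) : WithTop ℚ) ≤ 0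
    rw [WithTop.coe_zero]

private theorem aux_pow (h : Geo t ν rs τ) {N : Subgroup G} {a : ℕ} {f : Q}
    (hf : f ∈ SA h N a) (n : ℕ) : f ^ n ∈ SA h N (n * a) := by
  induction n with
  | zero => rw [pow_zero, zero_mul]; exact aux_one h N
  | succ n ih => rw [pow_succ, add_mul, one_mul]; exact aux_mul h ih hf

private theorem aux_nn (h : Geo t ν rs τ) {N : Subgroup G} {a : ℕ} {f : Q}
    (hf : f ∈ SA h N a) (x : k) (g : G) : 0 ≤ ν (some x) (g • f) := by
  have := ((mem_LL h N _ f).1 hf).2 (some x) g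
  exact this

/-! ### The residue map -/

private theorem aux_vsum (h : Geo t ν rs τ) (x : Option k) {I : Type} (s : Finset I) (f : I → Q)
    (a : WithTop ℚ) (hf : ∀ i ∈ s, a ≤ ν x (f i)) : a ≤ ν x (∑ i ∈ s, f i) := by
  classical
  induction s using Finset.induction_on with
  | empty => rw [sum_empty, h.v0]; exact le_top
  | insert i s hi ih =>
    rw [sum_insert hi]
    refine (le_min (hf i (mem_insert_self i s)) (ih fun j hj => ?_)).trans (h.add x _ _)
    exact hf j (mem_insert_of_mem hj)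

private theorem aux_vpow0 (h : Geo t ν rs τ) (x : Option k) (f : Q) (hf : 0 ≤ ν x f) (n : ℕ) :
    0 ≤ ν x (f ^ n) := by
  induction n with
  | zero => rw [pow_zero, h.v1]
  | succ n ih => rw [pow_succ, h.mul]; exact add_nonneg ih hf

private theorem aux_vsmul0 (h : Geo t ν rs τ) (x : Option k) (c : k) (f : Q) (hf : 0 ≤ ν x f) :
    0 ≤ ν x (c • f) := hf.trans (h.v_smul x c f)

private theorem aux_rsum (h : Geo t ν rs τ) (x : Option k)
    (hR : ∀ f g, 0 ≤ ν x f → 0 ≤ ν x g →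
      rs x (f + g) = rs x f + rs x g ∧ rs x (f * g) = rs x f * rs x g)
    (hC : ∀ c : k, rs x (algebraMap k Q c) = c) {I : Type} (s : Finset I) (f : I → Q)
    (hf : ∀ i ∈ s, 0 ≤ ν x (f i)) : rs x (∑ i ∈ s, f i) = ∑ i ∈ s, rs x (f i) := by
  classical
  induction s using Finset.induction_on with
  | empty =>
    rw [sum_empty, sum_empty]
    have := hC 0
    rwa [map_zero] at this
  | insert i s hi ih =>
    have h1 : ∀ j ∈ s, 0 ≤ ν x (f j) := fun j hj => hf j (mem_insert_of_mem hj)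
    rw [sum_insert hi, sum_insert hi, (hR _ _ (hf i (mem_insert_self i s))
      (aux_vsum h x s f 0 h1)).1, ih h1]

private theorem aux_rpow (h : Geo t ν rs τ) (x : Option k)
    (hR : ∀ f g, 0 ≤ ν x f → 0 ≤ ν x g →
      rs x (f + g) = rs x f + rs x g ∧ rs x (f * g) = rs x f * rs x g)
    (hC : ∀ c : k, rs x (algebraMap k Q c) = c) (f : Q) (hf : 0 ≤ ν x f) (n : ℕ) :
    rs x (f ^ n) = rs x f ^ n := by
  induction n with
  | zero =>
    have := hC 1
    rw [map_one] at this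
    rw [pow_zero, pow_zero, this]
  | succ n ih =>
    rw [pow_succ, pow_succ, (hR _ _ (aux_vpow0 h x f hf n) hf).2, ih]

private theorem aux_rsmul (h : Geo t ν rs τ) (x : Option k)
    (hR : ∀ f g, 0 ≤ ν x f → 0 ≤ ν x g →
      rs x (f + g) = rs x f + rs x g ∧ rs x (f * g) = rs x f * rs x g)
    (hC : ∀ c : k, rs x (algebraMap k Q c) = c) (c : k) (f : Q) (hf : 0 ≤ ν x f) :
    rs x (c • f) = c * rs x f := by
  have h1 : 0 ≤ ν x (algebraMap k Q c) := by
    have := h.v_smul x c 1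
    rw [h.v1, Algebra.smul_def, mul_one] at this
    exact this
  rw [Algebra.smul_def, (hR _ _ h1 hf).2, hC]

/-- Part (1) of the proof. -/
private theorem aux_part1 (h : Geo t ν rs τ) (p : ℕ) [Fact p.Prime] [CharP k p] (x : Option k)
    (hR : ∀ f g, 0 ≤ ν x f → 0 ≤ ν x g →
      rs x (f + g) = rs x f + rs x g ∧ rs x (f * g) = rs x f * rs x g)
    (hC : ∀ c : k, rs x (algebraMap k Q c) = c)
    (hZ : ∀ f, 0 ≤ ν x f → (rs x f = 0 ↔ 0 < ν x f)) {I J : Type} [Fintype I] [Fintype J]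
    (e : I → Q) (b : J → Q) (c : I → J → k) (μ ν' : ℕ) (g : G)
    (he : ∀ i, 0 ≤ ν x (g • e i)) (hb : ∀ j, 0 ≤ ν x (g • b j))
    (hb2 : ∀ j, rs x (g • b j) ^ p ^ (μ + ν') = rs x (g • b j))
    (hrel : ∑ i, ∑ j, c i j ^ p ^ μ • (e i ^ p ^ μ * b j) = 0) :
    0 < ν x (g • ∑ i, ∑ j, c i j • (e i * b j ^ p ^ ν')) := by
  have hT : ∀ i j, 0 ≤ ν x (c i j • ((g • e i) * (g • b j) ^ p ^ ν')) := by
    intro i j
    refine aux_vsmul0 h x _ _ ?_
    rw [h.mul]
    exact add_nonneg (he i) (aux_vpow0 h x _ (hb j) _)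
  have hT2 : ∀ i j, 0 ≤ ν x (c i j ^ p ^ μ • ((g • e i) ^ p ^ μ * (g • b j))) := by
    intro i j
    refine aux_vsmul0 h x _ _ ?_
    rw [h.mul]
    exact add_nonneg (aux_vpow0 h x _ (he i) _) (hb j)
  have h1 : g • ∑ i, ∑ j, c i j • (e i * b j ^ p ^ ν') =
      ∑ i, ∑ j, c i j • ((g • e i) * (g • b j) ^ p ^ ν') := by
    simp only [smul_sum, h.smul_k, smul_mul', smul_pow']
  have h2 : ∑ i, ∑ j, c i j ^ p ^ μ • ((g • e i) ^ p ^ μ * (g • b j)) = 0 := by
    have := congrArg (fun y => g • y) hrel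
    simp only [smul_sum, h.smul_k, smul_mul', smul_pow', smul_zero] at this
    exact this
  rw [h1]
  have hT' : ∀ i, 0 ≤ ν x (∑ j, c i j • ((g • e i) * (g • b j) ^ p ^ ν')) := fun i =>
    aux_vsum h x _ _ 0 fun j _ => hT i j
  have hT2' : ∀ i, 0 ≤ ν x (∑ j, c i j ^ p ^ μ • ((g • e i) ^ p ^ μ * (g • b j))) := fun i =>
    aux_vsum h x _ _ 0 fun j _ => hT2 i j
  rw [← hZ _ (aux_vsum h x _ _ 0 fun i _ => hT' i)]
  have h3 : rs x (∑ i, ∑ j, c i j • ((g • e i) * (g • b j) ^ p ^ ν')) =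
      ∑ i, ∑ j, c i j * (rs x (g • e i) * rs x (g • b j) ^ p ^ ν') := by
    rw [aux_rsum h x hR hC _ _ fun i _ => hT' i]
    refine sum_congr rfl fun i _ => ?_
    rw [aux_rsum h x hR hC _ _ fun j _ => hT i j]
    refine sum_congr rfl fun j _ => ?_
    rw [aux_rsmul h x hR hC, (hR _ _ (he i) (aux_vpow0 h x _ (hb j) _)).2,
      aux_rpow h x hR hC _ (hb j)]
    rw [h.mul]
    exact add_nonneg (he i) (aux_vpow0 h x _ (hb j) _)
  have h4 : rs x (∑ i, ∑ j, c i j ^ p ^ μ • ((g • e i) ^ p ^ μ * (g • b j))) =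
      ∑ i, ∑ j, c i j ^ p ^ μ * (rs x (g • e i) ^ p ^ μ * rs x (g • b j)) := by
    rw [aux_rsum h x hR hC _ _ fun i _ => hT2' i]
    refine sum_congr rfl fun i _ => ?_
    rw [aux_rsum h x hR hC _ _ fun j _ => hT2 i j]
    refine sum_congr rfl fun j _ => ?_
    rw [aux_rsmul h x hR hC, (hR _ _ (aux_vpow0 h x _ (he i) _) (hb j)).2,
      aux_rpow h x hR hC _ (he i)]
    rw [h.mul]
    exact add_nonneg (aux_vpow0 h x _ (he i) _) (hb j)
  rw [h2] at h4
  have h5 : rs x (0 : Q) = 0 := by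
    have := hC 0
    rwa [map_zero] at this
  rw [h5] at h4
  rw [h3]
  have h6 : (∑ i, ∑ j, c i j * (rs x (g • e i) * rs x (g • b j) ^ p ^ ν')) ^ p ^ μ = 0 := by
    rw [sum_pow_char_pow]
    rw [h4]
    refine sum_congr rfl fun i _ => ?_
    rw [sum_pow_char_pow]
    refine sum_congr rfl fun j _ => ?_
    rw [mul_pow, mul_pow, ← pow_mul, ← pow_add, add_comm ν' μ, hb2]
  exact pow_eq_zero_iff (pow_ne_zero _ (Fact.out : p.Prime).ne_zero) |>.1 h6

/-! ### Part (2) -/

private theorem aux_vdiv (h : Geo t ν rs τ) (x : Option k) (y z : Q) (hz : z ≠ 0)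
    (hle : ν x z ≤ ν x y) : 0 ≤ ν x (y / z) := by
  have h1 : ν x (y / z) + ν x z = ν x y := by
    rw [← h.mul, div_mul_cancel₀ y hz]
  have hzt : ν x z ≠ ⊤ := fun hh => hz ((h.top x z).1 hh)
  obtain ⟨r, hr⟩ := WithTop.ne_top_iff_exists.1 hzt
  by_cases hyt : ν x (y / z) = ⊤
  · rw [hyt]; exact le_top
  obtain ⟨s, hs⟩ := WithTop.ne_top_iff_exists.1 hyt
  rw [← h1, ← hr, ← hs, ← WithTop.coe_add, WithTop.coe_le_coe] at hle
  rw [← hs]
  have : (0 : ℚ) ≤ s := by linarith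
  exact_mod_cast this

private theorem aux_vpow (h : Geo t ν rs τ) (x : Option k) (f : Q)
    (hf : ((1 : ℚ) : WithTop ℚ) ≤ ν x f) (n : ℕ) : (((n : ℚ)) : WithTop ℚ) ≤ ν x (f ^ n) := by
  induction n with
  | zero => rw [pow_zero, h.v1, Nat.cast_zero, WithTop.coe_zero]
  | succ n ih =>
    rw [pow_succ, h.mul, Nat.cast_succ, WithTop.coe_add]
    exact add_le_add ih hf

private theorem aux_part2 [IsAlgClosed k] (hZr : S_Zr) (h : Geo t ν rs τ) (p : ℕ)
    [Fact p.Prime] [CharP k p] (N : Subgroup G) [N.FiniteIndex] (c₁ : k) (hτ : τ (some c₁) ∈ N)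
    (hC : ∀ c : k, rs (some c₁) (algebraMap k Q c) = c) {I : Type} [Fintype I] {a : ℕ} (e : I → Q)
    (he : ∀ i, e i ∈ SA h N a) (hei : LinearIndependent k e) (z : I → Q)
    (hz : ∀ i, ∀ g ∈ N, g • z i = z i) (i₁ : I) (hi₁ : z i₁ ≠ 0) (n : ℕ)
    (hn : N.index * a < p ^ n) : ∑ i, z i ^ p ^ n * e i ≠ 0 := by
  classical
  intro h0
  have : CharP Q p := charP_of_injective_algebraMap (algebraMap k Q).injective p
  obtain ⟨i₀, hi₀, hmin⟩ := Finset.exists_min_image (univ.filter fun i => z i ≠ 0)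
    (fun i => ν (some c₁) (z i)) ⟨i₁, mem_filter.2 ⟨mem_univ _, hi₁⟩⟩
  have hz0 : z i₀ ≠ 0 := (mem_filter.1 hi₀).2
  let y : I → Q := fun i => z i / z i₀
  have hy : ∀ i, 0 ≤ ν (some c₁) (y i) := by
    intro i
    by_cases hzi : z i = 0
    · change 0 ≤ ν (some c₁) (z i / z i₀)
      rw [hzi, zero_div, h.v0]
      exact le_top
    · exact aux_vdiv h (some c₁) _ _ hz0 (hmin i (mem_filter.2 ⟨mem_univ i, hzi⟩))
  have hyN : ∀ i, ∀ g ∈ N, g • y i = y i := by
    intro i g hg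
    change g • (z i / z i₀) = z i / z i₀
    rw [smul_div₀', hz i g hg, hz i₀ g hg]
  let c : I → k := fun i => rs (some c₁) (y i)
  have hc0 : c i₀ = 1 := by
    change rs (some c₁) (z i₀ / z i₀) = 1
    have := hC 1
    rw [map_one] at this
    rw [div_self hz0, this]
  have hd : ∀ i, ((1 : ℚ) : WithTop ℚ) ≤ ν (some c₁) (y i - algebraMap k Q (c i)) := by
    intro i
    have h1 : 0 < ν (some c₁) (y i - algebraMap k Q (c i)) := h.res (some c₁) (y i) (hy i)
    by_cases hzero : y i - algebraMap k Q (c i) = 0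
    · rw [hzero, h.v0]
      exact le_top
    · obtain ⟨m, hm⟩ := h.int (some c₁) (y i - algebraMap k Q (c i))
        (by rw [smul_sub, h.kfix, hyN i _ hτ]) hzero
      rw [hm] at h1 ⊢
      have h2 : (0 : ℚ) < m := by exact_mod_cast h1
      have h3 : (0 : ℤ) < m := by exact_mod_cast h2
      have h4 : (1 : ℤ) ≤ m := h3
      have h5 : (1 : ℚ) ≤ m := by exact_mod_cast h4
      exact WithTop.coe_le_coe.2 h5
  -- the function `u`
  obtain ⟨u, hu⟩ : ∃ u : Q, u = ∑ i, (c i ^ p ^ n) • e i := ⟨_, rfl⟩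
  have hu0 : u ≠ 0 := by
    intro h1
    rw [hu] at h1
    have h2 := Fintype.linearIndependent_iff.1 hei _ h1 i₀
    simp only [hc0, one_pow] at h2
    exact one_ne_zero h2
  have huS : u ∈ SA h N a := by
    rw [hu]
    exact sum_mem fun i _ => Submodule.smul_mem _ _ (he i)
  have hy0 : ∑ i, y i ^ p ^ n * e i = 0 := by
    have h1 : ∀ i, y i ^ p ^ n * e i = (z i₀ ^ p ^ n)⁻¹ * (z i ^ p ^ n * e i) := by
      intro i
      change (z i / z i₀) ^ p ^ n * e i = _
      rw [div_pow, div_eq_inv_mul, mul_assoc]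
    rw [sum_congr rfl fun i _ => h1 i, ← mul_sum, h0, mul_zero]
  have hu2 : u = -∑ i, (y i - algebraMap k Q (c i)) ^ p ^ n * e i := by
    have h1 : ∀ i, (y i - algebraMap k Q (c i)) ^ p ^ n * e i =
        y i ^ p ^ n * e i - (c i ^ p ^ n) • e i := by
      intro i
      rw [sub_pow_char_pow, sub_mul, Algebra.smul_def, map_pow]
    rw [sum_congr rfl fun i _ => h1 i, sum_sub_distrib, hy0, zero_sub, neg_neg, hu]
  have huv : (((p ^ n : ℕ) : ℚ) : WithTop ℚ) ≤ ν (some c₁) u := by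
    have h1 : (((p ^ n : ℕ) : ℚ) : WithTop ℚ) ≤
        ν (some c₁) (∑ i, (y i - algebraMap k Q (c i)) ^ p ^ n * e i) := by
      refine aux_vsum h _ _ _ _ fun i _ => ?_
      rw [h.mul]
      have h2 := aux_vpow h (some c₁) _ (hd i) (p ^ n)
      have h3 := aux_nn h (he i) c₁ 1
      rw [one_smul] at h3
      calc (((p ^ n : ℕ) : ℚ) : WithTop ℚ) = (((p ^ n : ℕ) : ℚ) : WithTop ℚ) + 0 := by
            rw [add_zero]
        _ ≤ _ := add_le_add h2 h3
    rw [hu2]
    refine h1.trans ?_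
    have h4 := h.v_smul (some c₁) (-1) (∑ i, (y i - algebraMap k Q (c i)) ^ p ^ n * e i)
    rwa [neg_smul, one_smul] at h4
  -- the divisor
  have : Fintype (G ⧸ N) := Subgroup.fintypeQuotientOfFiniteIndex
  let r : Option k → G ⧸ N → ℚ := fun x c =>
    ra N a x c + if x = some c₁ ∧ c = ((1 : G) : G ⧸ N) then ((p ^ n : ℕ) : ℚ) else 0
  have hrX : ∀ x, x ∉ ({none, some c₁} : Finset (Option k)) → ∀ c, r x c = 0 := by
    intro x hx c
    rw [mem_insert, mem_singleton, not_or] at hx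
    cases x with
    | none => exact absurd rfl hx.1
    | some x =>
      change (0 : ℚ) + (if some x = some c₁ ∧ c = ((1 : G) : G ⧸ N) then ((p ^ n : ℕ) : ℚ)
        else 0) = 0
      rw [if_neg fun hh => hx.2 hh.1, add_zero]
  have hur : u ∈ LL h N r := by
    obtain ⟨h1, h2⟩ := (mem_LL h N _ u).1 huS
    refine (mem_LL h N _ u).2 ⟨h1, fun x g => ?_⟩
    by_cases hxg : x = some c₁ ∧ (g : G ⧸ N) = ((1 : G) : G ⧸ N)
    · obtain ⟨rfl, hg⟩ := hxg
      have hgN : g ∈ N := by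
        have := QuotientGroup.eq.1 hg
        rw [mul_one] at this
        exact (inv_mem_iff).1 this
      have h3 : r (some c₁) (g : G ⧸ N) = ((p ^ n : ℕ) : ℚ) := by
        change (0 : ℚ) + (if some c₁ = some c₁ ∧ (g : G ⧸ N) = ((1 : G) : G ⧸ N) then
          ((p ^ n : ℕ) : ℚ) else 0) = _
        rw [if_pos ⟨rfl, hg⟩, zero_add]
      rw [h3, h1 g hgN]
      exact huv
    · have h3 : r x (g : G ⧸ N) = ra N a x (g : G ⧸ N) := by
        change ra N a x (g : G ⧸ N) + (if x = some c₁ ∧ (g : G ⧸ N) = ((1 : G) : G ⧸ N) then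
          ((p ^ n : ℕ) : ℚ) else 0) = _
        rw [if_neg hxg, add_zero]
      rw [h3]
      exact h2 x g
  have hfin := hZr h N r {none, some c₁} hrX u hur hu0
  rw [sum_pair (by simp)] at hfin
  have hs1 : ∑ c, r none c = -((N.index : ℚ) * a) := by
    have h1 : ∀ c, r none c = -(a : ℚ) := by
      intro c
      change -(a : ℚ) + (if none = some c₁ ∧ c = ((1 : G) : G ⧸ N) then
        ((p ^ n : ℕ) : ℚ) else 0) = _
      rw [if_neg fun hh => by simp at hh, add_zero]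
    rw [sum_congr rfl fun c _ => h1 c, sum_const, card_univ, ← Nat.card_eq_fintype_card,
      ← Subgroup.index_eq_card, nsmul_eq_mul]
    ring
  have hs2 : ∑ c, r (some c₁) c = ((p ^ n : ℕ) : ℚ) := by
    have h1 : ∀ c, r (some c₁) c = if c = ((1 : G) : G ⧸ N) then ((p ^ n : ℕ) : ℚ) else 0 := by
      intro c
      change (0 : ℚ) + (if some c₁ = some c₁ ∧ c = ((1 : G) : G ⧸ N) then
        ((p ^ n : ℕ) : ℚ) else 0) = _
      simp only [true_and, zero_add]
    rw [sum_congr rfl fun c _ => h1 c, sum_ite_eq' univ ((1 : G) : G ⧸ N), if_pos (mem_univ _)]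
  rw [hs1, hs2] at hfin
  have hn' : (N.index : ℚ) * a < ((p ^ n : ℕ) : ℚ) := by exact_mod_cast hn
  linarith

end

theorem tAux : S_Rh → S_Zr → S_Upp → S_Aux := by
  intro hRh hZr hUpp k Q G _ _ _ _ _ _ t ν rs τ h p _ _ N _ T hT M hM a l μ ν' hdim hn
  classical
  have hp0 : 0 < p := (Fact.out : p.Prime).pos
  have : CharP Q p := charP_of_injective_algebraMap (algebraMap k Q).injective p
  have hfa := (hUpp h N T hT a).1
  have hfl := (hUpp h N T hT l).1
  have hfb := (hUpp h N T hT (p ^ μ * a + l)).1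
  -- the basis `b`
  obtain ⟨J, _, b, hbM, hbl, hbi, hbc⟩ : ∃ (J : Type) (_ : Fintype J) (b : J → Q),
      (∀ j, b j ∈ M) ∧ (∀ j, b j ∈ SA h N l) ∧ LinearIndependent k b ∧
      Fintype.card J = Module.finrank k (SA h N l) := by
    have hs : Submodule.span k {v : SA h N l | (v : Q) ∈ M} = ⊤ := by
      apply Submodule.map_injective_of_injective (SA h N l).injective_subtype
      rw [Submodule.map_span, Submodule.map_subtype_top]
      conv_rhs => rw [hM l]
      congr 1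
      ext f
      constructor
      · rintro ⟨v, hv, rfl⟩
        exact ⟨hv, v.2⟩
      · rintro ⟨h1, h2⟩
        exact ⟨⟨f, h2⟩, h1, rfl⟩
    let B := Module.Basis.ofSpan hs.ge
    have hsub : Set.range B ⊆ {v : SA h N l | (v : Q) ∈ M} := Module.Basis.ofSpan_subset hs.ge
    have := Module.Finite.finite_basis B
    refine ⟨_, Fintype.ofFinite _, fun j => (B j : Q), fun j => hsub ⟨j, rfl⟩,
      fun j => (B j).2, ?_, ?_⟩
    · exact B.linearIndependent.map' (SA h N l).subtype (SA h N l).ker_subtype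
    · let _ := Fintype.ofFinite
        ((linearIndepOn_empty k (id : SA h N l → SA h N l)).extend
          (Set.empty_subset {v : SA h N l | (v : Q) ∈ M}))
      exact (Module.finrank_eq_card_basis B).symm
  -- the basis `e`
  obtain ⟨I, _, e, hea, hei, hec⟩ : ∃ (I : Type) (_ : Fintype I) (e : I → Q),
      (∀ i, e i ∈ SA h N a) ∧ LinearIndependent k e ∧
      Fintype.card I = Module.finrank k (SA h N a) := by
    let B := Module.finBasis k (SA h N a)
    refine ⟨_, inferInstance, fun i => (B i : Q), fun i => (B i).2, ?_, Fintype.card_fin _⟩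
    exact B.linearIndependent.map' (SA h N a).subtype (SA h N a).ker_subtype
  -- the relation
  obtain ⟨d, hd, i₁, j₁, hd1⟩ : ∃ d : I → J → k,
      ∑ i, ∑ j, d i j • (e i ^ p ^ μ * b j) = 0 ∧ ∃ i j, d i j ≠ 0 := by
    let v : I × J → SA h N (p ^ μ * a + l) := fun z =>
      ⟨e z.1 ^ p ^ μ * b z.2, aux_mul h (aux_pow h (hea z.1) _) (hbl z.2)⟩
    have hv : ¬ LinearIndependent k v := by
      intro hli
      have := hli.fintype_card_le_finrank
      rw [Fintype.card_prod, hec, hbc] at this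
      omega
    obtain ⟨d, hd, ⟨i, j⟩, hij⟩ := Fintype.not_linearIndependent_iff.1 hv
    refine ⟨fun i j => d (i, j), ?_, i, j, hij⟩
    have h1 := congrArg (fun y : SA h N (p ^ μ * a + l) => (y : Q)) hd
    simp only [AddSubmonoidClass.coe_finset_sum, Submodule.coe_smul, Submodule.coe_zero] at h1
    rw [Fintype.sum_prod_type] at h1
    exact h1
  -- the roots
  have hroot : ∀ (x : k) (n : ℕ), ∃ y, y ^ p ^ n = x := fun x n =>
    IsAlgClosed.exists_pow_nat_eq x (Nat.pow_pos hp0)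
  choose rt hrt using hroot
  obtain ⟨c, hc⟩ : ∃ c : I → J → k, ∀ i j, c i j ^ p ^ μ = d i j :=
    ⟨fun i j => rt (d i j) μ, fun i j => hrt _ _⟩
  obtain ⟨c', hc'⟩ : ∃ c' : I → J → k, ∀ i j, c' i j ^ p ^ ν' = c i j :=
    ⟨fun i j => rt (c i j) ν', fun i j => hrt _ _⟩
  refine ⟨∑ i, ∑ j, c i j • (e i * b j ^ p ^ ν'), ?_, ?_, ?_⟩
  · refine sum_mem fun i _ => sum_mem fun j _ => Submodule.smul_mem _ _ ?_
    rw [mul_comm l]
    exact aux_mul h (hea i) (aux_pow h (hbl j) _)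
  · obtain ⟨c₁, hc₁⟩ := Infinite.exists_notMem_finset (eraseNone T)
    have hx₁ : some c₁ ∉ T := fun hh => hc₁ (mem_eraseNone.2 hh)
    have hτ : τ (some c₁) ∈ N := by
      have := hT _ hx₁ 1
      rwa [inv_one, one_mul, mul_one] at this
    have h1 : ∑ i, ∑ j, c i j • (e i * b j ^ p ^ ν') =
        ∑ i, (∑ j, c' i j • b j) ^ p ^ ν' * e i := by
      refine sum_congr rfl fun i _ => ?_
      rw [sum_pow_char_pow, sum_mul]
      refine sum_congr rfl fun j _ => ?_
      rw [_root_.smul_pow, hc' i j, smul_mul_assoc, mul_comm]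
    rw [h1]
    refine aux_part2 hZr h p N c₁ hτ (hRh h (some c₁)).2.1 e hea hei _ ?_ i₁ ?_ ν' hn
    · intro i g hg
      rw [smul_sum]
      refine sum_congr rfl fun j _ => ?_
      rw [h.smul_k, ((mem_LL h N _ _).1 (hbl j)).1 g hg]
    · intro h2
      have h3 := Fintype.linearIndependent_iff.1 hbi _ h2 j₁
      apply hd1
      rw [← hc, ← hc', h3, zero_pow (Nat.pow_pos hp0).ne', zero_pow (Nat.pow_pos hp0).ne']
  · intro x g hx
    obtain ⟨hR, hC, hZ⟩ := hRh h (some x)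
    refine aux_part1 h p (some x) hR hC hZ e b c μ ν' g (fun i => aux_nn h (hea i) x g)
      (fun j => aux_nn h (hbl j) x g) (fun j => hx _ (hbM j) (aux_nn h (hbl j) x g)) ?_
    simp only [hc]
    exact hd

end Pool.Agent.MP72S.SX
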