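import Pool.Agent.Lib.MP_72e2e6_nt.Sm.X.Spec

/-!
# MP_72e2e6_nt, `Sm/X`: module `Bet`
-/

namespace Pool.Agent.MP72S.SX

open Polynomial Finset

theorem tBet : S_Bet := by
  intro G Q _ _ _ N N' hle hidx hy
  have key : ∀ a ∈ N, ∀ b ∈ N, (a * b ∈ N' ↔ (a ∈ N' ↔ b ∈ N')) := by
    intro a ha b hb
    have h := Subgroup.mul_mem_iff_of_index_two (H := N'.subgroupOf N) hidx
      (a := (⟨a, ha⟩ : N)) (b := (⟨b, hb⟩ : N))
    simpa only [Subgroup.mem_subgroupOf, Subgroup.coe_mul] using h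
  have hne : ¬ N ≤ N' := by
    intro h
    rw [Subgroup.relIndex_eq_one.2 h] at hidx
    omega
  obtain ⟨s, hs, hs'⟩ := SetLike.not_le_iff_exists.1 hne
  obtain ⟨y, hy1, hy2⟩ := hy s hs hs'
  have hsi : s⁻¹ ∉ N' := by
    rw [inv_mem_iff]
    exact hs'
  refine ⟨y - s • y, sub_ne_zero.2 (Ne.symm hy2), fun g hg => ?_, fun u hu hu' => ?_⟩
  · have h1 : s⁻¹ * g * s ∈ N' := by
      rw [key _ (mul_mem (inv_mem hs) (hle hg)) s hs, key _ (inv_mem hs) g (hle hg)]
      tauto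
    have h2 : g • s • y = s • (s⁻¹ * g * s) • y := by
      rw [smul_smul, smul_smul]
      congr 1
      group
    rw [smul_sub, hy1 g hg, h2, hy1 _ h1]
  · have h1 : s⁻¹ * u ∈ N' := by
      rw [key _ (inv_mem hs) u hu]
      tauto
    have h2 : u * s ∈ N' := by
      rw [key u hu s hs]
      tauto
    have h3 : u • y = s • y := by
      have : u • y = s • (s⁻¹ * u) • y := by
        rw [smul_smul]
        congr 1
        group
      rw [this, hy1 _ h1]
    rw [smul_sub, h3, smul_smul, hy1 _ h2, neg_sub]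

end Pool.Agent.MP72S.SX
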