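import Pool.Agent.Lib.MP_72e2e6_nt.Sm.X.Spec

/-!
# MP_72e2e6_nt, `Sm/X`: module `Frp`
-/

namespace Pool.Agent.MP72S.SX

open Polynomial Finset Pool.Agent.MP72W Pool.Agent.MP72S.D Pool.Agent.MP72S.SF

private theorem frp_kF {F : Type} [Field F] (u : GQ F) (c : kF F) : u (c : Qf F) ∈ kF F := by
  have hc : IsAlgebraic F (c : Qf F) := mem_algebraicClosure_iff.1 c.2
  rw [mem_algebraicClosure_iff]
  exact hc.algHom ((u : Qf F →ₐ[RatFunc F] Qf F).restrictScalars F)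

private theorem frp_main (hPc : D.S_Pc) (hRq : D.S_Rq) (hKk : D.S_Kk) (F : Type) [Field F]
    [Finite F] (h2 : (2 : F) ≠ 0) (A : Pl F → Lcd F) (hA : LDok F A) (H : Subgroup (GQ F))
    (hH : H.Normal) (b : Qf F) (hb : ∀ h ∈ H, ∀ j : ℕ,
        (∀ c : kF F, h (c : Qf F) = ((c ^ Nat.card F ^ j : kF F) : Qf F)) → h b = b)
    (w : Pl F) (i : ℕ) (u : GQ F) (hf : (A w).rQ (A w).f ∈ H) (hnu : 0 ≤ nuP (A w) (u b)) :
    (resP (A w) (u b) ^ Nat.card F ^ i) ^ Nat.card F ^ dgP w.o =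
      resP (A w) (u b) ^ Nat.card F ^ i := by
  obtain ⟨hplc, -⟩ := hPc F h2 w.o (A w) (hA.ok w)
  obtain ⟨-, -, hfr, -⟩ := hRq F h2 w.o (A w) (hA.ok w)
  obtain ⟨-, hcst, -⟩ := hKk F
  obtain ⟨φ, hφ⟩ : ∃ φ : GQ F, φ = (A w).rQ (A w).f := ⟨_, rfl⟩
  rw [← hφ] at hf hplc hfr
  have hmem : u⁻¹ * φ * u ∈ H := by
    have := hH.conj_mem φ hf u⁻¹
    rwa [inv_inv] at this
  have hact : ∀ c : kF F, (u⁻¹ * φ * u) (c : Qf F) =
      ((c ^ Nat.card F ^ dgP w.o : kF F) : Qf F) := by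
    intro c
    have h1 : φ (u (c : Qf F)) = u (c : Qf F) ^ (Nat.card F ^ dgP w.o) :=
      hfr _ ((hcst _).1 (frp_kF u c))
    change u⁻¹ (φ (u (c : Qf F))) = _
    rw [h1, map_pow]
    have h2 : u⁻¹ (u (c : Qf F)) = c := by
      change (u⁻¹ * u) (c : Qf F) = c
      rw [inv_mul_cancel]
      rfl
    rw [h2]
    rfl
  have hfix := hb _ hmem _ hact
  have hfix2 : φ (u b) = u b := by
    have h3 : u ((u⁻¹ * φ * u) b) = φ (u b) := by
      change (u * (u⁻¹ * φ * u)) b = (φ * u) b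
      congr 1
      group
    rw [← h3, hfix]
  have h4 := hplc.rf (u b) hnu
  rw [hfix2] at h4
  rw [pow_right_comm, ← h4]

theorem tFrp : S_Psi → D.S_Pc → D.S_Rq → D.S_Kk → S_Frp := by
  intro _ hPc hRq hKk F _ _ h2 A hA H hH b hb x g hf hnu
  exact frp_main hPc hRq hKk F h2 A hA H hH b hb (plX A (some x)).1 (plX A (some x)).2
    ((psQ A)⁻¹ ^ (plX A (some x)).2 * g) hf hnu

end Pool.Agent.MP72S.SX
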