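import Pool.Agent.Lib.MP_72e2e6_nt.Sm.X.Spec

/-!
# MP_72e2e6_nt, `Sm/X`, module `Gal`: Galois correspondence for the subgroups of `Gb F` which contain an
open subgroup
-/

namespace Pool.Agent.MP72S.SX

open Polynomial Finset Pool.Agent.MP72W Pool.Agent.MP72S.D Pool.Agent.MP72S.SF

theorem tGal : D.S_QG → D.S_Kt → D.S_Pr → S_Gal := by
  intro hQ hK hPr F _ _ H hH ho
  obtain ⟨hG, -⟩ := hQ F
  obtain ⟨-, -, h3, h4⟩ := hK F
  have hG' : IsGalois (RatFunc F) (Qf F) := hG
  have hfin : Finite (GQ F ⧸ H) := H.quotient_finite_of_isOpen ho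
  have hFI : H.FiniteIndex := Subgroup.finiteIndex_of_finite_quotient
  refine ⟨?_, ?_⟩
  · have hN : (H.subgroupOf (Gb F)).Normal := Subgroup.normal_subgroupOf
    have hP : IsPGroup 2 (Gb F ⧸ H.subgroupOf (Gb F)) := by
      intro g
      obtain ⟨g, rfl⟩ := QuotientGroup.mk_surjective g
      obtain ⟨n, hn⟩ := hPr F H ho g.1 g.2
      refine ⟨n, ?_⟩
      rw [← QuotientGroup.mk_pow, QuotientGroup.eq_one_iff, Subgroup.mem_subgroupOf]
      exact hn
    have hfin' : (H.subgroupOf (Gb F)).FiniteIndex := inferInstance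
    have hfin2 : Finite (Gb F ⧸ H.subgroupOf (Gb F)) := Subgroup.finite_quotient_of_finiteIndex
    obtain ⟨e, he⟩ := IsPGroup.iff_card.1 hP
    exact ⟨e, he⟩
  · intro M hM s hs
    have hle : H ≤ M.map (Gb F).subtype ⊔ H := le_sup_right
    have hop : IsOpen ((M.map (Gb F).subtype ⊔ H : Subgroup (GQ F)) : Set (GQ F)) :=
      Subgroup.isOpen_mono hle ho
    have hcl := Subgroup.isClosed_of_isOpen _ hop
    have hs2 : (s : GQ F) ∉ M.map (Gb F).subtype ⊔ H := by
      intro hmem
      rw [← SetLike.mem_coe, Subgroup.mul_normal, Set.mem_mul] at hmem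
      obtain ⟨m, hm, h, hh, hmh⟩ := hmem
      obtain ⟨m, hmM, rfl⟩ := hm
      have h5 : h = (m⁻¹ * s : Gb F) := by
        rw [Subgroup.coe_mul, Subgroup.coe_inv, ← hmh]
        simp
      have h6 : (m⁻¹ * s : Gb F) ∈ H.subgroupOf (Gb F) := by
        rw [Subgroup.mem_subgroupOf, ← h5]
        exact hh
      have h7 := M.mul_mem hmM (hM h6)
      rw [mul_inv_cancel_left] at h7
      exact hs h7
    have key := InfiniteGalois.fixingSubgroup_fixedField
      (⟨M.map (Gb F).subtype ⊔ H, hcl⟩ : ClosedSubgroup (GQ F))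
    have hs3 : (s : GQ F) ∉ (IntermediateField.fixedField
        (M.map (Gb F).subtype ⊔ H)).fixingSubgroup := by
      intro h
      exact hs2 (by rw [← show _ = M.map (Gb F).subtype ⊔ H from key]; exact h)
    rw [IntermediateField.mem_fixingSubgroup_iff] at hs3
    push Not at hs3
    obtain ⟨y, hy, hsy⟩ := hs3
    refine ⟨y, fun g hg => ?_, hsy⟩
    have h8 := (IntermediateField.mem_fixedField_iff _ _).1 hy
    exact h8 g (Subgroup.mem_sup_left ⟨g, hg, rfl⟩)

end Pool.Agent.MP72S.SX
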