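import Pool.Agent.Lib.MP_72e2e6_nt.Sm.X.Spec

/-!
# MP_72e2e6_nt, `Sm/X`, module `GeQ`: the places of `Qf F`
-/

namespace Pool.Agent.MP72S.SX

open Polynomial Finset

open Pool.Agent.MP72W Pool.Agent.MP72S.D Pool.Agent.MP72S.SF

section plc

variable {K : Type} [Field K] {L : Type} [Field L] [Algebra K L] {k : Type} [Field k]
  {t f : Gal(L/K)} {q : ℕ} {ν : L → WithTop ℚ} {res : L → k}

private theorem GeQ_one (h : C.Plc t f q ν res) : ν 1 = 0 := by
  have h1 := h.mul 1 1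
  rw [mul_one] at h1
  have h2 : ν 1 ≠ ⊤ := fun h2 => one_ne_zero ((h.top 1).mp h2)
  obtain ⟨r, hr⟩ := WithTop.ne_top_iff_exists.mp h2
  rw [← hr] at h1 ⊢
  norm_cast at h1 ⊢
  linarith

private theorem GeQ_pow (h : C.Plc t f q ν res) (x : L) (r : ℚ) (hx : ν x = (r : WithTop ℚ))
    (n : ℕ) : ν (x ^ n) = ((n * r : ℚ) : WithTop ℚ) := by
  induction n with
  | zero => simp [GeQ_one h]
  | succ n ih =>
    rw [pow_succ, h.mul, ih, hx]
    norm_cast
    push_cast
    ring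

private theorem GeQ_root (h : C.Plc t f q ν res) (x : L) (n : ℕ) (hn : 1 < n) (hx : x ≠ 0)
    (hxn : x ^ n = x) : ν x = 0 := by
  have h2 : ν x ≠ ⊤ := fun h2 => hx ((h.top x).mp h2)
  obtain ⟨r, hr⟩ := WithTop.ne_top_iff_exists.mp h2
  have h3 := GeQ_pow h x r hr.symm n
  rw [hxn, ← hr] at h3
  rw [← hr]
  norm_cast at h3 ⊢
  have h4 : ((n : ℚ) - 1) * r = 0 := by linarith
  rcases mul_eq_zero.mp h4 with h5 | h5
  · exfalso
    have : (1 : ℚ) < n := by exact_mod_cast hn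
    linarith
  · exact h5

private theorem GeQ_neg (h : C.Plc t f q ν res) (x : L) : ν (-x) = ν x := by
  have h1 : ν (-1) = 0 := by
    by_cases h2 : (-1 : L) = 1
    · rw [h2]; exact GeQ_one h
    · exact GeQ_root h (-1) 3 (by norm_num) (by simp) (by ring)
  rw [← neg_one_mul, h.mul, h1, zero_add]

private theorem GeQ_lt (h : C.Plc t f q ν res) (x y : L) (hxy : ν x < ν y) : ν (x + y) = ν x := by
  have h1 := h.add x y
  rw [min_eq_left hxy.le] at h1
  refine le_antisymm ?_ h1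
  have h2 := h.add (x + y) (-y)
  rw [GeQ_neg h, add_neg_cancel_right] at h2
  rcases min_le_iff.mp h2 with h3 | h3
  · exact h3
  · exact absurd hxy (not_lt.mpr h3)

end plc

private theorem GeQ_pos {F : Type} [Field F] (A : Lcd F) (x : Qf F)
    (h : nm A.av (A.eQ x) < 1) : 0 < nuP A x := by
  unfold nuP
  split_ifs with h1
  · have h2 := h1.choose_spec
    rw [h2] at h
    have h3 : 0 < h1.choose := by
      by_contra h4
      push Not at h4
      have h5 : ((h1.choose : ℚ) : ℝ) ≤ 0 := by exact_mod_cast h4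
      have h6 : (1 : ℝ) ≤ (1 / 2 : ℝ) ^ ((h1.choose : ℚ) : ℝ) := by
        apply Real.one_le_rpow_of_pos_of_le_one_of_nonpos (by norm_num) (by norm_num) h5
      linarith
    exact_mod_cast h3
  · exact WithTop.coe_lt_top 0

private theorem GeQ_nm0 {F : Type} [Field F] (v : AbsoluteValue (RatFunc F) ℝ) : nm v 0 = 0 :=
  spectralNorm_zero

private theorem GeQ_card {F : Type} [Field F] [Finite F] : 1 < Nat.card F :=
  Finite.one_lt_card

section main

variable {F : Type} [Field F] [Finite F]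

private theorem GeQ_cst (hKk : D.S_Kk) (hPc : D.S_Pc) (h2 : (2 : F) ≠ 0) {w : Option F[X]}
    {A : Lcd F} (hA : A.Ok w) (c : kF F) (hc : c ≠ 0) : nuP A (c : Qf F) = 0 := by
  obtain ⟨hP, -⟩ := hPc F h2 w A hA
  obtain ⟨n, hn, hcn⟩ := (hKk F).2.2.1 c
  refine GeQ_root hP (c : Qf F) (Nat.card F ^ n) (Nat.one_lt_pow hn.ne' GeQ_card) ?_ ?_
  · intro h
    exact hc (Subtype.ext h)
  · have := congrArg (fun x : kF F => (x : Qf F)) hcn
    simpa using this

private theorem GeQ_cst' (hKk : D.S_Kk) (hPc : D.S_Pc) (h2 : (2 : F) ≠ 0) {w : Option F[X]}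
    {A : Lcd F} (hA : A.Ok w) (c : kF F) : 0 ≤ nuP A (c : Qf F) := by
  by_cases hc : c = 0
  · obtain ⟨hP, -⟩ := hPc F h2 w A hA
    have h0 : nuP A (c : Qf F) = ⊤ := by
      rw [hP.top, hc]
      rfl
    rw [h0]
    exact le_top
  · exact (GeQ_cst hKk hPc h2 hA c hc).ge

private theorem GeQ_lin0 (hKk : D.S_Kk) (hPc : D.S_Pc) (hRo : D.S_Ro) (h2 : (2 : F) ≠ 0)
    {A : Pl F → Lcd F} (hA : LDok F A) (w : Pl F) (hw : w ≠ none) (a : kF F) (ha : a ≠ rtP A w) :
    nuP (A w) (tQ F - a) = 0 := by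
  obtain ⟨hP, -⟩ := hPc F h2 w.o (A w) (hA.ok w)
  obtain ⟨P, rfl⟩ := Option.ne_none_iff_exists'.mp hw
  have h1 := GeQ_pos _ _ ((hRo F A hA).1 P).2
  have h3 := GeQ_cst hKk hPc h2 (hA.ok (some P)) (rtP A (some P) - a)
    (sub_ne_zero.mpr fun h => ha h.symm)
  have e : tQ F - (a : Qf F) = ((rtP A (some P) - a : kF F) : Qf F) +
      (tQ F - (rtP A (some P) : Qf F)) := by
    push_cast
    ring
  rw [e, GeQ_lt hP _ _ (by rw [h3]; exact h1), h3]

private theorem GeQ_lin1 (hKk : D.S_Kk) (hPc : D.S_Pc) (hRo : D.S_Ro) (h2 : (2 : F) ≠ 0)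
    {A : Pl F → Lcd F} (hA : LDok F A) (w : Pl F) (hw : w ≠ none) :
    nuP (A w) (tQ F - rtP A w) = ((1 : ℚ) : WithTop ℚ) := by
  classical
  obtain ⟨hP, hPv⟩ := hPc F h2 w.o (A w) (hA.ok w)
  obtain ⟨P, rfl⟩ := Option.ne_none_iff_exists'.mp hw
  have := (hKk F).1
  set r := rtP A (some P) with hr
  -- the value of `P(t)`
  have hv : (A (some P)).av (algebraMap F[X] (RatFunc F) P.1) = (1 / 2) ^ (1 : ℤ) := by
    have h3 := (hA.ok (some P)).pl
    obtain ⟨-, -, h4⟩ := (h3 : P.1.Monic ∧ Irreducible P.1 ∧ ∀ p : F[X], p ≠ 0 →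
      (A (some P)).av (algebraMap F[X] (RatFunc F) p) = (1 / 2) ^ multiplicity P.1 p)
    rw [h4 _ P.2.1.ne_zero, multiplicity_self]
    norm_num
  have h5 := hPv _ _ hv
  have h6 : algebraMap (RatFunc F) (Qf F) (algebraMap F[X] (RatFunc F) P.1) =
      ((P.1.map (algebraMap F (kF F))).roots.map fun a : kF F => (tQ F - (a : Qf F))).prod := by
    have h7 : (P.1.map (algebraMap F (kF F))).Splits := IsAlgClosed.splits _
    have h8 : aeval (tQ F) P.1 = algebraMap (RatFunc F) (Qf F) (algebraMap F[X] (RatFunc F) P.1) := by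
      rw [tQ, aeval_algebraMap_apply]
      congr 1
      rw [← RatFunc.algebraMap_X, aeval_algebraMap_apply, aeval_X_left_apply]
    rw [← h8]
    have h9 : aeval (tQ F) P.1 = aeval (tQ F) (P.1.map (algebraMap F (kF F))) := by
      rw [aeval_map_algebraMap]
    rw [h9, h7.eq_prod_roots_of_monic (P.2.1.map _), map_multiset_prod, Multiset.map_map]
    refine congrArg Multiset.prod (Multiset.map_congr ?_ ?_)
    · rw [← h7.eq_prod_roots_of_monic (P.2.1.map _)]
    · intro a _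
      simp only [Function.comp_apply, map_sub, aeval_X, aeval_C]
      rfl
  have hsep : (P.1.map (algebraMap F (kF F))).Separable :=
    (PerfectField.separable_of_irreducible P.2.2).map
  have hnd : (P.1.map (algebraMap F (kF F))).roots.Nodup := nodup_roots hsep
  have hmem : r ∈ (P.1.map (algebraMap F (kF F))).roots := by
    rw [mem_roots (P.2.1.map _).ne_zero, IsRoot, eval_map_algebraMap]
    exact ((hRo F A hA).1 P).1
  have hprod : ∀ m : Multiset (kF F), (∀ a ∈ m, a ≠ r) →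
      nuP (A (some P)) ((m.map fun a : kF F => (tQ F - (a : Qf F))).prod) = 0 := by
    intro m
    induction m using Multiset.induction_on with
    | empty =>
      intro _
      simpa using GeQ_one hP
    | cons a m ih =>
      intro hm
      rw [Multiset.map_cons, Multiset.prod_cons, hP.mul,
        ih fun b hb => hm b (Multiset.mem_cons_of_mem hb),
        GeQ_lin0 hKk hPc hRo h2 hA (some P) (by simp) a (hm a (Multiset.mem_cons_self a m)),
        add_zero]
  rw [h6, ← Multiset.cons_erase hmem, Multiset.map_cons, Multiset.prod_cons, hP.mul,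
    hprod _ fun a ha h => hnd.notMem_erase (h ▸ ha), add_zero] at h5
  rw [h5]
  norm_num

private theorem GeQ_res (hRo : D.S_Ro) {A : Pl F → Lcd F} (hA : LDok F A) (w : Pl F)
    (c : kF F) : resP (A w) (c : Qf F) = c := by
  have h : ∃ c' : kF F, nm (A w).av ((A w).eQ ((c : Qf F) - c')) < 1 :=
    ⟨c, by rw [sub_self, map_zero, GeQ_nm0]; norm_num⟩
  unfold resP
  rw [dif_pos h]
  by_contra hne
  have h1 := h.choose_spec
  rw [(hRo F A hA).2.1 w c h.choose (Ne.symm hne)] at h1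
  exact lt_irrefl _ h1

end main

theorem tGeQ : S_Psi → D.S_Pc → D.S_Ro → D.S_Kk → D.S_Fx → D.S_Rq → S_GeQ := by
  intro hPsi hPc hRo hKk hFx hRq F _ _ h2 A hA
  obtain ⟨hp1, hp2, -⟩ := hPsi F h2 A hA
  have hP : ∀ w : Pl F, C.Plc ((A w).rQ (A w).t) ((A w).rQ (A w).f) (Nat.card F ^ dgP w.o)
      (nuP (A w)) (resP (A w)) := fun w => (hPc F h2 w.o (A w) (hA.ok w)).1
  have := (hKk F).1
  have hu : ∀ (i : ℕ) (c : kF F), ∃ d : kF F, d ^ Nat.card F ^ i = c ∧
      ((psQ A)⁻¹ ^ i) (c : Qf F) = (d : Qf F) := by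
    intro i c
    have hpos : 0 < Nat.card F ^ i := Nat.pow_pos Nat.card_pos
    obtain ⟨d, hd⟩ := IsAlgClosed.exists_pow_nat_eq c hpos
    refine ⟨d, hd, ?_⟩
    rw [← hd]
    exact (hp1 i d).2
  have hinv : ∀ (i : ℕ) (y : Qf F), (psQ A ^ i) (((psQ A)⁻¹ ^ i) y) = y := by
    intro i y
    rw [← AlgEquiv.mul_apply, inv_pow, mul_inv_cancel, AlgEquiv.one_apply]
  have hinv' : ∀ (i : ℕ) (y : Qf F), ((psQ A)⁻¹ ^ i) ((psQ A ^ i) y) = y := by
    intro i y
    rw [← AlgEquiv.mul_apply, inv_pow, inv_mul_cancel, AlgEquiv.one_apply]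
  have htau : ∀ x, psQ A ^ (plX A x).2 * (A (plX A x).1).rQ (A (plX A x).1).t *
      (psQ A)⁻¹ ^ (plX A x).2 ∈ Gb F := by
    intro x c
    obtain ⟨d, hd, hud⟩ := hu (plX A x).2 c
    change (psQ A ^ (plX A x).2) ((A (plX A x).1).rQ (A (plX A x).1).t
      (((psQ A)⁻¹ ^ (plX A x).2) (c : Qf F))) = (c : Qf F)
    rw [hud, (hRq F h2 _ _ (hA.ok _)).2.1 _ (hA.ok _).tg d (((hKk F).2.1 _).mp d.2), ← hud, hinv]
  have htx : ∀ x, (tauX A x : GQ F) = psQ A ^ (plX A x).2 *
      (A (plX A x).1).rQ (A (plX A x).1).t * (psQ A)⁻¹ ^ (plX A x).2 := by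
    intro x
    rw [tauX, dif_pos (htau x)]
  have hts : ∀ x (f : Qf F), tauX A x • f = (psQ A ^ (plX A x).2)
      ((A (plX A x).1).rQ (A (plX A x).1).t (((psQ A)⁻¹ ^ (plX A x).2) f)) := by
    intro x f
    change (tauX A x : GQ F) f = _
    rw [htx]
    rfl
  have hcoe : ∀ c : kF F, algebraMap (kF F) (Qf F) c = (c : Qf F) := fun c => rfl
  have htQ : ∀ g : GQ F, g (tQ F) = tQ F := fun g => g.commutes _
  refine ⟨⟨?_, ?_, ?_, ?_, ?_, ?_, ?_, ?_, ?_, ?_, ?_, ?_, ?_, ?_⟩, ?_⟩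
  · -- two
    intro h
    apply h2
    have h3 : algebraMap F (kF F) 2 = 0 := by rw [map_ofNat]; exact h
    exact (map_eq_zero_iff _ (algebraMap F (kF F)).injective).mp h3
  · -- kfix
    intro g c
    exact g.2 c
  · -- tfix
    intro g
    exact htQ g.1
  · -- fix
    intro a ha
    exact hFx F a fun g hg => ha ⟨g, hg⟩
  · -- top
    intro x f
    rw [nuX, (hP _).top, EmbeddingLike.map_eq_zero_iff]
  · -- mul
    intro x f g
    rw [nuX, nuX, nuX, map_mul, (hP _).mul]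
  · -- add
    intro x f g
    rw [nuX, nuX, nuX, map_add]
    exact (hP _).add _ _
  · -- cst
    intro x c hc
    obtain ⟨d, hd, hud⟩ := hu (plX A x).2 c
    rw [nuX, hcoe, hud]
    refine GeQ_cst hKk hPc h2 (hA.ok _) d ?_
    rintro rfl
    apply hc
    rw [← hd, zero_pow (Nat.pow_pos Nat.card_pos).ne']
  · -- lin
    intro c
    obtain ⟨hw, hi, hc⟩ := hp2 c
    rw [nuX, hcoe, map_sub, htQ]
    have h3 : ((psQ A)⁻¹ ^ (plX A (some c)).2) (c : Qf F) = (rtP A (plX A (some c)).1 : Qf F) := by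
      have h4 := (hp1 (plX A (some c)).2 (rtP A (plX A (some c)).1)).2
      rw [hc] at h4
      exact h4
    rw [h3]
    exact GeQ_lin1 hKk hPc hRo h2 hA _ hw
  · -- lin'
    intro c c' hcc
    obtain ⟨hw, hi, hc⟩ := hp2 c
    obtain ⟨d, hd, hud⟩ := hu (plX A (some c)).2 c'
    rw [nuX, hcoe, map_sub, htQ, hud]
    refine GeQ_lin0 hKk hPc hRo h2 hA _ hw d ?_
    rintro rfl
    exact hcc (hc.symm.trans hd)
  · -- inf
    intro c'
    have h0 : nuP (A none) (tQ F) = ((-1 : ℚ) : WithTop ℚ) := by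
      have hX : (A none).av (RatFunc.X : RatFunc F) = (1 / 2) ^ (-1 : ℤ) := by
        have h3 := (hA.ok none).pl
        have h4 := (h3 : ∀ f : RatFunc F, f ≠ 0 → (A none).av f = 2 ^ f.intDegree)
        rw [h4 _ RatFunc.X_ne_zero, RatFunc.intDegree_X]
        norm_num
      have h5 := (hPc F h2 _ (A none) (hA.ok none)).2 _ _ hX
      rw [tQ, h5]
      norm_num
    change nuP (A none) (((psQ A)⁻¹ ^ 0) (tQ F - (c' : Qf F))) = _
    rw [pow_zero, AlgEquiv.one_apply, sub_eq_add_neg, GeQ_lt (hP none), h0]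
    rw [h0, GeQ_neg (hP none)]
    refine lt_of_lt_of_le ?_ (GeQ_cst' hKk hPc h2 (hA.ok none) c')
    exact_mod_cast (by norm_num : (-1 : ℚ) < 0)
  · -- res
    intro x f hf
    set w := (plX A x).1 with hw
    set i := (plX A x).2 with hi
    change 0 ≤ nuP (A w) (((psQ A)⁻¹ ^ i) f) at hf
    set y := ((psQ A)⁻¹ ^ i) f with hy
    set c₀ := resP (A w) y with hc₀
    have h3 : nuX A x (f - algebraMap (kF F) (Qf F) (rsX A x f)) = nuP (A w) (y - (c₀ : Qf F)) := by
      rw [nuX, hcoe, ← hw, ← hi, map_sub, ← hy]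
      congr 2
      exact (hp1 i c₀).2
    rw [h3]
    have hc0 := GeQ_cst' hKk hPc h2 (hA.ok w) c₀
    have h4 : 0 ≤ nuP (A w) (y - (c₀ : Qf F)) := by
      rw [sub_eq_add_neg]
      refine le_trans (le_min hf ?_) ((hP w).add _ _)
      rw [GeQ_neg (hP w)]
      exact hc0
    have h5 := (hP w).radd (y - (c₀ : Qf F)) (c₀ : Qf F) h4 hc0
    rw [sub_add_cancel, GeQ_res hRo hA w c₀, ← hc₀] at h5
    exact ((hP w).r0 _ h4).mp (by simpa using h5)
  · -- tau
    intro x f
    rw [nuX, nuX, hts, hinv', (hP _).nt]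
  · -- int
    intro x f hf hf0
    rw [hts] at hf
    refine (hP _).int _ ?_ ?_
    · have h3 := congrArg ((psQ A)⁻¹ ^ (plX A x).2) hf
      rw [hinv'] at h3
      exact h3
    · intro h
      exact hf0 ((EmbeddingLike.map_eq_zero_iff).mp h)
  · -- the second part
    intro H hH x
    rw [htx, inv_pow]
    constructor
    · intro h
      have h3 := hH.conj_mem _ h (psQ A ^ (plX A x).2)⁻¹
      simpa [mul_assoc] using h3
    · intro h
      exact hH.conj_mem _ h _

end Pool.Agent.MP72S.SX
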