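import Pool.Agent.Lib.MP_72e2e6_nt.Sm.X.Spec

/-!
# MP_72e2e6_nt, `Sm/X`, module `H0`: a Frobenius element in `H`
-/

namespace Pool.Agent.MP72S.SX

open Polynomial Finset Pool.Agent.MP72W Pool.Agent.MP72S.D Pool.Agent.MP72S.SF

private theorem h0_pow {F : Type} [Field F] (h₀ : GQ F) (s : ℕ)
    (h : ∀ c : kF F, h₀ (c : Qf F) = ((c ^ Nat.card F ^ s : kF F) : Qf F)) (a : ℕ) :
    ∀ c : kF F, (h₀ ^ a) (c : Qf F) = ((c ^ Nat.card F ^ (a * s) : kF F) : Qf F) := by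
  induction a with
  | zero => intro c; simp
  | succ a ih =>
    intro c
    rw [pow_succ', AlgEquiv.mul_apply, ih, h, ← pow_mul, ← pow_add]
    congr 4
    ring

private theorem h0_fix {F : Type} [Field F] (h₀ : GQ F) (b : Qf F) (h : h₀ b = b) (a : ℕ) :
    (h₀ ^ a) b = b := by
  induction a with
  | zero => simp
  | succ a ih => rw [pow_succ', AlgEquiv.mul_apply, ih, h]

theorem tH0 : S_Psi → D.S_Kt → D.S_Kk → S_H0 := by
  intro hP hK _ F _ _ h2 A hA H ho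
  obtain ⟨hP1, -, -⟩ := hP F h2 A hA
  obtain ⟨-, -, h3, h4⟩ := hK F
  have hfin : Finite (GQ F ⧸ H) := H.quotient_finite_of_isOpen ho
  have h5 : H.index ≠ 0 := by
    have : H.FiniteIndex := Subgroup.finiteIndex_of_finite_quotient
    exact this.index_ne_zero
  obtain ⟨m, hm0, -, hm⟩ := Subgroup.exists_pow_mem_of_index_ne_zero h5 (psQ A)
  have hex : ∃ s : ℕ, 0 < s ∧ ∃ h₀ ∈ H,
      ∀ c : kF F, h₀ (c : Qf F) = ((c ^ Nat.card F ^ s : kF F) : Qf F) :=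
    ⟨m, hm0, psQ A ^ m, hm, fun c => (hP1 m c).1⟩
  classical
  obtain ⟨hs0, h₀, hh, hc⟩ := Nat.find_spec hex
  refine ⟨h₀, Nat.find hex, hh, hs0, hc, ?_⟩
  intro b hb hb0 h hhH j hj
  set s := Nat.find hex with hs
  obtain ⟨a, j', hj', rfl⟩ : ∃ a j' : ℕ, j' < s ∧ j = a * s + j' :=
    ⟨j / s, j % s, Nat.mod_lt _ hs0, by rw [Nat.mul_comm]; exact (Nat.div_add_mod j s).symm⟩
  have hact : ∀ c : kF F, ((h₀ ^ a)⁻¹ * h) (c : Qf F) = ((c ^ Nat.card F ^ j' : kF F) : Qf F) := by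
    intro c
    rw [AlgEquiv.mul_apply, hj]
    have h6 := h0_pow h₀ s hc a (c ^ Nat.card F ^ j')
    have h7 : ((c ^ Nat.card F ^ j') ^ Nat.card F ^ (a * s) : kF F) =
        c ^ Nat.card F ^ (a * s + j') := by
      rw [← pow_mul, ← pow_add, Nat.add_comm]
    rw [h7] at h6
    rw [← h6, ← AlgEquiv.mul_apply, inv_mul_cancel, AlgEquiv.one_apply]
  have hmem : (h₀ ^ a)⁻¹ * h ∈ H := H.mul_mem (H.inv_mem (H.pow_mem hh a)) hhH
  have hj0 : j' = 0 := by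
    by_contra hne
    exact Nat.find_min hex hj' ⟨Nat.pos_of_ne_zero hne, _, hmem, hact⟩
  subst hj0
  have hGb : (h₀ ^ a)⁻¹ * h ∈ Gb F := by
    intro c
    have := hact c
    rw [pow_zero, pow_one] at this
    exact this
  have h8 := hb _ hmem hGb
  rw [AlgEquiv.mul_apply] at h8
  have h9 := congrArg (h₀ ^ a) h8
  rw [← AlgEquiv.mul_apply, mul_inv_cancel, AlgEquiv.one_apply, h0_fix h₀ b hb0 a] at h9
  exact h9

end Pool.Agent.MP72S.SX
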