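import Pool.Agent.Lib.MP_72e2e6_nt.Sm.X.Spec

/-!
# MP_72e2e6_nt, `Sm/X/Jm1`: one jump
-/

namespace Pool.Agent.MP72S.SX

open Polynomial Finset

section

variable {k Q G : Type} [Field k] [Field Q] [Algebra k Q] [Group G] [MulSemiringAction G Q]
  {t : Q} {ν : Option k → Q → WithTop ℚ} {rs : Option k → Q → k} {τ : Option k → G}

private theorem jm1_cos {N : Subgroup G} {f : Q} (hf : ∀ g ∈ N, g • f = f) {g g' : G}
    (hg : (g : G ⧸ N) = (g' : G ⧸ N)) : g • f = g' • f := by
  have h1 : g⁻¹ * g' ∈ N := QuotientGroup.eq.1 hg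
  have h2 := hf _ h1
  rw [← h2, ← mul_smul, mul_inv_cancel_left]
  rw [h2]

private theorem jm1_tau (h : Geo t ν rs τ) (x : Option k) (i : ℕ) (u : Q) :
    ν x (τ x ^ i • u) = ν x u := by
  induction i with
  | zero => rw [pow_zero, one_smul]
  | succ i ih => rw [pow_succ', mul_smul, h.tau, ih]

private theorem jm1_prod (h : Geo t ν rs τ) (x : Option k) {ι : Type} (s : Finset ι) (u : ι → Q) :
    ν x (∏ i ∈ s, u i) = ∑ i ∈ s, ν x (u i) := by
  classical
  induction s using Finset.induction_on with
  | empty => rw [Finset.prod_empty, Finset.sum_empty, h.v1]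
  | insert a s ha ih => rw [Finset.prod_insert ha, Finset.sum_insert ha, h.mul, ih]

/-- The value of a function with `σ ^ e • w = w` is in `ℤ / e`. -/
private theorem jm1_int (h : Geo t ν rs τ) (x : Option k) (e : ℕ) (he : 0 < e) (w : Q)
    (hw : τ x ^ e • w = w) (hw0 : w ≠ 0) :
    ∃ m : ℤ, ν x w = (((m : ℚ) / e : ℚ) : WithTop ℚ) := by
  set y : Q := ∏ i ∈ Finset.range e, τ x ^ i • w with hy
  have hne : ∀ i : ℕ, τ x ^ i • w ≠ 0 := fun i => (smul_ne_zero_iff_ne _).2 hw0
  have hy0 : y ≠ 0 := Finset.prod_ne_zero_iff.2 fun i _ => hne i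
  have hty : τ x • y = y := by
    have h1 : τ x • y = ∏ i ∈ Finset.range e, τ x ^ (i + 1) • w := by
      rw [hy, Finset.smul_prod']
      refine Finset.prod_congr rfl fun i _ => ?_
      rw [pow_succ', mul_smul]
    have h2 : (∏ i ∈ Finset.range e, τ x ^ (i + 1) • w) * (τ x ^ 0 • w) =
        y * (τ x ^ e • w) := by
      rw [hy, ← Finset.prod_range_succ (fun i => τ x ^ i • w) e]
      exact (Finset.prod_range_succ' (fun i => τ x ^ i • w) e).symm
    rw [hw, pow_zero, one_smul] at h2
    rw [h1]
    exact mul_right_cancel₀ hw0 h2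
  obtain ⟨m, hm⟩ := h.int x y hty hy0
  obtain ⟨v, hv⟩ := WithTop.ne_top_iff_exists.1 (fun hh => hw0 ((h.top x w).1 hh))
  have h3 : ν x y = (((e : ℚ) * v : ℚ) : WithTop ℚ) := by
    rw [hy, jm1_prod h]
    simp_rw [jm1_tau h, ← hv]
    rw [← WithTop.coe_sum, Finset.sum_const, Finset.card_range, nsmul_eq_mul]
  rw [hm, WithTop.coe_inj] at h3
  refine ⟨m, ?_⟩
  rw [← hv, WithTop.coe_inj, h3]
  field_simp

end

/-- **Jm1**. -/
theorem tJm1 : S_Jm1 := by
  intro k Q G _ _ _ _ _ _ t ν rs τ h N r r' x₀ c₀ e hr he hce h1 h2 hfin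
  classical
  obtain ⟨g₀, rfl⟩ := QuotientGroup.mk_surjective c₀
  have he' : (0 : ℚ) < e := Nat.cast_pos.2 he
  -- (1)
  have hA : ∀ f : Q, (∀ g ∈ N, g • f = f) → f ≠ 0 →
      ∃ m : ℤ, ν x₀ (g₀ • f) = (((m : ℚ) / e : ℚ) : WithTop ℚ) := by
    intro f hf hf0
    refine jm1_int h x₀ e he (g₀ • f) ?_ ((smul_ne_zero_iff_ne _).2 hf0)
    rw [← mul_smul]
    exact jm1_cos hf hce
  -- (2)
  have hB : ∀ f ∈ LL h N r, ((r x₀ (g₀ : G ⧸ N) + 1 / e : ℚ) : WithTop ℚ) ≤ ν x₀ (g₀ • f) →
      f ∈ LL h N r' := by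
    intro f hf hv
    rw [mem_LL] at hf ⊢
    refine ⟨hf.1, fun x g => ?_⟩
    by_cases hx : x = x₀ ∧ ∃ i : ℕ, (g : G ⧸ N) = τ x₀ ^ i • (g₀ : G ⧸ N)
    · obtain ⟨rfl, i, hi⟩ := hx
      have h3 : g • f = τ x ^ i • g₀ • f := by
        rw [← mul_smul]
        exact jm1_cos hf.1 hi
      rw [h3, jm1_tau h, hi]
      exact (WithTop.coe_le_coe.2 (h2 i)).trans hv
    · exact (WithTop.coe_le_coe.2 (h1 x g hx)).trans (hf.2 x g)
  by_cases hall : LL h N r ≤ LL h N r'
  · have := Submodule.finiteDimensional_of_le hall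
    exact ⟨this, (Submodule.finrank_mono hall).trans (Nat.le_succ _)⟩
  · obtain ⟨f₁, hf₁, hf₁'⟩ := SetLike.not_le_iff_exists.1 hall
    have hf₁0 : f₁ ≠ 0 := by
      rintro rfl
      exact hf₁' (LL h N r').zero_mem
    have hf₁2 := hf₁
    rw [mem_LL] at hf₁2
    obtain ⟨m₁, hm₁⟩ := hA f₁ hf₁2.1 hf₁0
    have hlt₁ : (m₁ : ℚ) / e < r x₀ (g₀ : G ⧸ N) + 1 / e := by
      by_contra hcon
      rw [not_lt] at hcon
      refine hf₁' (hB f₁ hf₁ ?_)
      rw [hm₁]
      exact WithTop.coe_le_coe.2 hcon
    have hge₁ : r x₀ (g₀ : G ⧸ N) ≤ (m₁ : ℚ) / e := by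
      have h3 := hf₁2.2 x₀ g₀
      rw [hm₁] at h3
      exact WithTop.coe_le_coe.1 h3
    have hle : LL h N r ≤ LL h N r' ⊔ Submodule.span k {f₁} := by
      intro f hf
      by_cases hv : ((r x₀ (g₀ : G ⧸ N) + 1 / e : ℚ) : WithTop ℚ) ≤ ν x₀ (g₀ • f)
      · exact Submodule.mem_sup_left (hB f hf hv)
      · have hf0 : f ≠ 0 := by
          rintro rfl
          rw [smul_zero, h.v0] at hv
          exact hv le_top
        have hf2 := hf
        rw [mem_LL] at hf2
        obtain ⟨m, hm⟩ := hA f hf2.1 hf0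
        have hlt : (m : ℚ) / e < r x₀ (g₀ : G ⧸ N) + 1 / e := by
          by_contra hcon
          rw [not_lt] at hcon
          refine hv ?_
          rw [hm]
          exact WithTop.coe_le_coe.2 hcon
        have hge : r x₀ (g₀ : G ⧸ N) ≤ (m : ℚ) / e := by
          have h3 := hf2.2 x₀ g₀
          rw [hm] at h3
          exact WithTop.coe_le_coe.1 h3
        have hmm : m = m₁ := by
          have h3 : (m : ℚ) / e < (m₁ : ℚ) / e + 1 / e := by linarith
          have h4 : (m₁ : ℚ) / e < (m : ℚ) / e + 1 / e := by linarith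
          rw [← add_div, div_lt_div_iff_of_pos_right he'] at h3 h4
          have h5 : m < m₁ + 1 := by exact_mod_cast h3
          have h6 : m₁ < m + 1 := by exact_mod_cast h4
          omega
        have hg0 : g₀ • f₁ ≠ 0 := (smul_ne_zero_iff_ne _).2 hf₁0
        set y : Q := (g₀ • f) / (g₀ • f₁) with hy
        have hyy : y * (g₀ • f₁) = g₀ • f := div_mul_cancel₀ _ hg0
        have hy0 : (0 : WithTop ℚ) ≤ ν x₀ y := by
          have h3 : ν x₀ y + (((m₁ : ℚ) / e : ℚ) : WithTop ℚ) =
              (((m : ℚ) / e : ℚ) : WithTop ℚ) := by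
            rw [← hm₁, ← hm, ← h.mul, hyy]
          rw [hmm] at h3
          generalize ν x₀ y = v at h3
          induction v using WithTop.recTopCoe with
          | top => exact le_top
          | coe v =>
            rw [← WithTop.coe_add, WithTop.coe_inj] at h3
            have h4 : v = 0 := by linarith
            rw [h4]
            exact le_rfl
        have hres := h.res x₀ y hy0
        set l : k := rs x₀ y with hl
        have hsub : f - l • f₁ ∈ LL h N r' := by
          have hmem : f - l • f₁ ∈ LL h N r :=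
            (LL h N r).sub_mem hf ((LL h N r).smul_mem l hf₁)
          by_cases h0 : f - l • f₁ = 0
          · rw [h0]
            exact (LL h N r').zero_mem
          · refine hB _ hmem ?_
            have hmem2 := hmem
            rw [mem_LL] at hmem2
            obtain ⟨m', hm'⟩ := hA _ hmem2.1 h0
            have h5 : g₀ • (f - l • f₁) = (y - algebraMap k Q l) * (g₀ • f₁) := by
              rw [smul_sub, h.smul_k, sub_mul, hyy, Algebra.smul_def]
            have h6 : ν x₀ (g₀ • (f - l • f₁)) = ν x₀ (y - algebraMap k Q l) +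
                (((m₁ : ℚ) / e : ℚ) : WithTop ℚ) := by
              rw [h5, h.mul, hm₁]
            rw [hm'] at h6 ⊢
            generalize ν x₀ (y - algebraMap k Q l) = v at h6 hres
            induction v using WithTop.recTopCoe with
            | top =>
              rw [WithTop.top_add] at h6
              exact absurd h6 WithTop.coe_ne_top
            | coe v =>
              rw [← WithTop.coe_add, WithTop.coe_inj] at h6
              have h7 : 0 < v := by exact_mod_cast hres
              have h8 : (m₁ : ℚ) / e < (m' : ℚ) / e := by linarith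
              rw [div_lt_div_iff_of_pos_right he'] at h8
              have h9 : m₁ + 1 ≤ m' := by exact_mod_cast h8
              have h10 : ((m₁ : ℚ) + 1) / e ≤ (m' : ℚ) / e := by
                rw [div_le_div_iff_of_pos_right he']
                exact_mod_cast h9
              rw [add_div] at h10
              exact WithTop.coe_le_coe.2 (by linarith)
        have h11 : f = (f - l • f₁) + l • f₁ := by abel
        rw [h11]
        exact Submodule.add_mem_sup hsub
          (Submodule.smul_mem _ _ (Submodule.mem_span_singleton_self f₁))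
    have : Module.Finite k (Submodule.span k {f₁}) := inferInstance
    have hsup : Module.Finite k ↥(LL h N r' ⊔ Submodule.span k {f₁}) :=
      Submodule.finite_sup _ _
    have := Submodule.finiteDimensional_of_le hle
    refine ⟨this, ?_⟩
    calc Module.finrank k (LL h N r) ≤
          Module.finrank k ↥(LL h N r' ⊔ Submodule.span k {f₁}) := Submodule.finrank_mono hle
      _ ≤ Module.finrank k (LL h N r') + Module.finrank k (Submodule.span k {f₁}) :=
          Submodule.finrank_add_le_finrank_add_finrank _ _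
      _ = Module.finrank k (LL h N r') + 1 := by rw [finrank_span_singleton hf₁0]

end Pool.Agent.MP72S.SX
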