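import Pool.Agent.Lib.MP_72e2e6_nt.Sm.X.Spec

/-!
# MP_72e2e6_nt, `Sm/X`: module `JmX`
-/

namespace Pool.Agent.MP72S.SX

open Polynomial Finset

private theorem JmX_triv {k G : Type} [Group G] {τ : Option k → G} {N : Subgroup G}
    {x : Option k} (h : Unr τ N x) (c : G ⧸ N) : τ x • c = c := by
  induction c using QuotientGroup.induction_on with
  | H g =>
    change ((τ x * g : G) : G ⧸ N) = (g : G ⧸ N)
    symm
    rw [QuotientGroup.eq, ← mul_assoc]
    exact h g

theorem tJmX : S_Jmp → S_JmX := by
  intro hJ k Q G _ _ _ _ _ _ t ν rs τ h N _ r r' X T hr hr' hX hle hT hfin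
  classical
  have key : ∀ (X : Finset (Option k)) (r : Option k → G ⧸ N → ℚ), Inv τ r →
      (∀ x, x ∉ X → ∀ c, r' x c = r x c) → (∀ x c, r x c ≤ r' x c) →
      (∀ x, x ∉ T → ∀ c, ∃ m : ℤ, r x c = m) →
      Module.Finite k (LL h N r) ∧ (Module.finrank k (LL h N r) : ℚ) ≤
        Module.finrank k (LL h N r') + ∑ x ∈ X, (∑ c, (r' x c - r x c) +
          if x ∈ T then (Fintype.card (G ⧸ N) : ℚ) else 0) := by
    intro X
    induction X using Finset.induction_on with
    | empty =>
      intro r _ hX _ _
      have hrr : r = r' := by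
        funext x c
        exact (hX x (notMem_empty x) c).symm
      subst hrr
      refine ⟨hfin, ?_⟩
      rw [sum_empty, add_zero]
    | insert x₀ X hx₀ ih =>
      intro r hr hX hle hint
      set r₁ : Option k → G ⧸ N → ℚ := fun x => if x = x₀ then r' x else r x with hr₁
      have e0 : r₁ x₀ = r' x₀ := if_pos rfl
      have e1 : ∀ x, x ≠ x₀ → r₁ x = r x := fun x hx => if_neg hx
      have hInv : Inv τ r₁ := by
        intro x c
        by_cases hx : x = x₀
        · rw [hx, e0]
          exact hr' x₀ c
        · rw [e1 x hx]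
          exact hr x c
      obtain ⟨f1, f2⟩ := ih r₁ hInv (by
        intro x hx c
        by_cases hx' : x = x₀
        · rw [hx', e0]
        · rw [e1 x hx']
          exact hX x (by rw [mem_insert]; tauto) c) (by
        intro x c
        by_cases hx' : x = x₀
        · rw [hx', e0]
        · rw [e1 x hx']
          exact hle x c) (by
        intro x hx c
        by_cases hx' : x = x₀
        · rw [hx', e0]
          rw [hx'] at hx
          exact ((hT x₀ hx).2 c).2
        · rw [e1 x hx']
          exact hint x hx c)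
      obtain ⟨g1, g2, g3⟩ := hJ h N r r₁ x₀ hr hInv (by
        intro x hx c
        rw [e1 x hx]) (by
        intro c
        rw [e0]
        exact hle x₀ c) f1
      refine ⟨g1, ?_⟩
      have hs : ∑ x ∈ X, (∑ c, (r' x c - r₁ x c) +
          if x ∈ T then (Fintype.card (G ⧸ N) : ℚ) else 0) =
          ∑ x ∈ X, (∑ c, (r' x c - r x c) +
          if x ∈ T then (Fintype.card (G ⧸ N) : ℚ) else 0) := by
        apply sum_congr rfl
        intro x hx
        have : x ≠ x₀ := fun h => hx₀ (h ▸ hx)
        rw [e1 x this]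
      rw [sum_insert hx₀]
      rw [hs] at f2
      rw [e0] at g2 g3
      by_cases hxT : x₀ ∈ T
      · rw [if_pos hxT]
        linarith
      · rw [if_neg hxT]
        have g4 := g3 (JmX_triv (hT x₀ hxT).1) (fun c => hint x₀ hxT c)
          (fun c => ((hT x₀ hxT).2 c).2)
        linarith
  obtain ⟨k1, k2⟩ := key X r hr hX hle (fun x hx c => ((hT x hx).2 c).1)
  refine ⟨k1, k2.trans ?_⟩
  rw [sum_add_distrib]
  have h3 : (∑ x ∈ X, if x ∈ T then (Fintype.card (G ⧸ N) : ℚ) else 0) ≤
      #T * Fintype.card (G ⧸ N) := by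
    rw [← sum_filter, sum_const, nsmul_eq_mul]
    apply mul_le_mul_of_nonneg_right _ (Nat.cast_nonneg _)
    have : #(X.filter fun x => x ∈ T) ≤ #T := card_le_card fun x hx => (mem_filter.1 hx).2
    exact_mod_cast this
  linarith

end Pool.Agent.MP72S.SX
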