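import Pool.Agent.Lib.MP_72e2e6_nt.Sm.X.Spec

set_option autoImplicit false

namespace Pool.Agent.MP72S.SX

open Polynomial Finset

section

variable {G B : Type} [Group G] [MulAction G B]

/-- The period. -/
private noncomputable def jper (a : G) (c₀ : B) : ℕ := Function.minimalPeriod (a • ·) c₀

private theorem jper_pos [Finite B] (a : G) (c₀ : B) : 0 < jper a c₀ := by
  haveI : Finite (MulAction.orbit (Subgroup.zpowers a) c₀) := Set.toFinite _
  exact Nat.pos_of_ne_zero (MulAction.minimalPeriod_pos a c₀).out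

private theorem jper_smul (a : G) (c₀ : B) : a ^ jper a c₀ • c₀ = c₀ := by
  have h := Function.isPeriodicPt_minimalPeriod (a • ·) c₀
  rwa [MulAction.isPeriodicPt_smul_iff] at h

private theorem jper_mod (a : G) (c₀ : B) (i : ℕ) : a ^ (i % jper a c₀) • c₀ = a ^ i • c₀ := by
  have h := Function.iterate_mod_minimalPeriod_eq (f := (a • · : B → B)) (x := c₀) (n := i)
  rw [smul_iterate, smul_iterate] at h
  exact h

/-- The orbit. -/
private def jo (a : G) (c₀ c : B) : Prop := ∃ i : ℕ, c = a ^ i • c₀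

private theorem jo_self (a : G) (c₀ : B) : jo a c₀ c₀ := ⟨0, by rw [pow_zero, one_smul]⟩

private theorem jo_smul [Finite B] (a : G) (c₀ c : B) : jo a c₀ (a • c) ↔ jo a c₀ c := by
  constructor
  · rintro ⟨i, hi⟩
    have hp := jper_pos a c₀
    refine ⟨i + (jper a c₀ - 1), ?_⟩
    have h1 : a • c = a • (a ^ (i + (jper a c₀ - 1)) • c₀) := by
      rw [hi, smul_smul, ← pow_succ']
      have h2 : i + (jper a c₀ - 1) + 1 = i + jper a c₀ := by omega
      rw [h2, pow_add, mul_smul, jper_smul]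
    exact smul_left_cancel a h1
  · rintro ⟨i, hi⟩
    exact ⟨i + 1, by rw [hi, smul_smul, ← pow_succ']⟩

private theorem jo_card [Fintype B] (a : G) (c₀ : B) :
    open Classical in #{c : B | jo a c₀ c} = jper a c₀ := by
  classical
  have h1 : ({c : B | jo a c₀ c} : Finset B) = (range (jper a c₀)).image fun i => a ^ i • c₀ := by
    ext c
    rw [mem_filter, mem_image]
    constructor
    · rintro ⟨-, i, hi⟩
      exact ⟨i % jper a c₀, mem_range.2 (Nat.mod_lt _ (jper_pos a c₀)), by rw [jper_mod, hi]⟩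
    · rintro ⟨i, -, hi⟩
      exact ⟨mem_univ _, i, hi.symm⟩
  have h2 : Set.InjOn (fun i : ℕ => a ^ i • c₀) (range (jper a c₀) : Finset ℕ) := by
    have h3 := Function.iterate_injOn_Iio_minimalPeriod (f := (a • · : B → B)) (x := c₀)
    intro i hi j hj hij
    rw [coe_range] at hi hj
    refine h3 hi hj ?_
    simpa only [smul_iterate] using hij
  rw [h1, card_image_of_injOn h2, card_range]

end

section

variable {k G : Type} [Group G] {N : Subgroup G}

/-- One step. -/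
private noncomputable def jst (τ : Option k → G) (r r' : Option k → G ⧸ N → ℚ) (x₀ : Option k)
    (c₀ : G ⧸ N) : Option k → G ⧸ N → ℚ := fun x c =>
  open Classical in
  if x = x₀ ∧ jo (τ x₀) c₀ c then min (r' x₀ c₀) (r x₀ c₀ + 1 / (jper (τ x₀) c₀ : ℕ)) else r x c

private theorem jst_in (τ : Option k → G) (r r' : Option k → G ⧸ N → ℚ) (x₀ : Option k)
    (c₀ c : G ⧸ N) (hc : jo (τ x₀) c₀ c) :
    jst τ r r' x₀ c₀ x₀ c = min (r' x₀ c₀) (r x₀ c₀ + 1 / (jper (τ x₀) c₀ : ℕ)) :=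
  if_pos ⟨rfl, hc⟩

private theorem jst_out (τ : Option k → G) (r r' : Option k → G ⧸ N → ℚ) (x₀ : Option k)
    (c₀ : G ⧸ N) (x : Option k) (c : G ⧸ N) (hc : ¬ (x = x₀ ∧ jo (τ x₀) c₀ c)) :
    jst τ r r' x₀ c₀ x c = r x c := if_neg hc

private theorem inv_jo {τ : Option k → G} {r : Option k → G ⧸ N → ℚ} (h : Inv τ r)
    (x₀ : Option k) (c₀ c : G ⧸ N) (hc : jo (τ x₀) c₀ c) : r x₀ c = r x₀ c₀ := by
  obtain ⟨i, rfl⟩ := hc
  induction i with
  | zero => rw [pow_zero, one_smul]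
  | succ i ih => rw [pow_succ', mul_smul, h, ih]

private theorem jst_inv [Finite (G ⧸ N)] {τ : Option k → G} {r : Option k → G ⧸ N → ℚ}
    (h : Inv τ r) (r' : Option k → G ⧸ N → ℚ) (x₀ : Option k) (c₀ : G ⧸ N) :
    Inv τ (jst τ r r' x₀ c₀) := by
  intro x c
  by_cases hx : x = x₀
  · subst hx
    by_cases hc : jo (τ x) c₀ c
    · rw [jst_in _ _ _ _ _ _ hc, jst_in _ _ _ _ _ _ ((jo_smul _ _ _).2 hc)]
    · rw [jst_out _ _ _ _ _ _ _ fun h' => hc h'.2,
        jst_out _ _ _ _ _ _ _ fun h' => hc ((jo_smul _ _ _).1 h'.2), h]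
  · rw [jst_out _ _ _ _ _ _ _ fun h' => hx h'.1, jst_out _ _ _ _ _ _ _ fun h' => hx h'.1, h]

private theorem jst_le {τ : Option k → G} {r r' : Option k → G ⧸ N → ℚ}
    (h' : Inv τ r') (x₀ : Option k) (c₀ : G ⧸ N) (hrr : ∀ c, r x₀ c ≤ r' x₀ c) (c : G ⧸ N) :
    jst τ r r' x₀ c₀ x₀ c ≤ r' x₀ c := by
  by_cases hc : jo (τ x₀) c₀ c
  · rw [jst_in _ _ _ _ _ _ hc, inv_jo h' x₀ c₀ c hc]
    exact min_le_left _ _
  · rw [jst_out _ _ _ _ _ _ _ fun h' => hc h'.2]
    exact hrr c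

private theorem le_jst {τ : Option k → G} {r r' : Option k → G ⧸ N → ℚ}
    (h : Inv τ r) (x₀ : Option k) (c₀ : G ⧸ N) (hrr : ∀ c, r x₀ c ≤ r' x₀ c) (c : G ⧸ N) :
    r x₀ c ≤ jst τ r r' x₀ c₀ x₀ c := by
  by_cases hc : jo (τ x₀) c₀ c
  · rw [jst_in _ _ _ _ _ _ hc, inv_jo h x₀ c₀ c hc]
    refine le_min (hrr c₀) ?_
    have : (0 : ℚ) ≤ 1 / (jper (τ x₀) c₀ : ℕ) := by positivity
    linarith
  · rw [jst_out _ _ _ _ _ _ _ fun h' => hc h'.2]

/-- If the jump has full length then the sum decreases by one. -/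
private theorem jst_sum [Fintype (G ⧸ N)] {τ : Option k → G} {r r' : Option k → G ⧸ N → ℚ}
    (h : Inv τ r) (x₀ : Option k) (c₀ : G ⧸ N)
    (hle : r x₀ c₀ + 1 / (jper (τ x₀) c₀ : ℕ) ≤ r' x₀ c₀) :
    ∑ c, (r' x₀ c - jst τ r r' x₀ c₀ x₀ c) = ∑ c, (r' x₀ c - r x₀ c) - 1 := by
  classical
  have h1 : ∀ c, r' x₀ c - jst τ r r' x₀ c₀ x₀ c = (r' x₀ c - r x₀ c) -
      if jo (τ x₀) c₀ c then 1 / ((jper (τ x₀) c₀ : ℕ) : ℚ) else 0 := by
    intro c
    by_cases hc : jo (τ x₀) c₀ c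
    · rw [jst_in _ _ _ _ _ _ hc, if_pos hc, min_eq_right hle, inv_jo h x₀ c₀ c hc]
      ring
    · rw [jst_out _ _ _ _ _ _ _ fun h' => hc h'.2, if_neg hc, sub_zero]
  rw [sum_congr rfl fun c _ => h1 c, sum_sub_distrib]
  have h2 : ∑ c : G ⧸ N, (if jo (τ x₀) c₀ c then 1 / ((jper (τ x₀) c₀ : ℕ) : ℚ) else 0) = 1 := by
    rw [← sum_filter, sum_const, nsmul_eq_mul]
    have h3 := jo_card (τ x₀) c₀
    have h4 : ((jper (τ x₀) c₀ : ℕ) : ℚ) ≠ 0 := by
      have := jper_pos (τ x₀) c₀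
      exact_mod_cast this.ne'
    have h5 : #{c : G ⧸ N | jo (τ x₀) c₀ c} = jper (τ x₀) c₀ := by
      rw [← h3]
    rw [h5, mul_one_div_cancel h4]
  rw [h2]

end

/-- The abstract induction. -/
private theorem jind (h1 : S_Jm1) {k Q G : Type} [Field k] [IsAlgClosed k] [Field Q] [Algebra k Q]
    [Group G] [MulSemiringAction G Q] {t : Q} {ν : Option k → Q → WithTop ℚ}
    {rs : Option k → Q → k} {τ : Option k → G} (h : Geo t ν rs τ) (N : Subgroup G)
    [Fintype (G ⧸ N)] (r' : Option k → G ⧸ N → ℚ) (x₀ : Option k) (hr' : Inv τ r')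
    (hf : Module.Finite k (LL h N r')) (P : (Option k → G ⧸ N → ℚ) → Prop)
    (Φ : (Option k → G ⧸ N → ℚ) → ℚ)
    (h0 : ∀ r, (∀ c, r x₀ c ≤ r' x₀ c) → 0 ≤ Φ r)
    (hs : ∀ r, P r → Inv τ r → (∀ c, r x₀ c ≤ r' x₀ c) → ∀ c₀, r x₀ c₀ < r' x₀ c₀ →
      P (jst τ r r' x₀ c₀) ∧ Φ (jst τ r r' x₀ c₀) ≤ Φ r - 1) :
    ∀ (K : ℕ) (r : Option k → G ⧸ N → ℚ), Φ r < K → P r → Inv τ r →
      (∀ x, x ≠ x₀ → ∀ c, r' x c = r x c) → (∀ c, r x₀ c ≤ r' x₀ c) →
      Module.Finite k (LL h N r) ∧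
      ((Module.finrank k (LL h N r) : ℚ) ≤ Module.finrank k (LL h N r') + Φ r) := by
  intro K
  induction K with
  | zero =>
    intro r hK _ _ _ hle
    have := h0 r hle
    rw [Nat.cast_zero] at hK
    exact absurd hK (not_lt.2 this)
  | succ K ih =>
    intro r hK hP hr hx hle
    by_cases hc : ∃ c₀, r x₀ c₀ < r' x₀ c₀
    · obtain ⟨c₀, hc₀⟩ := hc
      obtain ⟨hP1, hΦ1⟩ := hs r hP hr hle c₀ hc₀
      have hK1 : Φ (jst τ r r' x₀ c₀) < K := by
        push_cast at hK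
        linarith
      have hx1 : ∀ x, x ≠ x₀ → ∀ c, r' x c = jst τ r r' x₀ c₀ x c := by
        intro x hxx c
        rw [jst_out _ _ _ _ _ _ _ fun h' => hxx h'.1]
        exact hx x hxx c
      obtain ⟨hf1, hd1⟩ := ih (jst τ r r' x₀ c₀) hK1 hP1 (jst_inv hr r' x₀ c₀) hx1
        (jst_le hr' x₀ c₀ hle)
      obtain ⟨hf2, hd2⟩ := h1 h N r (jst τ r r' x₀ c₀) x₀ c₀ (jper (τ x₀) c₀) hr
        (jper_pos _ _) (jper_smul _ _)
        (by
          intro x c hxc
          rw [jst_out _ _ _ _ _ _ _ hxc])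
        (by
          intro i
          rw [jst_in _ _ _ _ _ _ ⟨i, rfl⟩]
          exact min_le_right _ _) hf1
      refine ⟨hf2, ?_⟩
      have hd3 : (Module.finrank k (LL h N r) : ℚ) ≤
          Module.finrank k (LL h N (jst τ r r' x₀ c₀)) + 1 := by exact_mod_cast hd2
      linarith
    · push Not at hc
      have he : r = r' := by
        funext x c
        by_cases hxx : x = x₀
        · rw [hxx]
          exact le_antisymm (hle c) (hc c)
        · exact (hx x hxx c).symm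
      have := h0 r hle
      subst he
      exact ⟨hf, by linarith⟩

theorem tJmp (h1 : S_Jm1) : S_Jmp := by
  intro k Q G _ _ _ _ _ _ t ν rs τ h N _ r r' x₀ hr hr' hx hle hf
  classical
  have main1 := jind h1 h N r' x₀ hr' hf (fun _ => True)
    (fun r => ∑ c, (r' x₀ c - r x₀ c) + #{c | r x₀ c < r' x₀ c})
    (by
      intro r hle
      have : 0 ≤ ∑ c, (r' x₀ c - r x₀ c) := sum_nonneg fun c _ => sub_nonneg.2 (hle c)
      positivity)
    (by
      intro r _ hr hle c₀ hc₀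
      refine ⟨trivial, ?_⟩
      have hsub : ({c | jst τ r r' x₀ c₀ x₀ c < r' x₀ c} : Finset (G ⧸ N)) ⊆
          ({c | r x₀ c < r' x₀ c} : Finset (G ⧸ N)) := by
        intro c hc
        rw [mem_filter] at hc ⊢
        exact ⟨hc.1, (le_jst hr x₀ c₀ hle c).trans_lt hc.2⟩
      rcases le_or_gt (r x₀ c₀ + 1 / (jper (τ x₀) c₀ : ℕ)) (r' x₀ c₀) with hcase | hcase
      · have e1 := jst_sum hr x₀ c₀ hcase
        have e2 : (#{c | jst τ r r' x₀ c₀ x₀ c < r' x₀ c} : ℚ) ≤ #{c | r x₀ c < r' x₀ c} := by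
          exact_mod_cast card_le_card hsub
        show ∑ c, (r' x₀ c - jst τ r r' x₀ c₀ x₀ c) +
          (#{c | jst τ r r' x₀ c₀ x₀ c < r' x₀ c} : ℚ) ≤
          ∑ c, (r' x₀ c - r x₀ c) + (#{c | r x₀ c < r' x₀ c} : ℚ) - 1
        linarith
      · have e1 : ∑ c, (r' x₀ c - jst τ r r' x₀ c₀ x₀ c) ≤ ∑ c, (r' x₀ c - r x₀ c) :=
          sum_le_sum fun c _ => sub_le_sub_left (le_jst hr x₀ c₀ hle c) _
        have hss : ({c | jst τ r r' x₀ c₀ x₀ c < r' x₀ c} : Finset (G ⧸ N)) ⊂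
            ({c | r x₀ c < r' x₀ c} : Finset (G ⧸ N)) := by
          refine Finset.ssubset_iff_subset_ne.2 ⟨hsub, fun he => ?_⟩
          have hm : c₀ ∈ ({c | r x₀ c < r' x₀ c} : Finset (G ⧸ N)) := by
            rw [mem_filter]
            exact ⟨mem_univ _, hc₀⟩
          rw [← he, mem_filter, jst_in _ _ _ _ _ _ (jo_self _ _), min_eq_left hcase.le] at hm
          exact lt_irrefl _ hm.2
        have e2 := card_lt_card hss
        have e3 : (#{c | jst τ r r' x₀ c₀ x₀ c < r' x₀ c} : ℚ) + 1 ≤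
            #{c | r x₀ c < r' x₀ c} := by exact_mod_cast e2
        show ∑ c, (r' x₀ c - jst τ r r' x₀ c₀ x₀ c) +
          (#{c | jst τ r r' x₀ c₀ x₀ c < r' x₀ c} : ℚ) ≤
          ∑ c, (r' x₀ c - r x₀ c) + (#{c | r x₀ c < r' x₀ c} : ℚ) - 1
        linarith)
  obtain ⟨K, hK⟩ := exists_nat_gt (∑ c, (r' x₀ c - r x₀ c) + (#{c | r x₀ c < r' x₀ c} : ℚ))
  obtain ⟨hfin, hd⟩ := main1 K r hK trivial hr hx hle
  refine ⟨hfin, ?_, ?_⟩
  · have e1 : (#{c | r x₀ c < r' x₀ c} : ℚ) ≤ Fintype.card (G ⧸ N) := by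
      exact_mod_cast card_le_univ _
    have hd' : (Module.finrank k (LL h N r) : ℚ) ≤ Module.finrank k (LL h N r') +
        (∑ c, (r' x₀ c - r x₀ c) + (#{c | r x₀ c < r' x₀ c} : ℚ)) := hd
    linarith
  · intro htr hri hri'
    have main2 := jind h1 h N r' x₀ hr' hf (fun r => ∀ c, ∃ m : ℤ, r x₀ c = m)
      (fun r => ∑ c, (r' x₀ c - r x₀ c))
      (by
        intro r hle
        exact sum_nonneg fun c _ => sub_nonneg.2 (hle c))
      (by
        intro r hri hr hle c₀ hc₀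
        have hper : jper (τ x₀) c₀ = 1 := by
          unfold jper
          rw [Function.minimalPeriod_eq_one_iff_isFixedPt]
          exact htr c₀
        have hle' : r x₀ c₀ + 1 / (jper (τ x₀) c₀ : ℕ) ≤ r' x₀ c₀ := by
          rw [hper]
          obtain ⟨m, hm⟩ := hri c₀
          obtain ⟨m', hm'⟩ := hri' c₀
          rw [hm, hm'] at hc₀ ⊢
          have : m + 1 ≤ m' := by exact_mod_cast hc₀
          have h3 : ((m + 1 : ℤ) : ℚ) ≤ m' := by exact_mod_cast this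
          push_cast at h3 ⊢
          linarith
        refine ⟨fun c => ?_, (jst_sum hr x₀ c₀ hle').le⟩
        by_cases hc : jo (τ x₀) c₀ c
        · rw [jst_in _ _ _ _ _ _ hc, min_eq_right hle', hper]
          obtain ⟨m, hm⟩ := hri c₀
          exact ⟨m + 1, by rw [hm]; push_cast; ring⟩
        · rw [jst_out _ _ _ _ _ _ _ fun h' => hc h'.2]
          exact hri c)
    obtain ⟨K, hK⟩ := exists_nat_gt (∑ c, (r' x₀ c - r x₀ c))
    exact (main2 K r hK hri hr hx hle).2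

end Pool.Agent.MP72S.SX
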