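import Pool.Agent.Lib.MP_72e2e6_nt.Sm.X.Spec

/-!
# MP_72e2e6_nt, `Sm/X`, module `Per`: all automorphisms permute the places
-/

set_option autoImplicit false

namespace Pool.Agent.MP72S.SX

open Polynomial Finset Pool.Agent.MP72W Pool.Agent.MP72S.D Pool.Agent.MP72S.SF

/-- `σ` acts on the constants by the exponent `q ^ (a - b)`. -/
private def PerAB {F : Type} [Field F] (σ : GQ F) (a b : ℕ) : Prop :=
  ∀ c : kF F, σ ((c ^ Nat.card F ^ b : kF F) : Qf F) = ((c ^ Nat.card F ^ a : kF F) : Qf F)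

private theorem per_mul {F : Type} [Field F] {σ τ : GQ F} {a b a' b' : ℕ} (h : PerAB σ a b)
    (h' : PerAB τ a' b') : PerAB (σ * τ) (a + a') (b + b') := by
  intro c
  have h1 := h' (c ^ Nat.card F ^ b)
  have h2 := h (c ^ Nat.card F ^ a')
  have e1 : (c ^ Nat.card F ^ b) ^ Nat.card F ^ b' = c ^ Nat.card F ^ (b + b') := by
    rw [← pow_mul, ← pow_add]
  have e2 : (c ^ Nat.card F ^ b) ^ Nat.card F ^ a' = (c ^ Nat.card F ^ a') ^ Nat.card F ^ b := by
    rw [← pow_mul, ← pow_mul, mul_comm]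
  have e3 : (c ^ Nat.card F ^ a') ^ Nat.card F ^ a = c ^ Nat.card F ^ (a + a') := by
    rw [← pow_mul, ← pow_add, add_comm]
  rw [e1, e2] at h1
  rw [e3] at h2
  rw [AlgEquiv.mul_apply, h1, h2]

private theorem per_inv {F : Type} [Field F] {σ : GQ F} {a b : ℕ} (h : PerAB σ a b) :
    PerAB σ⁻¹ b a := by
  intro c
  rw [← h c, ← AlgEquiv.mul_apply, inv_mul_cancel, AlgEquiv.one_apply]

private theorem per_one {F : Type} [Field F] : PerAB (1 : GQ F) 0 0 := fun _ => rfl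

private theorem per_pow {F : Type} [Field F] {σ : GQ F} {a b : ℕ} (h : PerAB σ a b) (n : ℕ) :
    PerAB (σ ^ n) (n * a) (n * b) := by
  induction n with
  | zero =>
    rw [pow_zero, Nat.zero_mul, Nat.zero_mul]
    exact per_one
  | succ n ih =>
    rw [pow_succ, Nat.succ_mul, Nat.succ_mul]
    exact per_mul ih h

private theorem per_triv {F : Type} [Field F] [Finite F] (hKk : D.S_Kk) {σ : GQ F} {a : ℕ}
    (h : PerAB σ a a) : σ ∈ Gb F := by
  intro c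
  obtain ⟨-, -, hper, -⟩ := hKk F
  obtain ⟨n, hn, hc⟩ := hper c
  have hc2 : ∀ k : ℕ, c ^ Nat.card F ^ (n * k) = c := by
    intro k
    induction k with
    | zero => rw [Nat.mul_zero, pow_zero, pow_one]
    | succ k ih => rw [Nat.mul_succ, pow_add, pow_mul, ih, hc]
  have hle : a ≤ n * a := Nat.le_mul_of_pos_left _ hn
  have hc3 : (c ^ Nat.card F ^ (n * a - a)) ^ Nat.card F ^ a = c := by
    rw [← pow_mul, ← pow_add, Nat.sub_add_cancel hle, hc2]
  have h1 := h (c ^ Nat.card F ^ (n * a - a))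
  rw [hc3] at h1
  exact h1

private theorem per_nf {F : Type} [Field F] {ν : Qf F → WithTop ℚ} {φ : GQ F}
    (h : ∀ y, ν (φ y) = ν y) (n : ℕ) (y : Qf F) : ν ((φ ^ n) y) = ν y := by
  induction n with
  | zero => rw [pow_zero, AlgEquiv.one_apply]
  | succ n ih => rw [pow_succ', AlgEquiv.mul_apply, h, ih]

private theorem per_main (hPc : D.S_Pc) (hRq : D.S_Rq) (hKk : D.S_Kk) (F : Type) [Field F]
    [Finite F] (h2 : (2 : F) ≠ 0) (A : Pl F → Lcd F) (hA : LDok F A) (ψ : GQ F)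
    (hψ : PerAB ψ 1 0) (h : GQ F) (s : ℕ) (hs : PerAB h s 0) (g : GQ F) (hg : g ∈ Gb F)
    (w : Pl F) (i : ℕ) (hd : 0 < dgP w.o) :
    ∃ (j : ℕ) (g' : GQ F), j < dgP w.o ∧ g' ∈ Gb F ∧
      ∀ f : Qf F, nuP (A w) ((ψ⁻¹ ^ i) (g (h f))) = nuP (A w) ((ψ⁻¹ ^ j) (g' f)) := by
  obtain ⟨hplc, -⟩ := hPc F h2 w.o (A w) (hA.ok w)
  obtain ⟨-, -, hfr, -⟩ := hRq F h2 w.o (A w) (hA.ok w)
  obtain ⟨-, hcst, -⟩ := hKk F
  have hnf := hplc.nf
  obtain ⟨φ, hφ⟩ : ∃ φ : GQ F, φ = (A w).rQ (A w).f := ⟨_, rfl⟩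
  rw [← hφ] at hfr hnf
  generalize dgP w.o = d at *
  have hφd : PerAB φ d 0 := by
    intro c
    rw [pow_zero, pow_one, hfr (c : Qf F) ((hcst _).1 c.2)]
    rfl
  have hnf' : ∀ y, nuP (A w) (φ⁻¹ y) = nuP (A w) y := by
    intro y
    rw [← hnf (φ⁻¹ y), ← AlgEquiv.mul_apply, mul_inv_cancel, AlgEquiv.one_apply]
  -- the exponents
  obtain ⟨j, b, hj, hjb⟩ : ∃ j b : ℕ, j < d ∧ j + (i * d + s) = b * d + i := by
    have hid : i ≤ i * d := Nat.le_mul_of_pos_right _ hd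
    refine ⟨(s + i * d - i + (d - 1)) / d * d - (s + i * d - i), (s + i * d - i + (d - 1)) / d,
      ?_, ?_⟩
    · have h1 := Nat.div_mul_le_self (s + i * d - i + (d - 1)) d
      omega
    · have h1 := Nat.lt_div_mul_add (a := s + i * d - i + (d - 1)) hd
      omega
  refine ⟨j, ψ ^ j * (φ⁻¹ ^ b * (φ ^ i * (ψ⁻¹ ^ i * (g * h)))), hj, ?_, ?_⟩
  · have hg' : PerAB g 0 0 := fun c => hg (c ^ Nat.card F ^ 0)
    have h1 := per_mul (per_pow hψ j) (per_mul (per_pow (per_inv hφd) b)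
      (per_mul (per_pow hφd i) (per_mul (per_pow (per_inv hψ) i) (per_mul hg' hs))))
    have e1 : j * 1 + (b * 0 + (i * d + (i * 0 + (0 + s)))) = b * d + i := by
      rw [← hjb]; ring
    have e2 : j * 0 + (b * d + (i * 0 + (i * 1 + (0 + 0)))) = b * d + i := by ring
    rw [e1, e2] at h1
    exact per_triv hKk h1
  · intro f
    have e1 : (ψ⁻¹ ^ j) ((ψ ^ j * (φ⁻¹ ^ b * (φ ^ i * (ψ⁻¹ ^ i * (g * h))))) f) =
        (φ⁻¹ ^ b) ((φ ^ i) ((ψ⁻¹ ^ i) (g (h f)))) := by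
      rw [← AlgEquiv.mul_apply, inv_pow, ← mul_assoc, inv_mul_cancel, one_mul]
      rfl
    rw [e1, per_nf hnf', per_nf hnf]

theorem tPer : S_Psi → D.S_Pc → D.S_Rq → D.S_Kk → S_Per := by
  intro hPsi hPc hRq hKk F _ _ h2 A hA h s hs x g hg
  obtain ⟨hP1, hP2, hP3⟩ := hPsi F h2 A hA
  have hψ : PerAB (psQ A) 1 0 := by
    intro c
    have := (hP1 1 c).1
    rw [pow_one] at this
    rw [pow_zero, pow_one]
    exact this
  have hs' : PerAB h s 0 := by
    intro c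
    rw [pow_zero, pow_one]
    exact hs c
  rcases x with _ | c
  · obtain ⟨j, g', hj, hg', hf⟩ := per_main hPc hRq hKk F h2 A hA (psQ A) hψ h s hs' g hg none 0
      Nat.one_pos
    have hj0 : j = 0 := Nat.lt_one_iff.1 hj
    subst hj0
    exact ⟨none, g', hg', by simp, hf⟩
  · obtain ⟨hw, hi, -⟩ := hP2 c
    obtain ⟨j, g', hj, hg', hf⟩ := per_main hPc hRq hKk F h2 A hA (psQ A) hψ h s hs' g hg
      (plX A (some c)).1 (plX A (some c)).2 (by omega)
    refine ⟨some (rtP A (plX A (some c)).1 ^ Nat.card F ^ j), g', hg', by simp, ?_⟩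
    intro f
    have h3 := hP3 _ hw j hj
    unfold nuX
    rw [h3]
    exact hf f

end Pool.Agent.MP72S.SX
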