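import Pool.Agent.Lib.MP_72e2e6_nt.Sm.X.Spec

/-!
# MP_72e2e6_nt, `Sm/X/Pf`: the divisor of a function in the fixed field
-/

namespace Pool.Agent.MP72S.SX

open Polynomial Finset

section

variable {k Q G : Type} [Field k] [Field Q] [Algebra k Q] [Group G] [MulSemiringAction G Q]
  {t : Q} {ν : Option k → Q → WithTop ℚ} {rs : Option k → Q → k} {τ : Option k → G}

private theorem pf_prod (h : Geo t ν rs τ) (x : Option k) {ι : Type} (s : Finset ι) (u : ι → Q) :
    ν x (∏ i ∈ s, u i) = ∑ i ∈ s, ν x (u i) := by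
  classical
  induction s using Finset.induction_on with
  | empty => rw [Finset.prod_empty, Finset.sum_empty, h.v1]
  | insert a s ha ih => rw [Finset.prod_insert ha, Finset.sum_insert ha, h.mul, ih]

private theorem pf_sum (h : Geo t ν rs τ) (x : Option k) {ι : Type} (s : Finset ι) (u : ι → Q)
    (b : WithTop ℚ) (hb : ∀ i ∈ s, b ≤ ν x (u i)) : b ≤ ν x (∑ i ∈ s, u i) := by
  classical
  induction s using Finset.induction_on with
  | empty => rw [Finset.sum_empty, h.v0]; exact le_top
  | insert a s ha ih =>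
    rw [Finset.sum_insert ha]
    exact (le_min (hb a (Finset.mem_insert_self _ _))
      (ih fun i hi => hb i (Finset.mem_insert_of_mem hi))).trans (h.add x _ _)

private theorem pf_pow (h : Geo t ν rs τ) (x : Option k) (u : Q) (v : ℚ)
    (hv : ν x u = (v : WithTop ℚ)) (n : ℕ) : ν x (u ^ n) = (((n : ℚ) * v : ℚ) : WithTop ℚ) := by
  induction n with
  | zero => rw [pow_zero, h.v1]; simp
  | succ n ih =>
    rw [pow_succ, h.mul, ih, hv, ← WithTop.coe_add]
    congr 1
    push_cast
    ring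

private theorem pf_neg (h : Geo t ν rs τ) (x : Option k) (u : Q) : ν x (-u) = ν x u := by
  have h1 : -u = algebraMap k Q (-1) * u := by rw [map_neg, map_one]; ring
  rw [h1, h.mul, h.cst x _ (neg_ne_zero.2 one_ne_zero), zero_add]

/-- A root of a monic polynomial with integral coefficients is integral. -/
private theorem pf_int (h : Geo t ν rs τ) (x : Option k) (P : Q[X]) (hP : P.Monic) (u : Q)
    (hu : P.eval u = 0) (hc : ∀ j, 0 ≤ ν x (P.coeff j)) : 0 ≤ ν x u := by
  by_contra hneg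
  rw [not_le] at hneg
  obtain ⟨v, hv⟩ : ∃ v : ℚ, ν x u = (v : WithTop ℚ) := by
    obtain ⟨v, hv⟩ := WithTop.ne_top_iff_exists.1 (ne_of_lt (lt_of_lt_of_le hneg le_top))
    exact ⟨v, hv.symm⟩
  have hv0 : v < 0 := by
    rw [hv] at hneg
    exact_mod_cast hneg
  have h1 : u ^ P.natDegree = -∑ j ∈ Finset.range P.natDegree, P.coeff j * u ^ j := by
    rw [Polynomial.eval_eq_sum_range, Finset.sum_range_succ, hP.coeff_natDegree, one_mul] at hu
    exact eq_neg_of_add_eq_zero_right hu
  have h2 : ((((P.natDegree : ℚ) - 1) * v : ℚ) : WithTop ℚ) ≤ ν x (u ^ P.natDegree) := by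
    rw [h1, pf_neg h]
    refine pf_sum h x _ _ _ fun j hj => ?_
    rw [h.mul, pf_pow h x u v hv]
    have h3 : ((((P.natDegree : ℚ) - 1) * v : ℚ) : WithTop ℚ) ≤ (((j : ℚ) * v : ℚ) : WithTop ℚ) := by
      rw [WithTop.coe_le_coe]
      have h4 : (j : ℚ) + 1 ≤ P.natDegree := by
        exact_mod_cast Finset.mem_range.1 hj
      nlinarith
    calc _ ≤ (((j : ℚ) * v : ℚ) : WithTop ℚ) := h3
      _ = 0 + (((j : ℚ) * v : ℚ) : WithTop ℚ) := (zero_add _).symm
      _ ≤ _ := add_le_add_left (hc j) _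
  rw [pf_pow h x u v hv, WithTop.coe_le_coe] at h2
  linarith

end

/-- **Pf**. -/
theorem tPf (h0 : S_Pf0) : S_Pf := by
  intro k Q G _ _ _ _ _ _ t ν rs τ h N _ f hf hf0
  classical
  -- the conjugates
  set F : G ⧸ N → Q := fun c => c.out • f with hF
  have hFg : ∀ g : G, F (g : G ⧸ N) = g • f := by
    intro g
    obtain ⟨n, hn⟩ := QuotientGroup.mk_out_eq_mul N g
    rw [hF]
    simp only
    rw [hn, mul_smul, hf n n.2]
  have hFs : ∀ (g : G) (c : G ⧸ N), F (g • c) = g • F c := by
    intro g c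
    obtain ⟨a, rfl⟩ := QuotientGroup.mk_surjective c
    rw [hFg a, ← mul_smul, ← hFg (g * a)]
    rfl
  have hF0 : ∀ c, F c ≠ 0 := fun c => (smul_ne_zero_iff_ne c.out).2 hf0
  have hfin : ∀ x c, ∃ q : ℚ, ν x (F c) = (q : WithTop ℚ) := by
    intro x c
    obtain ⟨v, hv⟩ := WithTop.ne_top_iff_exists.1 (fun hh => hF0 c ((h.top x _).1 hh))
    exact ⟨v, hv.symm⟩
  choose d hd using hfin
  -- the norm
  have hprod : ∀ g : G, g • (∏ c, F c) = ∏ c, F c := by
    intro g
    rw [Finset.smul_prod']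
    refine Fintype.prod_equiv (MulAction.toPerm g) _ _ fun c => ?_
    exact (hFs g c).symm
  have hprod0 : ∏ c, F c ≠ 0 := Finset.prod_ne_zero_iff.2 fun c _ => hF0 c
  obtain ⟨Y, m, hm, hmY, hmsum⟩ := h0 h _ hprod hprod0
  have hsum : ∀ x, ∑ c, d x c = m x := by
    intro x
    have h1 := pf_prod h x Finset.univ F
    rw [hm x] at h1
    simp_rw [hd] at h1
    rw [← WithTop.coe_sum, WithTop.coe_inj] at h1
    exact h1.symm
  -- the polynomial
  set P : Q[X] := ∏ c, (X - C (F c)) with hP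
  have hPm : P.Monic := monic_prod_of_monic _ _ fun c _ => monic_X_sub_C _
  have hPc : ∀ (g : G) j, g • P.coeff j = P.coeff j := by
    intro g j
    have h1 : P.map (MulSemiringAction.toRingHom G Q g) = P := by
      rw [hP, Polynomial.map_prod]
      refine Fintype.prod_equiv (MulAction.toPerm g) _ _ fun c => ?_
      rw [Polynomial.map_sub, map_X, map_C]
      change X - C (g • F c) = X - C (F (g • c))
      rw [hFs]
    conv_rhs => rw [← h1]
    rw [Polynomial.coeff_map]
    rfl
  have hco : ∀ j, ∃ Z : Finset (Option k), ∀ x, x ∉ Z → 0 ≤ ν x (P.coeff j) := by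
    intro j
    by_cases hj : P.coeff j = 0
    · refine ⟨∅, fun x _ => ?_⟩
      rw [hj, h.v0]
      exact le_top
    · obtain ⟨Z, m', hm', hZ, -⟩ := h0 h _ (fun g => hPc g j) hj
      refine ⟨Z, fun x hx => ?_⟩
      rw [hm' x, hZ x hx]
      simp
  choose Z hZ using hco
  set W : Finset (Option k) := Y ∪ (Finset.range (P.natDegree + 1)).biUnion Z with hW
  have hcW : ∀ x, x ∉ W → ∀ j, 0 ≤ ν x (P.coeff j) := by
    intro x hx j
    by_cases hj : j ∈ Finset.range (P.natDegree + 1)
    · refine hZ j x fun hxj => hx ?_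
      exact Finset.mem_union_right _ (Finset.mem_biUnion.2 ⟨j, hj, hxj⟩)
    · rw [Polynomial.coeff_eq_zero_of_natDegree_lt (by
        rw [Finset.mem_range] at hj; omega), h.v0]
      exact le_top
  have hdW : ∀ x, x ∉ W → ∀ c, d x c = 0 := by
    intro x hx
    have h1 : ∀ c, 0 ≤ d x c := by
      intro c
      have h2 : P.eval (F c) = 0 := by
        rw [hP, Polynomial.eval_prod]
        refine Finset.prod_eq_zero (Finset.mem_univ c) ?_
        rw [eval_sub, eval_X, eval_C, sub_self]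
      have h3 := pf_int h x P hPm (F c) h2 (hcW x hx)
      rw [hd] at h3
      exact_mod_cast h3
    have h2 : ∑ c, d x c = 0 := by
      rw [hsum, hmY x fun hxY => hx (Finset.mem_union_left _ hxY), Int.cast_zero]
    exact fun c => (Finset.sum_eq_zero_iff_of_nonneg fun c _ => h1 c).1 h2 c (Finset.mem_univ c)
  refine ⟨W, d, fun x c => ?_, fun x g => ?_, hdW, ?_⟩
  · have h1 : ((d x (τ x • c) : ℚ) : WithTop ℚ) = ((d x c : ℚ) : WithTop ℚ) := by
      rw [← hd, ← hd, hFs, h.tau]
    exact_mod_cast h1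
  · rw [← hFg, hd]
  · simp_rw [hsum]
    rw [← Int.cast_sum, ← Finset.sum_subset (Finset.subset_union_left : Y ⊆ W)
      (fun x _ hx => hmY x hx), hmsum, Int.cast_zero]

end Pool.Agent.MP72S.SX
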