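import Pool.Agent.Lib.MP_72e2e6_nt.Sm.X.Spec

/-!
# MP_72e2e6_nt, `Sm/X`: the Frobenius element at infinity and the points over a place
-/

namespace Pool.Agent.MP72S.SX

open Polynomial Finset
open Pool.Agent.MP72W Pool.Agent.MP72S.D

private theorem psi_pow {F : Type} [Field F] (g : GQ F) (hg : ∀ c : kF F, g (c : Qf F) =
    ((c ^ Nat.card F : kF F) : Qf F)) (i : ℕ) (c : kF F) :
    (g ^ i) (c : Qf F) = ((c ^ Nat.card F ^ i : kF F) : Qf F) := by
  induction i generalizing c with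
  | zero => simp
  | succ n ih =>
    rw [pow_succ, AlgEquiv.mul_apply, hg, ih, ← pow_mul, ← pow_succ']

/-- **Psi** -/
theorem tPsi : D.S_Rq → D.S_Kk → D.S_Ro → S_Psi := by
  intro hRq hKk hRo F _ _ h2 A hA
  have h1 : ∀ c : kF F, psQ A (c : Qf F) = ((c ^ Nat.card F : kF F) : Qf F) := by
    intro c
    have h := (hRq F h2 _ (A none) (hA.ok none)).2.2.1 (c : Qf F) (((hKk F).2.1 _).1 c.2)
    have hd : dgP (Pl.o (none : Pl F)) = 1 := rfl
    rw [hd, pow_one] at h
    unfold psQ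
    rw [h]
    rfl
  refine ⟨?_, ?_, ?_⟩
  · intro i c
    have h3 := psi_pow (psQ A) h1 i c
    refine ⟨h3, ?_⟩
    rw [← h3, ← AlgEquiv.mul_apply, inv_pow, inv_mul_cancel, AlgEquiv.one_apply]
  · intro c
    have h := (hRo F A hA).2.2 c
    have he : ∃ p : Pl F × ℕ, p.1 ≠ none ∧ p.2 < dgP p.1.o ∧ rtP A p.1 ^ Nat.card F ^ p.2 = c := h.exists
    have hx : plX A (some c) = he.choose := by
      unfold plX
      exact dif_pos he
    rw [hx]
    exact he.choose_spec
  · intro w hw i hi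
    have h := (hRo F A hA).2.2 (rtP A w ^ Nat.card F ^ i)
    have he : ∃ p : Pl F × ℕ, p.1 ≠ none ∧ p.2 < dgP p.1.o ∧
        rtP A p.1 ^ Nat.card F ^ p.2 = rtP A w ^ Nat.card F ^ i := h.exists
    have hx : plX A (some (rtP A w ^ Nat.card F ^ i)) = he.choose := by
      unfold plX
      exact dif_pos he
    rw [hx]
    exact h.unique he.choose_spec ⟨hw, hi, rfl⟩

end Pool.Agent.MP72S.SX
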