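import Pool.Agent.Lib.MP_72e2e6_nt.Sm.X.Spec

set_option autoImplicit false

namespace Pool.Agent.MP72S.SX

open Polynomial Finset

section

variable {k Q G : Type} [Field k] [Field Q] [Algebra k Q] [Group G] [MulSemiringAction G Q]
  {t : Q} {ν : Option k → Q → WithTop ℚ} {rs : Option k → Q → k} {τ : Option k → G}

private theorem rh_cst_nonneg (h : Geo t ν rs τ) (x : Option k) (c : k) :
    0 ≤ ν x (algebraMap k Q c) := by
  by_cases hc : c = 0
  · rw [hc, map_zero, h.v0]
    exact le_top
  · rw [h.cst x c hc]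

private theorem rh_const (h : Geo t ν rs τ) (x : Option k) (c : k)
    (hc : 0 < ν x (algebraMap k Q c)) : c = 0 := by
  by_contra hne
  rw [h.cst x c hne] at hc
  exact lt_irrefl _ hc

private theorem rh_neg (h : Geo t ν rs τ) (x : Option k) (f : Q) : ν x (-f) = ν x f := by
  have h1 : -f = algebraMap k Q (-1) * f := by rw [map_neg, map_one, neg_one_mul]
  rw [h1, h.mul, h.cst x (-1) (neg_ne_zero.2 one_ne_zero), zero_add]

private theorem rh_add_pos (h : Geo t ν rs τ) (x : Option k) {f g : Q} (hf : 0 < ν x f)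
    (hg : 0 < ν x g) : 0 < ν x (f + g) := (lt_min hf hg).trans_le (h.add x f g)

private theorem rh_add_nonneg (h : Geo t ν rs τ) (x : Option k) {f g : Q} (hf : 0 ≤ ν x f)
    (hg : 0 ≤ ν x g) : 0 ≤ ν x (f + g) := (le_min hf hg).trans (h.add x f g)

private theorem rh_uniq (h : Geo t ν rs τ) (x : Option k) {f : Q} {c : k} (hf : 0 ≤ ν x f)
    (hc : 0 < ν x (f - algebraMap k Q c)) : rs x f = c := by
  have h1 := h.res x f hf
  have h2 : 0 < ν x (algebraMap k Q (rs x f - c)) := by
    have h3 : algebraMap k Q (rs x f - c) =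
        (f - algebraMap k Q c) + -(f - algebraMap k Q (rs x f)) := by
      rw [map_sub]; ring
    rw [h3]
    exact rh_add_pos h x hc (by rw [rh_neg h]; exact h1)
  exact sub_eq_zero.1 (rh_const h x _ h2)

end

theorem tRh : S_Rh := by
  intro k Q G _ _ _ _ _ _ t ν rs τ h x
  refine ⟨fun f g hf hg => ⟨?_, ?_⟩, fun c => ?_, fun f hf => ⟨fun h0 => ?_, fun hp => ?_⟩⟩
  · apply rh_uniq h x (rh_add_nonneg h x hf hg)
    have h1 : f + g - algebraMap k Q (rs x f + rs x g) =
        (f - algebraMap k Q (rs x f)) + (g - algebraMap k Q (rs x g)) := by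
      rw [map_add]; ring
    rw [h1]
    exact rh_add_pos h x (h.res x f hf) (h.res x g hg)
  · apply rh_uniq h x
    · rw [h.mul]; exact add_nonneg hf hg
    have h1 : f * g - algebraMap k Q (rs x f * rs x g) =
        (f - algebraMap k Q (rs x f)) * g +
          algebraMap k Q (rs x f) * (g - algebraMap k Q (rs x g)) := by
      rw [map_mul]; ring
    rw [h1]
    refine rh_add_pos h x ?_ ?_
    · rw [h.mul]; exact (h.res x f hf).trans_le (le_add_of_nonneg_right hg)
    · rw [h.mul]; exact (h.res x g hg).trans_le (le_add_of_nonneg_left (rh_cst_nonneg h x _))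
  · apply rh_uniq h x (rh_cst_nonneg h x c)
    rw [sub_self, h.v0]
    exact WithTop.coe_lt_top 0
  · have h1 := h.res x f hf
    rwa [h0, map_zero, sub_zero] at h1
  · apply rh_uniq h x hf
    rwa [map_zero, sub_zero]

end Pool.Agent.MP72S.SX
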