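import Pool.Agent.Lib.MP_72e2e6_nt.Sm.X.Spec

/-!
# MP_72e2e6_nt, `Sm/X/Rmc`: Riemann's inequality for towers
-/

set_option autoImplicit false

namespace Pool.Agent.MP72S.SX

open Polynomial Finset

section

variable {k Q G : Type} [Field k] [Field Q] [Algebra k Q] [Group G] [MulSemiringAction G Q]
  {t : Q} {ν : Option k → Q → WithTop ℚ} {rs : Option k → Q → k} {τ : Option k → G}

private theorem rmc_ne [IsAlgClosed k] (h : Geo t ν rs τ) {p : k[X]} (hp : p ≠ 0) :
    aeval t p ≠ 0 := by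
  classical
  have h1 : p = C p.leadingCoeff * (p.roots.map (fun a => X - C a)).prod :=
    (IsAlgClosed.splits p).eq_prod_roots
  intro h0
  rw [h1, map_mul, aeval_C, map_multiset_prod, Multiset.map_map] at h0
  rcases mul_eq_zero.1 h0 with h2 | h2
  · rw [map_eq_zero] at h2
    exact hp (leadingCoeff_eq_zero.1 h2)
  · rw [Multiset.prod_eq_zero_iff, Multiset.mem_map] at h2
    obtain ⟨c, -, hc⟩ := h2
    have h3 : t - algebraMap k Q c = 0 := by
      rw [← hc]
      simp
    have h4 := h.lin c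
    rw [h3, h.v0] at h4
    exact WithTop.top_ne_coe h4

private theorem rmc_some (h : Geo t ν rs τ) (c : k) (i : ℕ) : 0 ≤ ν (some c) (t ^ i) := by
  have h1 : 0 ≤ ν (some c) t := by
    have h2 := h.add (some c) (t - algebraMap k Q c) (algebraMap k Q c)
    rw [sub_add_cancel] at h2
    refine le_trans (le_min ?_ ?_) h2
    · rw [h.lin]
      exact_mod_cast zero_le_one
    · by_cases hc : c = 0
      · rw [hc, map_zero, h.v0]
        exact le_top
      · rw [h.cst _ c hc]
  induction i with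
  | zero => rw [pow_zero, h.v1]
  | succ i ih =>
    rw [pow_succ, h.mul]
    exact add_nonneg ih h1

private theorem rmc_none (h : Geo t ν rs τ) (i : ℕ) :
    ν none (t ^ i) = ((-(i : ℚ) : ℚ) : WithTop ℚ) := by
  have h1 : ν none t = ((-1 : ℚ) : WithTop ℚ) := by
    have h2 := h.inf 0
    rwa [map_zero, sub_zero] at h2
  induction i with
  | zero =>
    rw [pow_zero, h.v1]
    norm_num
  | succ i ih =>
    rw [pow_succ, h.mul, ih, h1, ← WithTop.coe_add, WithTop.coe_inj]
    push_cast
    ring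

private theorem rmc_mem (h : Geo t ν rs τ) (a i : ℕ) (hi : i ≤ a) : t ^ i ∈ SA h ⊤ a := by
  have h1 : ∀ g : G, g • t ^ i = t ^ i := fun g => by rw [smul_pow', h.tfix]
  rw [SA, mem_LL]
  refine ⟨fun g _ => h1 g, fun x g => ?_⟩
  rw [h1]
  cases x with
  | none =>
    rw [rmc_none h]
    refine WithTop.coe_le_coe.2 ?_
    show -(a : ℚ) ≤ -(i : ℚ)
    have : (i : ℚ) ≤ a := by exact_mod_cast hi
    linarith
  | some c => exact rmc_some h c i

private theorem rmc_base [IsAlgClosed k] (h : Geo t ν rs τ) (a : ℕ)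
    (hf : Module.Finite k (SA h ⊤ a)) : a + 1 ≤ Module.finrank k (SA h ⊤ a) := by
  classical
  let f : degreeLT k (a + 1) →ₗ[k] SA h ⊤ a :=
    LinearMap.codRestrict (SA h ⊤ a) ((aeval t).toLinearMap ∘ₗ (degreeLT k (a + 1)).subtype)
      (by
        rintro ⟨p, hp⟩
        have h1 : p.natDegree < a + 1 := by
          by_cases h0 : p = 0
          · rw [h0, natDegree_zero]
            exact Nat.succ_pos _
          · exact (natDegree_lt_iff_degree_lt h0).2 (mem_degreeLT.1 hp)
        show aeval t p ∈ SA h ⊤ a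
        rw [aeval_eq_sum_range' h1]
        exact Submodule.sum_mem _ fun i hi =>
          Submodule.smul_mem _ _ (rmc_mem h a i (Nat.lt_succ_iff.1 (mem_range.1 hi))))
  have hinj : Function.Injective f := by
    rw [← LinearMap.ker_eq_bot, LinearMap.ker_eq_bot']
    rintro ⟨p, hp⟩ h1
    have h2 : aeval t p = 0 := congrArg Subtype.val h1
    by_contra h3
    refine rmc_ne h ?_ h2
    intro h4
    exact h3 (Subtype.ext h4)
  have h2 := LinearMap.finrank_le_finrank_of_injective hinj
  rwa [(degreeLTEquiv k (a + 1)).finrank_eq, Module.finrank_fin_fun] at h2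

end

private theorem rmc_grp {G : Type} [Group G] (N : Subgroup G) (hN : N.Normal) (e j : ℕ)
    (he : N.index = 2 ^ e) (hj : j + 1 ≤ e) (M : Subgroup G) (hM : N ≤ M)
    (hi : M.index = 2 ^ (j + 1)) :
    ∃ M₂ : Subgroup G, M ≤ M₂ ∧ M₂.index = 2 ^ j ∧ M.relIndex M₂ = 2 := by
  classical
  haveI : Fact (Nat.Prime 2) := ⟨Nat.prime_two⟩
  have hc : Nat.card (G ⧸ N) = 2 ^ e := he
  haveI : Finite (G ⧸ N) := Nat.finite_of_card_ne_zero (by rw [hc]; positivity)
  let φ := QuotientGroup.mk' N
  have hφ : Function.Surjective φ := QuotientGroup.mk'_surjective N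
  have hk : φ.ker ≤ M := by
    rw [QuotientGroup.ker_mk']
    exact hM
  have h1 : (M.map φ).index = 2 ^ (j + 1) := by
    rw [Subgroup.index_map_eq M hφ hk, hi]
  have h2 : Nat.card (M.map φ) = 2 ^ (e - (j + 1)) := by
    have h3 := Subgroup.card_mul_index (M.map φ)
    rw [h1, hc] at h3
    have h4 : 2 ^ e = 2 ^ (e - (j + 1)) * 2 ^ (j + 1) := by
      rw [← pow_add, Nat.sub_add_cancel hj]
    rw [h4] at h3
    exact Nat.eq_of_mul_eq_mul_right (by positivity) h3
  obtain ⟨K, hK, hMK⟩ := Sylow.exists_subgroup_card_pow_succ (p := 2) (n := e - (j + 1))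
    (by
      rw [hc]
      exact pow_dvd_pow 2 (by omega)) h2
  have h5 : K.index = 2 ^ j := by
    have h3 := Subgroup.card_mul_index K
    rw [hK, hc] at h3
    have h4 : 2 ^ e = 2 ^ (e - (j + 1) + 1) * 2 ^ j := by
      rw [← pow_add]
      congr 1
      omega
    rw [h4] at h3
    exact Nat.eq_of_mul_eq_mul_left (by positivity) h3
  have h6 : M ≤ K.comap φ := Subgroup.map_le_iff_le_comap.1 hMK
  have h7 : (K.comap φ).index = 2 ^ j := by
    rw [Subgroup.index_comap_of_surjective K hφ, h5]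
  refine ⟨K.comap φ, h6, h7, ?_⟩
  have h8 := Subgroup.relIndex_mul_index h6
  rw [h7, hi, pow_succ, mul_comm (2 ^ j) 2] at h8
  exact Nat.eq_of_mul_eq_mul_right (by positivity) h8

/-- **Rmc**. -/
theorem tRmc (h1 : S_Upp) (h2 : S_Rst) : S_Rmc := by
  intro k Q G _ _ _ _ _ _ t ν rs τ h N T e hN he hT hy
  classical
  have hunr : ∀ M : Subgroup G, N ≤ M → ∀ x, x ∉ T → Unr τ M x := by
    intro M hM x hx g
    have h3 := hN.conj_mem (τ x) (hT x hx) g⁻¹
    rw [inv_inv] at h3
    exact hM h3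
  have key : ∀ j, j ≤ e → ∀ M : Subgroup G, N ≤ M → M.index = 2 ^ j → Rm h M (4 ^ j * #T) := by
    intro j
    induction j with
    | zero =>
      intro _ M hM hi a
      rw [pow_zero, Subgroup.index_eq_one] at hi
      subst hi
      haveI : (⊤ : Subgroup G).FiniteIndex := ⟨by rw [Subgroup.index_top]; exact one_ne_zero⟩
      have h3 := rmc_base h a (h1 h ⊤ T (hunr ⊤ le_top) a).1
      rw [Subgroup.index_top, one_mul]
      exact h3.trans (Nat.le_add_right _ _)
    | succ j ih =>
      intro hj M hM hi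
      obtain ⟨M₂, h3, h4, h5⟩ := rmc_grp N hN e j he hj M hM hi
      haveI : M₂.FiniteIndex := ⟨by rw [h4]; positivity⟩
      have h6 := h2 h M₂ M T (4 ^ j * #T) h3 h5 (fun s _ hs => hy M hM s hs) (hunr M hM)
        (ih (by omega) M₂ (hM.trans h3) h4)
      intro a
      refine (h6 a).trans ?_
      rw [h4]
      have h7 : (2 : ℕ) ^ j ≤ 4 ^ j := Nat.pow_le_pow_left (by norm_num) j
      have h8 : 2 ^ j * #T ≤ 4 ^ j * #T := Nat.mul_le_mul_right _ h7
      have h9 : 4 ^ (j + 1) * #T = 4 * (4 ^ j * #T) := by ring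
      rw [h9]
      omega
  exact key e le_rfl N le_rfl he

end Pool.Agent.MP72S.SX
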