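import Pool.Agent.Lib.MP_72e2e6_nt.Sm.X.Spec

/-!
# MP_72e2e6_nt, `Sm/X`: Riemann's inequality for a quadratic extension
-/

namespace Pool.Agent.MP72S.SX

open Polynomial Finset

section

variable {k Q G : Type} [Field k] [Field Q] [Algebra k Q] [Group G] [MulSemiringAction G Q]
  {t : Q} {ν : Option k → Q → WithTop ℚ} {rs : Option k → Q → k} {τ : Option k → G}

private theorem rst_half {y : WithTop ℚ} {q : ℚ} (hy : y + y = (q : WithTop ℚ)) :
    y = ((q / 2 : ℚ) : WithTop ℚ) := by
  induction y using WithTop.recTopCoe with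
  | top => simp at hy
  | coe r =>
    have h : ((r + r : ℚ) : WithTop ℚ) = (q : WithTop ℚ) := by rw [← hy]; rfl
    have h2 : r + r = q := WithTop.coe_injective h
    rw [← h2]
    congr 1
    ring

private theorem rst_pow (h : Geo t ν rs τ) (x : Option k) (f : Q) (q : ℚ)
    (hf : ν x f = (q : WithTop ℚ)) (m : ℕ) : ν x (f ^ m) = ((m * q : ℚ) : WithTop ℚ) := by
  induction m with
  | zero => simp [h.v1]
  | succ m ih =>
    rw [pow_succ, h.mul, ih, hf, ← WithTop.coe_add]
    congr 1
    push_cast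
    ring

private theorem rst_prod (h : Geo t ν rs τ) (x : Option k) (s : Finset k) (f : k → Q) (q : k → ℚ)
    (hf : ∀ i ∈ s, ν x (f i) = (q i : WithTop ℚ)) :
    ν x (∏ i ∈ s, f i) = ((∑ i ∈ s, q i : ℚ) : WithTop ℚ) := by
  classical
  induction s using Finset.induction_on with
  | empty => simp [h.v1]
  | insert i s hi ih =>
    rw [prod_insert hi, sum_insert hi, h.mul, hf i (mem_insert_self i s),
      ih (fun j hj => hf j (mem_insert_of_mem hj)), ← WithTop.coe_add]

/-- the function `∏ (t - x) ^ m x` -/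
private noncomputable def yy (t : Q) (s : Finset k) (m : k → ℕ) : Q :=
  ∏ i ∈ s, (t - algebraMap k Q i) ^ m i

private theorem yy_some (h : Geo t ν rs τ) (s : Finset k) (m : k → ℕ) (hm : ∀ i, i ∉ s → m i = 0)
    (x : k) : ν (some x) (yy t s m) = ((m x : ℚ) : WithTop ℚ) := by
  classical
  unfold yy
  rw [rst_prod h (some x) s _ (fun i => if i = x then (m i : ℚ) else 0)]
  · congr 1
    rw [Finset.sum_ite_eq' s x (fun i => (m i : ℚ))]
    split_ifs with hx
    · rfl
    · rw [hm x hx]; simp
  · intro i _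
    by_cases hix : i = x
    · subst hix
      rw [rst_pow h (some i) _ 1 (h.lin i)]
      simp
    · rw [rst_pow h (some x) _ 0 (by rw [h.lin' x i (fun h' => hix h'.symm)]; rfl)]
      simp [hix]

private theorem yy_none (h : Geo t ν rs τ) (s : Finset k) (m : k → ℕ) :
    ν none (yy t s m) = ((-(∑ i ∈ s, (m i : ℚ)) : ℚ) : WithTop ℚ) := by
  unfold yy
  rw [rst_prod h none s _ (fun i => -(m i : ℚ))]
  · rw [Finset.sum_neg_distrib]
  · intro i _
    rw [rst_pow h none _ (-1) (h.inf i)]
    congr 1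
    ring

private theorem yy_fix (h : Geo t ν rs τ) (s : Finset k) (m : k → ℕ) (g : G) :
    g • yy t s m = yy t s m := by
  unfold yy
  rw [Finset.smul_prod']
  refine Finset.prod_congr rfl fun i _ => ?_
  rw [smul_pow', smul_sub, h.tfix, h.kfix]

private theorem rst_ne (h : Geo t ν rs τ) {x : Option k} {f : Q} {q : ℚ}
    (hf : ν x f = (q : WithTop ℚ)) : f ≠ 0 := by
  intro h0
  rw [h0, h.v0] at hf
  exact WithTop.top_ne_coe hf

private theorem rst_le {q r : ℚ} {y : WithTop ℚ} (h : (r : WithTop ℚ) ≤ y) :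
    ((q + r : ℚ) : WithTop ℚ) ≤ (q : WithTop ℚ) + y := by
  rw [WithTop.coe_add]
  exact add_le_add le_rfl h

private theorem rst_ra_some (N : Subgroup G) (a : ℕ) (x : k) (c : G ⧸ N) :
    ra N a (some x) c = 0 := rfl

private theorem rst_ra_none (N : Subgroup G) (a : ℕ) (c : G ⧸ N) :
    ra (k := k) N a none c = -(a : ℚ) := rfl

/-- the lower bound for the second eigenspace -/
private theorem rst_low [IsAlgClosed k] (hJm : S_JmX) (h : Geo t ν rs τ) (N : Subgroup G)
    [Fintype (G ⧸ N)] (T : Finset (Option k)) (γ a : ℕ) (X₁ : Finset (Option k))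
    (d : Option k → G ⧸ N → ℚ) (hInv : Inv τ d) (hd0 : ∀ x, x ∉ X₁ → ∀ c, d x c = 0)
    (hsum : ∑ x ∈ X₁, ∑ c, d x c = 0)
    (hint : ∀ x, x ∉ T → Unr τ N x ∧ ∀ c, ∃ m : ℤ, d x c = m) (hRm : Rm h N γ)
    (hfin : Module.Finite k (LL h N (fun x c => ra N a x c - d x c))) :
    N.index * a + 1 ≤ Module.finrank k (LL h N (fun x c => ra N a x c - d x c)) + γ +
      N.index * #T := by
  classical
  set s : Finset k := Finset.eraseNone X₁ with hs
  set m : k → ℕ := fun x => ∑ c : G ⧸ N, ⌈d (some x) c⌉₊ with hm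
  have hm0 : ∀ i, i ∉ s → m i = 0 := by
    intro i hi
    have hi' : some i ∉ X₁ := by rwa [hs, Finset.mem_eraseNone] at hi
    simp only [hm]
    refine Finset.sum_eq_zero fun c _ => ?_
    rw [hd0 _ hi']
    simp
  have hmd : ∀ x c, d (some x) c ≤ m x := by
    intro x c
    have h1 : ⌈d (some x) c⌉₊ ≤ m x :=
      Finset.single_le_sum (f := fun c : G ⧸ N => ⌈d (some x) c⌉₊) (fun _ _ => Nat.zero_le _)
        (mem_univ c)
    exact (Nat.le_ceil _).trans (by exact_mod_cast h1)
  set M : ℕ := ∑ i ∈ s, m i with hM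
  set D : ℕ := ∑ c : G ⧸ N, ⌈d none c⌉₊ with hD
  have hDd : ∀ c, d none c ≤ D := by
    intro c
    have h1 : ⌈d none c⌉₊ ≤ D :=
      Finset.single_le_sum (f := fun c : G ⧸ N => ⌈d none c⌉₊) (fun _ _ => Nat.zero_le _)
        (mem_univ c)
    exact (Nat.le_ceil _).trans (by exact_mod_cast h1)
  set A : ℕ := M + a + D with hA
  set r₀ : Option k → G ⧸ N → ℚ := fun x _ => match x with
    | none => -(A : ℚ) + M
    | some x => -(m x : ℚ) with hr₀
  set r₁ : Option k → G ⧸ N → ℚ := fun x c => ra N a x c - d x c with hr₁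
  -- the jump estimate
  have hJ := hJm h N r₀ r₁ (insert none X₁) T (by
      intro x c
      cases x <;> rfl) (by
      intro x c
      simp only [hr₁]
      rw [hInv x c]
      cases x <;> rfl) (by
      intro x hx c
      rw [mem_insert, not_or] at hx
      cases x with
      | none => exact absurd rfl hx.1
      | some x =>
        simp only [hr₁, hr₀]
        rw [hd0 _ hx.2, rst_ra_some, hm0 x (by rw [hs, Finset.mem_eraseNone]; exact hx.2)]
        simp) (by
      intro x c
      cases x with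
      | none =>
        simp only [hr₁, hr₀, rst_ra_none]
        have h1 := hDd c
        have h2 : (A : ℚ) = M + a + D := by rw [hA]; push_cast; ring
        rw [h2]
        linarith
      | some x =>
        simp only [hr₁, hr₀, rst_ra_some]
        have h1 := hmd x c
        linarith) (by
      intro x hx
      obtain ⟨h1, h2⟩ := hint x hx
      refine ⟨h1, fun c => ?_⟩
      obtain ⟨z, hz⟩ := h2 c
      cases x with
      | none =>
        refine ⟨⟨-(A : ℤ) + M, by simp only [hr₀]; push_cast; ring⟩, ⟨-(a : ℤ) - z, ?_⟩⟩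
        simp only [hr₁, rst_ra_none]
        rw [hz]; push_cast; ring
      | some x =>
        refine ⟨⟨-(m x : ℤ), by simp only [hr₀]; push_cast; ring⟩, ⟨-z, ?_⟩⟩
        simp only [hr₁, rst_ra_some]
        rw [hz]; push_cast; ring) hfin
  obtain ⟨hfin0, hJ1⟩ := hJ
  -- the space `LL r₀`
  set y : Q := yy t s m with hy
  have hyn : ν none y = ((-(M : ℚ) : ℚ) : WithTop ℚ) := by
    rw [hy, yy_none h s m]
    congr 1
    rw [hM]; push_cast; rfl
  have hys : ∀ x, ν (some x) y = ((m x : ℚ) : WithTop ℚ) := fun x => yy_some h s m hm0 x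
  have hy0 : y ≠ 0 := rst_ne h hyn
  have hyfix : ∀ g : G, g • y = y := fun g => yy_fix h s m g
  have hyi : ∀ g : G, g • y⁻¹ = y⁻¹ := by
    intro g
    rw [smul_inv'', hyfix]
  have hyin : ν none y⁻¹ = ((M : ℚ) : WithTop ℚ) := by
    have h1 : ν none y + ν none y⁻¹ = 0 := by rw [← h.mul, mul_inv_cancel₀ hy0, h.v1]
    rw [hyn] at h1
    generalize ν none y⁻¹ = w at h1
    induction w using WithTop.recTopCoe with
    | top => simp at h1
    | coe r =>
      have h2 : ((-(M : ℚ) + r : ℚ) : WithTop ℚ) = ((0 : ℚ) : WithTop ℚ) := by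
        rw [WithTop.coe_add, h1]; rfl
      have h3 : -(M : ℚ) + r = 0 := WithTop.coe_injective h2
      congr 1
      linarith
  have hyis : ∀ x, ν (some x) y⁻¹ = ((-(m x : ℚ) : ℚ) : WithTop ℚ) := by
    intro x
    have h1 : ν (some x) y + ν (some x) y⁻¹ = 0 := by rw [← h.mul, mul_inv_cancel₀ hy0, h.v1]
    rw [hys] at h1
    generalize ν (some x) y⁻¹ = w at h1
    induction w using WithTop.recTopCoe with
    | top => simp at h1
    | coe r =>
      have h2 : (((m x : ℚ) + r : ℚ) : WithTop ℚ) = ((0 : ℚ) : WithTop ℚ) := by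
        rw [WithTop.coe_add, h1]; rfl
      have h3 : (m x : ℚ) + r = 0 := WithTop.coe_injective h2
      congr 1
      linarith
  have hmem : ∀ v ∈ SA h N A, y⁻¹ * v ∈ LL h N r₀ := by
    intro v hv
    unfold SA at hv
    rw [mem_LL] at hv ⊢
    refine ⟨fun g hg => by rw [smul_mul', hyi, hv.1 g hg], fun x g => ?_⟩
    rw [smul_mul', hyi, h.mul]
    have h1 := hv.2 x g
    cases x with
    | none =>
      rw [hyin]
      rw [rst_ra_none] at h1
      have h2 := rst_le (q := (M : ℚ)) h1
      refine le_trans (le_of_eq ?_) h2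
      congr 1
      simp only [hr₀]
      ring
    | some x =>
      rw [hyis]
      rw [rst_ra_some] at h1
      have h2 := rst_le (q := -(m x : ℚ)) h1
      refine le_trans (le_of_eq ?_) h2
      congr 1
      simp only [hr₀]
      ring
  let ψ : SA h N A →ₗ[k] LL h N r₀ :=
    { toFun := fun v => ⟨y⁻¹ * v.1, hmem v.1 v.2⟩
      map_add' := fun u v => by
        apply Subtype.ext
        show y⁻¹ * (u.1 + v.1) = y⁻¹ * u.1 + y⁻¹ * v.1
        ring
      map_smul' := fun c v => by
        apply Subtype.ext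
        show y⁻¹ * (c • v.1) = c • (y⁻¹ * v.1)
        rw [mul_smul_comm] }
  have hψ : Function.Injective ψ := by
    intro u v huv
    have h1 : y⁻¹ * u.1 = y⁻¹ * v.1 := congrArg Subtype.val huv
    exact Subtype.ext (mul_left_cancel₀ (inv_ne_zero hy0) h1)
  have hle : Module.finrank k (SA h N A) ≤ Module.finrank k (LL h N r₀) :=
    LinearMap.finrank_le_finrank_of_injective hψ
  have hR := hRm A
  -- the sum
  have hcard : (Fintype.card (G ⧸ N)) = N.index := by
    rw [Subgroup.index, Nat.card_eq_fintype_card]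
  have hsumd : ∑ x ∈ insert none X₁, ∑ c, d x c = 0 := by
    by_cases hn : none ∈ X₁
    · rw [insert_eq_of_mem hn, hsum]
    · rw [sum_insert hn, hsum, Finset.sum_eq_zero (fun c _ => hd0 none hn c), add_zero]
  have hsplit : ∑ x ∈ insert none X₁, ∑ c : G ⧸ N, (r₁ x c - r₀ x c) = N.index * ((A : ℚ) - a) := by
    have e1 : ∀ x, ∑ c : G ⧸ N, (r₁ x c - r₀ x c) =
        N.index * (match x with | none => (A : ℚ) - a - M | some x => (m x : ℚ)) -
          ∑ c, d x c := by
      intro x
      rw [← hcard]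
      have e2 : ∀ c : G ⧸ N, r₁ x c - r₀ x c =
          (match x with | none => (A : ℚ) - a - M | some x => (m x : ℚ)) - d x c := by
        intro c
        cases x with
        | none => simp only [hr₁, hr₀, rst_ra_none]; ring
        | some x => simp only [hr₁, hr₀, rst_ra_some]; ring
      rw [Finset.sum_congr rfl fun c _ => e2 c, Finset.sum_sub_distrib, Finset.sum_const,
        card_univ, nsmul_eq_mul]
    rw [Finset.sum_congr rfl fun x _ => e1 x, Finset.sum_sub_distrib, hsumd, sub_zero,
      ← Finset.mul_sum]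
    congr 1
    have e3 : insert none X₁ = insertNone s := by
      ext x
      cases x with
      | none => simp
      | some x => simp [hs]
    rw [e3, Finset.sum_insertNone]
    simp only [hM]
    push_cast
    ring
  rw [hsplit, hcard] at hJ1
  have hq1 : (N.index : ℚ) * A + 1 ≤ Module.finrank k (SA h N A) + γ := by exact_mod_cast hR
  have hq2 : (Module.finrank k (SA h N A) : ℚ) ≤ Module.finrank k (LL h N r₀) := by
    exact_mod_cast hle
  have hq3 : ((N.index * a + 1 : ℕ) : ℚ) ≤
      ((Module.finrank k (LL h N r₁) + γ + N.index * #T : ℕ) : ℚ) := by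
    push_cast
    nlinarith
  exact_mod_cast hq3

end

/-- **Rst** -/
theorem tRst : S_Pf → S_JmX → S_Upp → S_Bet → S_Rst := by
  intro hPf hJm hUpp hBet k Q G _ _ _ _ _ _ t ν rs τ h N N' _ T γ hN' hidx hy hT hRm a
  classical
  letI : Fintype (G ⧸ N) := Fintype.ofFinite _
  obtain ⟨β, hβ0, hβN', hβs⟩ := hBet (Q := Q) N N' hN' hidx hy
  have hind : N'.index = 2 * N.index := by
    rw [← hidx]
    exact (Subgroup.relIndex_mul_index hN').symm
  haveI hfi : N'.FiniteIndex := by
    refine ⟨?_⟩
    rw [hind]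
    have := Subgroup.FiniteIndex.index_ne_zero (H := N)
    omega
  obtain ⟨hfA, -⟩ := hUpp h N' T hT a
  -- `b = β ^ 2`
  have hb : ∀ g ∈ N, g • (β ^ 2) = β ^ 2 := by
    intro g hg
    rw [smul_pow']
    by_cases hg' : g ∈ N'
    · rw [hβN' g hg']
    · rw [hβs g hg hg']; ring
  obtain ⟨X₁, d', hInv, hd', hX₁, hsum⟩ := hPf h N (β ^ 2) hb (pow_ne_zero 2 hβ0)
  set d : Option k → G ⧸ N → ℚ := fun x c => d' x c / 2 with hd
  have hνβ : ∀ x (g : G), ν x (g • β) = ((d x g : ℚ) : WithTop ℚ) := by
    intro x g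
    have h1 := hd' x g
    rw [smul_pow', pow_two, h.mul] at h1
    exact rst_half h1
  have hdInv : Inv τ d := by
    intro x c
    simp only [hd]
    rw [hInv x c]
  have hd0 : ∀ x, x ∉ X₁ → ∀ c, d x c = 0 := by
    intro x hx c
    simp only [hd]
    rw [hX₁ x hx c]; simp
  have hds : ∑ x ∈ X₁, ∑ c, d x c = 0 := by
    simp only [hd]
    simp_rw [← Finset.sum_div]
    rw [hsum]; simp
  have hint : ∀ x, x ∉ T → Unr τ N x ∧ ∀ c, ∃ m : ℤ, d x c = m := by
    intro x hx
    have h1 := hT x hx
    refine ⟨fun g => hN' (h1 g), fun c => ?_⟩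
    induction c using QuotientGroup.induction_on with
    | H g =>
      have h2 : τ x • (g • β) = g • β := by
        have h3 : τ x • (g • β) = g • ((g⁻¹ * τ x * g) • β) := by
          rw [← mul_smul, ← mul_smul]
          congr 1
          group
        rw [h3, hβN' _ (h1 g)]
      have hne : g • β ≠ 0 := rst_ne h (hνβ x g)
      obtain ⟨m, hm⟩ := h.int x (g • β) h2 hne
      rw [hνβ] at hm
      exact ⟨m, WithTop.coe_injective hm⟩
  -- the two eigenspaces
  have hmem1 : ∀ u ∈ SA h N a, u ∈ SA h N' a := by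
    intro u hu
    unfold SA at hu ⊢
    rw [mem_LL] at hu ⊢
    refine ⟨fun g hg => hu.1 g (hN' hg), fun x g => ?_⟩
    have h1 := hu.2 x g
    cases x <;> exact h1
  have hmem2 : ∀ v ∈ LL h N (fun x c => ra N a x c - d x c), β * v ∈ SA h N' a := by
    intro v hv
    unfold SA
    rw [mem_LL] at hv ⊢
    refine ⟨fun g hg => by rw [smul_mul', hβN' g hg, hv.1 g (hN' hg)], fun x g => ?_⟩
    rw [smul_mul', h.mul, hνβ]
    have h1 := rst_le (q := d x g) (hv.2 x g)
    refine le_trans (le_of_eq ?_) h1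
    congr 1
    cases x with
    | none => rw [rst_ra_none, rst_ra_none]; ring
    | some x => rw [rst_ra_some, rst_ra_some]; ring
  obtain ⟨s, hsN, hsN'⟩ : ∃ s ∈ N, s ∉ N' := by
    by_contra hcon
    push Not at hcon
    have h1 : N'.relIndex N = 1 := Subgroup.relIndex_eq_one.2 hcon
    omega
  have h2Q : (2 : Q) ≠ 0 := by
    have h1 := (map_ne_zero (algebraMap k Q)).2 h.two
    rwa [map_ofNat] at h1
  have hsβ := hβs s hsN hsN'
  let φ : (SA h N a × LL h N (fun x c => ra N a x c - d x c)) →ₗ[k] SA h N' a :=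
    { toFun := fun p => ⟨p.1.1 + β * p.2.1, (SA h N' a).add_mem (hmem1 _ p.1.2) (hmem2 _ p.2.2)⟩
      map_add' := fun p q => by
        apply Subtype.ext
        show (p.1.1 + q.1.1) + β * (p.2.1 + q.2.1) = (p.1.1 + β * p.2.1) + (q.1.1 + β * q.2.1)
        ring
      map_smul' := fun c p => by
        apply Subtype.ext
        show c • p.1.1 + β * (c • p.2.1) = c • (p.1.1 + β * p.2.1)
        rw [mul_smul_comm, smul_add] }
  have hφ : Function.Injective φ := by
    rw [injective_iff_map_eq_zero]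
    intro p hp
    have h1 : p.1.1 + β * p.2.1 = 0 := congrArg Subtype.val hp
    have hp1 := ((mem_LL h N _ _).1 p.1.2).1 s hsN
    have hp2 := ((mem_LL h N _ _).1 p.2.2).1 s hsN
    have h2 : p.1.1 - β * p.2.1 = 0 := by
      have h3 := congrArg (fun z => s • z) h1
      simp only [smul_add, smul_mul', smul_zero, hp1, hp2, hsβ] at h3
      rw [← h3]; ring
    have h4 : (2 : Q) * p.1.1 = 0 := by linear_combination h1 + h2
    have h5 : p.1.1 = 0 := (mul_eq_zero.1 h4).resolve_left h2Q
    have h6 : β * p.2.1 = 0 := by rw [h5, zero_add] at h1; exact h1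
    have h7 : p.2.1 = 0 := (mul_eq_zero.1 h6).resolve_left hβ0
    exact Prod.ext (Subtype.ext h5) (Subtype.ext h7)
  haveI := hfA
  haveI hfp : Module.Finite k (SA h N a × LL h N (fun x c => ra N a x c - d x c)) :=
    Module.Finite.of_injective φ hφ
  haveI hf1 : Module.Finite k (SA h N a) :=
    Module.Finite.of_injective (φ.comp (LinearMap.inl k _ _))
      (hφ.comp LinearMap.inl_injective)
  haveI hf2 : Module.Finite k (LL h N (fun x c => ra N a x c - d x c)) :=
    Module.Finite.of_injective (φ.comp (LinearMap.inr k _ _))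
      (hφ.comp LinearMap.inr_injective)
  have hle := LinearMap.finrank_le_finrank_of_injective hφ
  rw [Module.finrank_prod] at hle
  have hlow := rst_low hJm h N T γ a X₁ d hdInv hd0 hds hint hRm hf2
  have hR := hRm a
  rw [hind]
  have e1 : 2 * N.index * a = N.index * a + N.index * a := by ring
  rw [e1]
  omega

end Pool.Agent.MP72S.SX
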