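import Pool.Agent.Lib.MP_72e2e6_nt.Sm.X.Spec

/-!
# MP_72e2e6_nt, `Sm/X`, module `SplF`: the two forms of the target
-/

namespace Pool.Agent.MP72S.SX

open Polynomial Finset Pool.Agent.MP72W Pool.Agent.MP72S.D Pool.Agent.MP72S.SF

private theorem splF_num (C₀ C X : ℕ) (h0 : C₀ ≤ C) (h7 : 7 ≤ C) (hX : 1 ≤ X) :
    C₀ * X ^ 6 ≤ (C * X) ^ C := by
  have hC : 1 ≤ C * X := Nat.one_le_iff_ne_zero.2 (Nat.mul_ne_zero (by omega) (by omega))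
  calc C₀ * X ^ 6 ≤ (C * X) * (C * X) ^ 6 :=
        Nat.mul_le_mul (h0.trans (Nat.le_mul_of_pos_right _ hX))
          (Nat.pow_le_pow_left (Nat.le_mul_of_pos_left _ (by omega)) 6)
    _ = (C * X) ^ 7 := by ring
    _ ≤ (C * X) ^ C := Nat.pow_le_pow_right hC h7

private theorem splF_ind {F : Type} [Field F] [Finite F] (h : D.S_Kt) (H : Subgroup (GQ F))
    (hH : H.Normal) (ho : IsOpen (H : Set (GQ F))) :
    H.index ≠ 0 ∧ H.relIndex (Gb F) ≤ H.index := by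
  obtain ⟨-, -, h3, h4⟩ := h F
  have hfin : Finite (GQ F ⧸ H) := H.quotient_finite_of_isOpen ho
  have h5 : H.index ≠ 0 := by
    have : H.FiniteIndex := Subgroup.finiteIndex_of_finite_quotient
    exact this.index_ne_zero
  exact ⟨h5, Nat.le_of_dvd (Nat.pos_of_ne_zero h5) (Subgroup.relIndex_dvd_index_of_normal H (Gb F))⟩

theorem tSplF : S_SplU → D.S_Kt → SF.S_SplF := by
  intro hU hK
  refine ⟨?_, ?_⟩
  · intro F _ _ h2 A hA g₀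
    obtain ⟨C₀, hC⟩ := hU F h2 A hA
    refine ⟨C₀ + g₀ + 7, fun H hH ho hg T hT n hn => hC H hH ho T hT n (le_trans ?_ hn)⟩
    obtain ⟨h5, h6⟩ := splF_ind hK H hH ho
    have h7 : H.relIndex (Gb F) ≤ C₀ + g₀ + 7 := by omega
    calc C₀ * (H.relIndex (Gb F) * (1 + ∑ w ∈ T, dgP w.o)) ^ 6
        ≤ (C₀ + g₀ + 7) * ((C₀ + g₀ + 7) * (1 + ∑ w ∈ T, dgP w.o)) ^ 6 :=
          Nat.mul_le_mul (by omega) (Nat.pow_le_pow_left (Nat.mul_le_mul_right _ h7) 6)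
      _ = (C₀ + g₀ + 7) ^ 7 * (1 + ∑ w ∈ T, dgP w.o) ^ 6 := by ring
      _ ≤ (C₀ + g₀ + 7) ^ 7 * (1 + ∑ w ∈ T, dgP w.o) ^ 7 :=
          Nat.mul_le_mul_left _ (Nat.pow_le_pow_right (by omega) (by omega))
      _ = ((C₀ + g₀ + 7) * (1 + ∑ w ∈ T, dgP w.o)) ^ 7 := by ring
      _ ≤ ((C₀ + g₀ + 7) * (1 + ∑ w ∈ T, dgP w.o)) ^ (C₀ + g₀ + 7) :=
          Nat.pow_le_pow_right (Nat.one_le_iff_ne_zero.2 (Nat.mul_ne_zero (by omega) (by omega)))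
            (by omega)
  · intro F _ _ h2 A hA
    obtain ⟨C₀, hC⟩ := hU F h2 A hA
    refine ⟨C₀ + 7, fun H hH ho T hT n hn => hC H hH ho T hT n (le_trans ?_ hn)⟩
    obtain ⟨h5, h6⟩ := splF_ind hK H hH ho
    calc C₀ * (H.relIndex (Gb F) * (1 + ∑ w ∈ T, dgP w.o)) ^ 6
        ≤ C₀ * (H.index * (1 + ∑ w ∈ T, dgP w.o)) ^ 6 :=
          Nat.mul_le_mul_left _ (Nat.pow_le_pow_left (Nat.mul_le_mul_right _ h6) 6)
      _ ≤ _ := splF_num _ _ _ (by omega) (by omega)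
          (Nat.one_le_iff_ne_zero.2 (Nat.mul_ne_zero h5 (by omega)))

end Pool.Agent.MP72S.SX
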