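import Pool.Agent.Lib.MP_72e2e6_nt.Sm.X.Spec

/-!
# MP_72e2e6_nt, `Sm/X`, module `SplU`: effective upper bound for the places which split
-/

namespace Pool.Agent.MP72S.SX

open Polynomial Finset Pool.Agent.MP72W Pool.Agent.MP72S.D Pool.Agent.MP72S.SF

/-- The arithmetic of the hypothesis of Stepanov's theorem. -/
private theorem splU_num (p g D γ C : ℕ) (hg : 1 ≤ g) (hD : 1 ≤ D) (hγ : γ ≤ g ^ 2 * D)
    (hC : 2304 * p ≤ C) :
    64 * p * (g + γ + 1) * (g * (10 * γ + 1) + 1) ≤ C * (g * D) ^ 6 := by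
  have hg2 : g ≤ g ^ 2 * D := by
    calc g = g ^ 1 * 1 := by ring
      _ ≤ g ^ 2 * D := Nat.mul_le_mul (Nat.pow_le_pow_right hg (by omega)) hD
  have h1 : 1 ≤ g ^ 2 * D := hg.trans hg2
  have h2 : g + γ + 1 ≤ 3 * (g ^ 2 * D) := by omega
  have h3 : g * (10 * γ + 1) + 1 ≤ 12 * (g ^ 3 * D) := by
    have h4 : g * (10 * γ + 1) ≤ g * (11 * (g ^ 2 * D)) := Nat.mul_le_mul_left _ (by omega)
    have h5 : g * (11 * (g ^ 2 * D)) = 11 * (g ^ 3 * D) := by ring
    have h6 : 1 ≤ g ^ 3 * D := Nat.one_le_iff_ne_zero.2 (Nat.mul_ne_zero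
      (pow_ne_zero _ (by omega)) (by omega))
    omega
  calc 64 * p * (g + γ + 1) * (g * (10 * γ + 1) + 1)
      ≤ 64 * p * (3 * (g ^ 2 * D)) * (12 * (g ^ 3 * D)) :=
        Nat.mul_le_mul (Nat.mul_le_mul_left _ h2) h3
    _ = 2304 * p * (g ^ 5 * D ^ 2) := by ring
    _ ≤ C * (g ^ 6 * D ^ 6) := Nat.mul_le_mul hC (Nat.mul_le_mul
        (Nat.pow_le_pow_right hg (by omega)) (Nat.pow_le_pow_right hD (by omega)))
    _ = C * (g * D) ^ 6 := by ring

/-- The final computation. -/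
private theorem splU_fin (n g a b i Q D : ℕ) (hn : 1 ≤ n) (h1 : 4 * (a * n * g) ≤ 5 * Q)
    (h2 : n * b ≤ D) (h3 : 8 * (g * D) ≤ Q) (h4 : 3 * Q ≤ 4 * (n * i)) :
    (a + b) * g ≤ 2 * i := by
  have h5 : 8 * (n * b * g) ≤ Q := by
    calc 8 * (n * b * g) ≤ 8 * (D * g) := Nat.mul_le_mul_left _ (Nat.mul_le_mul_right _ h2)
      _ = 8 * (g * D) := by ring
      _ ≤ Q := h3
  have h6 : 8 * n * ((a + b) * g) = 8 * (a * n * g) + 8 * (n * b * g) := by ring
  have h7 : 8 * n * ((a + b) * g) ≤ 8 * n * (2 * i) := by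
    rw [h6]
    have h8 : 8 * n * (2 * i) = 16 * (n * i) := by ring
    rw [h8]
    omega
  exact Nat.le_of_mul_le_mul_left h7 (by omega)

/-- The finite set of the points over `T` and infinity. -/
private noncomputable def splT {F : Type} [Field F] (A : Pl F → Lcd F) (T : Finset (Pl F)) :
    Finset (Option (kF F)) :=
  open Classical in
  insert none ((T.filter (fun w : Pl F => w ≠ none)).biUnion fun w : Pl F =>
    (range (dgP (Pl.o w))).image fun i => some (rtP A w ^ Nat.card F ^ i))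

private theorem splT_mem {F : Type} [Field F] (A : Pl F → Lcd F) (T : Finset (Pl F))
    (x : kF F) : some x ∈ splT A T ↔ ∃ w ∈ T, w ≠ none ∧ ∃ i, i < dgP w.o ∧
      rtP A w ^ Nat.card F ^ i = x := by
  classical
  simp only [splT, Finset.mem_insert, Finset.mem_biUnion, Finset.mem_filter, Finset.mem_image,
    Finset.mem_range, reduceCtorEq, false_or, Option.some.injEq, ne_eq]
  constructor
  · rintro ⟨w, ⟨h1, h2⟩, i, h3, h4⟩
    exact ⟨w, h1, h2, i, h3, h4⟩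
  · rintro ⟨w, h1, h2, i, h3, h4⟩
    exact ⟨w, ⟨h1, h2⟩, i, h3, h4⟩

private theorem splT_none {F : Type} [Field F] (A : Pl F → Lcd F) (T : Finset (Pl F)) :
    none ∈ splT A T := by
  classical
  simp [splT]

private theorem splT_card {F : Type} [Field F] (A : Pl F → Lcd F) (T : Finset (Pl F)) :
    #(splT A T) ≤ 1 + ∑ w ∈ T, dgP w.o := by
  classical
  refine (Finset.card_insert_le _ _).trans ?_
  rw [add_comm]
  refine Nat.add_le_add_left ?_ 1
  refine Finset.card_biUnion_le.trans ?_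
  refine (Finset.sum_le_sum (g := fun w : Pl F => dgP w.o) fun w _ =>
    Finset.card_image_le.trans (by rw [Finset.card_range])).trans ?_
  exact Finset.sum_le_sum_of_subset (Finset.filter_subset _ _)

theorem tSplU : S_Rmc → S_Ste → S_Psi → S_GeQ → S_H0 → S_Spn → S_Frp → S_Gal → SF.S_Irc →
    D.S_Kk → S_SplU := by
  intro hRmc hSte hPsi hGeQ hH0 hSpn hFrp hGal hIrc hKk F _ _ h2 A hA
  classical
  obtain ⟨p, hpF⟩ := CharP.exists F
  have hkp : CharP (kF F) p := charP_of_injective_algebraMap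
    (algebraMap F (kF F)).injective p
  have : Fintype F := Fintype.ofFinite F
  obtain ⟨r0, hp, hr0⟩ := FiniteField.card F p
  have : Fact p.Prime := ⟨hp⟩
  obtain ⟨r, hr, hq⟩ : ∃ r : ℕ, 1 ≤ r ∧ Nat.card F = p ^ r :=
    ⟨r0, r0.2, by rw [Nat.card_eq_fintype_card, hr0]⟩
  have hk : IsAlgClosed (kF F) := (hKk F).1
  obtain ⟨-, hP2, hP3⟩ := hPsi F h2 A hA
  obtain ⟨hG, hG2⟩ := hGeQ F h2 A hA
  obtain ⟨hIf, n₀, hI⟩ := hIrc F A hA
  have hq1 : 1 < Nat.card F := Finite.one_lt_card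
  refine ⟨2304 * p + Nat.card F ^ n₀ + 8, ?_⟩
  intro H hH ho T hT n hn
  obtain ⟨⟨e, he⟩, hM⟩ := hGal F H hH ho
  have hNn : (H.subgroupOf (Gb F)).Normal := Subgroup.normal_subgroupOf
  have hNf : (H.subgroupOf (Gb F)).FiniteIndex := ⟨by rw [he]; positivity⟩
  obtain ⟨g, hg⟩ : ∃ g : ℕ, g = H.relIndex (Gb F) := ⟨_, rfl⟩
  have hgN : (H.subgroupOf (Gb F)).index = g := hg.symm
  have hg1 : 1 ≤ g := by rw [← hgN, he]; exact Nat.one_le_two_pow
  obtain ⟨DD, hDD⟩ : ∃ DD : ℕ, DD = 1 + ∑ w ∈ T, dgP w.o := ⟨_, rfl⟩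
  rw [← hg, ← hDD] at hn
  have hD1 : 1 ≤ DD := by omega
  -- the set of the bad points
  have hTau : ∀ x, x ∉ splT A T → tauX A x ∈ H.subgroupOf (Gb F) := by
    intro x hx
    rw [Subgroup.mem_subgroupOf, hG2 H hH]
    cases x with
    | none => exact absurd (splT_none A T) hx
    | some x =>
      obtain ⟨h3, h4, h5⟩ := hP2 x
      exact hT _ fun h6 => hx ((splT_mem A T x).2 ⟨_, h6, h3, _, h4, h5⟩)
  have hUnr : ∀ x, x ∉ splT A T → Unr (tauX A) (H.subgroupOf (Gb F)) x := by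
    intro x hx g
    have := hNn.conj_mem _ (hTau x hx) g⁻¹
    rwa [inv_inv] at this
  have hRm := hRmc hG (H.subgroupOf (Gb F)) (splT A T) e hNn he hTau hM
  obtain ⟨h₀, s, hh₀, hs, hc, hfix⟩ := hH0 F h2 A hA H ho
  have hspan := hSpn F h2 A hA hG H hH h₀ s hh₀ hs hc
  have hqn : Nat.card F ^ n = p ^ (r * n) := by rw [hq, ← pow_mul]
  have hγ : 4 ^ e * #(splT A T) ≤ g ^ 2 * DD := by
    have h3 : 4 ^ e = g ^ 2 := by
      rw [← hgN, he, ← pow_mul, mul_comm, pow_mul]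
      norm_num
    rw [h3, hDD]
    exact Nat.mul_le_mul_left _ (splT_card A T)
  -- the places
  obtain ⟨B, hB⟩ : ∃ B : Finset (Pl F), (B : Set (Pl F)) =
      {w ∈ Irs F n | (A w).rQ (A w).f ∈ H} :=
    ⟨((hIf n).subset (Set.sep_subset _ _)).toFinset, by rw [Set.Finite.coe_toFinset]⟩
  have hmemB : ∀ w, w ∈ B → w ≠ none ∧ dgP w.o = n ∧ (A w).rQ (A w).f ∈ H := by
    intro w hw
    have h1 : w ∈ (B : Set (Pl F)) := hw
    rw [hB] at h1
    obtain ⟨⟨P, rfl, hP⟩, h2⟩ := h1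
    exact ⟨Option.some_ne_none P, hP, h2⟩
  have : Finite (Gb F ⧸ H.subgroupOf (Gb F)) := Subgroup.finite_quotient_of_finiteIndex
  let _ : Fintype (Gb F ⧸ H.subgroupOf (Gb F)) := Fintype.ofFinite _
  have hcard : Fintype.card (Gb F ⧸ H.subgroupOf (Gb F)) = g := by
    rw [← hgN, Subgroup.index, Nat.card_eq_fintype_card]
  have hinj : Set.InjOn (fun z : Pl F × ℕ × (Gb F ⧸ H.subgroupOf (Gb F)) =>
      (rtP A z.1 ^ Nat.card F ^ z.2.1, z.2.2))
      (((B \ T) ×ˢ (range n ×ˢ (univ : Finset (Gb F ⧸ H.subgroupOf (Gb F)))) :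
        Finset (Pl F × ℕ × (Gb F ⧸ H.subgroupOf (Gb F)))) : Set _) := by
    rintro ⟨w, j, c⟩ hx ⟨w', j', c'⟩ hx' heq
    rw [Finset.mem_coe, Finset.mem_product, Finset.mem_product, Finset.mem_range,
      Finset.mem_sdiff] at hx hx'
    obtain ⟨⟨hw, -⟩, hj, -⟩ := hx
    obtain ⟨⟨hw', -⟩, hj', -⟩ := hx'
    obtain ⟨h3, h4⟩ := Prod.mk.inj heq
    change rtP A w ^ Nat.card F ^ j = rtP A w' ^ Nat.card F ^ j' at h3
    change c = c' at h4
    obtain ⟨h5, h6, -⟩ := hmemB w hw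
    obtain ⟨h5', h6', -⟩ := hmemB w' hw'
    have h7 := hP3 w h5 j (by rw [h6]; exact hj)
    have h8 := hP3 w' h5' j' (by rw [h6']; exact hj')
    rw [h3, h8] at h7
    obtain ⟨h9, h10⟩ := Prod.mk.inj h7
    rw [h9, h10, h4]
  have hSt := hSte hG p (H.subgroupOf (Gb F)) (splT A T) hUnr (4 ^ e * #(splT A T)) hRm
    {b : Qf F | (∀ g ∈ H, g ∈ Gb F → g b = b) ∧ h₀ b = b} hspan (r * n) ?_
    (((B \ T) ×ˢ (range n ×ˢ (univ : Finset (Gb F ⧸ H.subgroupOf (Gb F))))).image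
      fun z : Pl F × ℕ × (Gb F ⧸ H.subgroupOf (Gb F)) =>
      (rtP A z.1 ^ Nat.card F ^ z.2.1, z.2.2)) ?_
  · rw [Finset.card_image_of_injOn hinj, Finset.card_product, Finset.card_product,
      Finset.card_range, Finset.card_univ, hcard, ← hqn] at hSt
    have hnn : n₀ ≤ n := by
      have h3 : Nat.card F ^ n₀ ≤ Nat.card F ^ n := by
        refine le_trans ?_ hn
        calc Nat.card F ^ n₀ = Nat.card F ^ n₀ * 1 := (mul_one _).symm
          _ ≤ _ := Nat.mul_le_mul (by omega) (Nat.one_le_pow _ _ (Nat.mul_pos hg1 hD1))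
      exact (Nat.pow_le_pow_iff_right hq1).1 h3
    have h8 : 8 * (g * DD) ≤ Nat.card F ^ n := by
      refine le_trans ?_ hn
      refine Nat.mul_le_mul (by omega) ?_
      exact Nat.le_self_pow (by omega) _
    have hn1 : 1 ≤ n := by
      rcases Nat.eq_zero_or_pos n with h | h
      · exfalso
        rw [h, pow_zero] at h8
        have : 1 ≤ g * DD := Nat.mul_pos hg1 hD1
        omega
      · exact h
    have h4 : 3 * Nat.card F ^ n ≤ 4 * (n * (Irs F n).ncard) := by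
      have := hI n hnn
      exact_mod_cast this
    have h5 : n * #(B ∩ T) ≤ DD := by
      have h6 : ∑ w ∈ B ∩ T, dgP w.o = n * #(B ∩ T) := by
        rw [Finset.sum_congr rfl fun w hw => (hmemB w (Finset.mem_inter.1 hw).1).2.1,
          Finset.sum_const, smul_eq_mul, mul_comm]
      rw [← h6, hDD]
      refine le_trans (Finset.sum_le_sum_of_subset Finset.inter_subset_right) (by omega)
    have h6 : {w ∈ Irs F n | (A w).rQ (A w).f ∈ H}.ncard = #(B \ T) + #(B ∩ T) := by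
      rw [← hB, Set.ncard_coe_finset, Finset.card_sdiff_add_card_inter]
    rw [h6, ← hg]
    exact splU_fin n g _ _ _ _ DD hn1 (by rw [mul_assoc]; exact hSt) h5 h8 h4
  · rw [hgN]
    refine (splU_num p g DD _ (2304 * p + Nat.card F ^ n₀ + 8) hg1 hD1 hγ (by omega)).trans ?_
    rw [← hqn]
    exact hn
  · intro z hz
    rw [Finset.mem_image] at hz
    obtain ⟨⟨w, j, c⟩, hx, rfl⟩ := hz
    rw [Finset.mem_product, Finset.mem_product, Finset.mem_range, Finset.mem_sdiff] at hx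
    obtain ⟨⟨hw, hwT⟩, hj, -⟩ := hx
    change j < n at hj
    change w ∈ B at hw
    change w ∉ T at hwT
    obtain ⟨h5, h6, h7⟩ := hmemB w hw
    have h8 := hP3 w h5 j (by rw [h6]; exact hj)
    refine ⟨?_, ?_⟩
    · show some (rtP A w ^ Nat.card F ^ j) ∉ splT A T
      rw [splT_mem]
      rintro ⟨w', h9, h10, i, h11, h12⟩
      have h13 := hP3 w' h10 i h11
      rw [h12, h8] at h13
      exact hwT ((Prod.mk.inj h13).1 ▸ h9)
    · rintro b ⟨hb1, hb2⟩ g - hν
      have hgb : (g • b : Qf F) = (g : GQ F) b := rfl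
      rw [hgb] at hν ⊢
      have hw1 : (plX A (some (rtP A w ^ Nat.card F ^ j))).1 = w := by rw [h8]
      have hmem : (A (plX A (some (rtP A w ^ Nat.card F ^ j))).1).rQ
          (A (plX A (some (rtP A w ^ Nat.card F ^ j))).1).f ∈ H := by
        rw [hw1]
        exact h7
      have hbb := hfix b hb1 hb2
      have h9 := hFrp F h2 A hA H hH b hbb (rtP A w ^ Nat.card F ^ j) (g : GQ F) hmem hν
      rw [hw1, h6, hqn] at h9
      exact h9

end Pool.Agent.MP72S.SX
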