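import Pool.Agent.Lib.MP_72e2e6_nt.Sm.X.Spec

/-!
# MP_72e2e6_nt, `Sm/X`, module `Spn`: the functions over the field of definition span
-/

namespace Pool.Agent.MP72S.SX

open Polynomial Finset Pool.Agent.MP72W Pool.Agent.MP72S.D Pool.Agent.MP72S.SF

private theorem spn_iter {F : Type} [Field F] (h₀ : GQ F) (f : Qf F) (m : ℕ) :
    (fun x : Qf F => h₀ x)^[m] f = (h₀ ^ m) f := by
  induction m with
  | zero => simp
  | succ m ih => rw [Function.iterate_succ_apply', ih, pow_succ', AlgEquiv.mul_apply]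

private theorem spn_fin {F : Type} [Field F] [Finite F] (hK : D.S_Kt) (h₀ : GQ F) (f : Qf F) :
    ∃ m, 0 < m ∧ (h₀ ^ m) f = f := by
  obtain ⟨h1, -, h3, h4⟩ := hK F
  have ho : IsOpen ((MulAction.stabilizer (GQ F) f : Subgroup (GQ F)) : Set (GQ F)) := h1 f
  have hfin : Finite (GQ F ⧸ MulAction.stabilizer (GQ F) f) :=
    (MulAction.stabilizer (GQ F) f).quotient_finite_of_isOpen ho
  have h5 : (MulAction.stabilizer (GQ F) f).index ≠ 0 := by
    have : (MulAction.stabilizer (GQ F) f).FiniteIndex := Subgroup.finiteIndex_of_finite_quotient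
    exact this.index_ne_zero
  obtain ⟨m, hm0, -, hm⟩ := Subgroup.exists_pow_mem_of_index_ne_zero h5 h₀
  exact ⟨m, hm0, hm⟩

/-- Conjugation by `h₀` preserves `H ∩ Gb`. -/
private theorem spn_conj {F : Type} [Field F] (H : Subgroup (GQ F)) (hH : H.Normal)
    (h₀ : GQ F) (q : ℕ)
    (hc : ∀ c : kF F, h₀ (c : Qf F) = ((c ^ q : kF F) : Qf F)) (g : GQ F) (hg : g ∈ H)
    (hgb : g ∈ Gb F) : h₀⁻¹ * g * h₀ ∈ H ∧ h₀⁻¹ * g * h₀ ∈ Gb F := by
  refine ⟨?_, ?_⟩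
  · have := hH.conj_mem g hg h₀⁻¹
    rwa [inv_inv] at this
  · intro c
    have h1 : g ((c ^ q : kF F) : Qf F) = ((c ^ q : kF F) : Qf F) := hgb (c ^ q)
    show (h₀⁻¹ * g * h₀) (c : Qf F) = (c : Qf F)
    rw [AlgEquiv.mul_apply, AlgEquiv.mul_apply, hc, h1, ← hc, ← AlgEquiv.mul_apply,
      inv_mul_cancel, AlgEquiv.one_apply]

theorem tSpn : S_Des → S_Per → D.S_Kk → D.S_Kt → S_Spn := by
  intro hD hP hKk hK F _ _ h2 A hA hG H hH h₀ s hh₀ hs hc a
  obtain ⟨p, hpF⟩ := CharP.exists F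
  have hkp : CharP (kF F) p := charP_of_injective_algebraMap
    (algebraMap F (kF F)).injective p
  have : Fintype F := Fintype.ofFinite F
  obtain ⟨r0, hp, hr0⟩ := FiniteField.card F p
  have : Fact p.Prime := ⟨hp⟩
  obtain ⟨r, hr, hq⟩ : ∃ r : ℕ, 1 ≤ r ∧ Nat.card F = p ^ r :=
    ⟨r0, r0.2, by rw [Nat.card_eq_fintype_card, hr0]⟩
  have hk : IsAlgClosed (kF F) := (hKk F).1
  have key := hD (k := kF F) (V := Qf F) p (r * s) (Nat.mul_pos hr hs) (fun x : Qf F => h₀ x)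
    (fun x y => map_add h₀ x y) ?_ (SA hG (H.subgroupOf (Gb F)) a) ?_ ?_
  · have hset : {f : Qf F | f ∈ {b : Qf F | (∀ g ∈ H, g ∈ Gb F → g b = b) ∧ h₀ b = b} ∧
          f ∈ SA hG (H.subgroupOf (Gb F)) a} =
        {x : Qf F | x ∈ SA hG (H.subgroupOf (Gb F)) a ∧ h₀ x = x} := by
      ext f
      constructor
      · rintro ⟨⟨-, h3⟩, h4⟩
        exact ⟨h4, h3⟩
      · rintro ⟨h4, h3⟩
        refine ⟨⟨fun g hg hgb => ?_, h3⟩, h4⟩
        exact ((mem_LL hG _ _ _).1 h4).1 ⟨g, hgb⟩ (Subgroup.mem_subgroupOf.2 hg)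
    rw [hset]
    exact key
  · intro c x
    show h₀ (c • x) = c ^ p ^ (r * s) • h₀ x
    rw [Algebra.smul_def, Algebra.smul_def, map_mul]
    congr 1
    have h3 := hc c
    rw [hq, ← pow_mul] at h3
    exact h3
  · intro f hf
    obtain ⟨h3, h4⟩ := (mem_LL hG _ _ _).1 hf
    refine (mem_LL hG _ _ _).2 ⟨?_, ?_⟩
    · rintro ⟨g, hgb⟩ hg
      have hgH : g ∈ H := Subgroup.mem_subgroupOf.1 hg
      obtain ⟨h5, h6⟩ := spn_conj H hH h₀ _ hc g hgH hgb
      have h7 : (h₀⁻¹ * g * h₀) f = f := h3 ⟨_, h6⟩ (Subgroup.mem_subgroupOf.2 h5)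
      show g (h₀ f) = h₀ f
      have h8 := congrArg h₀ h7
      rw [← AlgEquiv.mul_apply, ← mul_assoc, ← mul_assoc, mul_inv_cancel, one_mul,
        AlgEquiv.mul_apply] at h8
      exact h8
    · rintro x ⟨g, hgb⟩
      obtain ⟨x', g', hg', hx, hv⟩ := hP F h2 A hA h₀ s hc x g hgb
      have h5 : nuX A x ((⟨g, hgb⟩ : Gb F) • h₀ f) = nuX A x' ((⟨g', hg'⟩ : Gb F) • f) := hv f
      rw [h5]
      have h6 := h4 x' ⟨g', hg'⟩
      have h7 : ra (k := kF F) (H.subgroupOf (Gb F)) a x ((⟨g, hgb⟩ : Gb F) : Gb F ⧸ _) =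
          ra (k := kF F) (H.subgroupOf (Gb F)) a x' ((⟨g', hg'⟩ : Gb F) : Gb F ⧸ _) := by
        cases x with
        | none =>
          rw [hx.1 rfl]
          rfl
        | some x =>
          cases x' with
          | none => exact absurd (hx.2 rfl) (Option.some_ne_none x)
          | some x' => rfl
      rw [h7]
      exact h6
  · intro f _
    obtain ⟨m, hm, h3⟩ := spn_fin hK h₀ f
    refine ⟨m, hm, ?_⟩
    rw [spn_iter, h3]

end Pool.Agent.MP72S.SX
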