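import Pool.Agent.Lib.MP_72e2e6_nt.Sm.X.Spec

/-!
# MP_72e2e6_nt, `Sm/X`: module `Ste`
-/

namespace Pool.Agent.MP72S.SX

open Polynomial Finset

/-- The dimension count. -/
private theorem ste_dim (n γ P l X Y Z : ℕ) (hn : 1 ≤ n)
    (hl : 9 * P + 8 * γ ≤ 8 * (n * l)) (hl2 : 8 * (n * l) ≤ 9 * P + 8 * γ + 8 * n)
    (hX : n * (10 * γ + 1) + 1 ≤ X + γ) (hY : n * l + 1 ≤ Y + γ)
    (hZ : Z ≤ n * (P * (10 * γ + 1) + l) + 1) : Z < X * Y := by
  zify at *
  obtain ⟨L, hL⟩ : ∃ L : ℤ, L = n * l + 1 - γ := ⟨_, rfl⟩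
  have hγ : (0 : ℤ) ≤ γ := Int.natCast_nonneg γ
  have hP : (0 : ℤ) ≤ P := Int.natCast_nonneg P
  have hL0 : 0 < L := by linarith
  have hYL : L ≤ Y := by linarith
  have hA : (0 : ℤ) < n * (10 * γ + 1) + 1 - γ := by nlinarith
  have hXA : (n : ℤ) * (10 * γ + 1) + 1 - γ ≤ X := by linarith
  have h1 : ((n : ℤ) * (10 * γ + 1) + 1 - γ) * L ≤ X * Y :=
    mul_le_mul hXA hYL hL0.le (hA.le.trans hXA)
  refine lt_of_lt_of_le ?_ h1
  refine lt_of_le_of_lt hZ ?_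
  have h2 : (n : ℤ) * l = L - 1 + γ := by linarith
  have h3 : (n : ℤ) * (P * (10 * γ + 1) + l) + 1 = n * (10 * γ + 1) * P + L + γ := by
    have : (n : ℤ) * (P * (10 * γ + 1) + l) + 1 = n * (10 * γ + 1) * P + n * l + 1 := by ring
    rw [this, h2]
    ring
  rw [h3]
  have h4 : (P : ℤ) + 8 ≤ 8 * (L - P) := by linarith
  have h5 : 8 * L ≤ 9 * P + 8 * n + 8 := by linarith
  have h6 : (n : ℤ) * (10 * γ + 1) * (P + 8) ≤ n * (10 * γ + 1) * (8 * (L - P)) :=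
    mul_le_mul_of_nonneg_left h4 (by positivity)
  have h7 : (γ : ℤ) * (8 * L) ≤ γ * (9 * P + 8 * n + 8) := mul_le_mul_of_nonneg_left h5 hγ
  have h8 : (γ : ℤ) * P ≤ n * (γ * P) := by
    have := mul_nonneg hγ hP
    nlinarith
  have h9 : (γ : ℤ) ≤ n * γ := by nlinarith
  have h10 : (0 : ℤ) ≤ n * P := by positivity
  nlinarith

/-- The last inequality. -/
private theorem ste_end (n γ P l E R S : ℕ) (hP : 64 * (n + γ + 1) ≤ P) (hR : P * S = R)
    (ha : 64 * (n * (10 * γ + 1)) ≤ R) (hl2 : 8 * (n * l) ≤ 9 * P + 8 * γ + 8 * n)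
    (hE : E ≤ n * ((10 * γ + 1) + l * S)) : 4 * E ≤ 5 * R := by
  have h1 : 64 * (n + γ) * S ≤ R := by
    rw [← hR]
    exact Nat.mul_le_mul_right S (by omega)
  have h2 : 8 * (n * l) * S ≤ (9 * P + 8 * γ + 8 * n) * S := Nat.mul_le_mul_right S hl2
  nlinarith

theorem tSte : S_Upp → S_Zr → S_Aux → S_Ste := by
  intro hUpp hZr hAux k Q G _ _ _ _ _ _ t ν rs τ h p _ _ N _ T hT γ hRm M hM m hm E hE
  classical
  have hp2 : 2 ≤ p := (Fact.out : p.Prime).two_le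
  obtain ⟨n, hn⟩ : ∃ n, n = N.index := ⟨_, rfl⟩
  have hn1 : 1 ≤ n := by
    rw [hn]
    exact Nat.one_le_iff_ne_zero.2 Subgroup.FiniteIndex.index_ne_zero
  rw [← hn] at hm
  -- the power `P = p ^ μ`
  have hex : ∃ μ, 64 * (n + γ + 1) ≤ p ^ μ :=
    ⟨64 * (n + γ + 1), (Nat.lt_pow_self (by omega)).le⟩
  obtain ⟨μ, hμ⟩ : ∃ μ, μ = Nat.find hex := ⟨_, rfl⟩
  have hP1 : 64 * (n + γ + 1) ≤ p ^ μ := by rw [hμ]; exact Nat.find_spec hex
  have hμ0 : μ ≠ 0 := by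
    rintro rfl
    rw [pow_zero] at hP1
    omega
  have hP2 : p ^ μ < 64 * p * (n + γ + 1) := by
    have h1 : p ^ (μ - 1) < 64 * (n + γ + 1) := by
      by_contra hlt
      have h2 := Nat.find_min' hex (not_lt.1 hlt)
      rw [← hμ] at h2
      omega
    calc p ^ μ = p ^ (μ - 1) * p := by rw [← pow_succ, Nat.sub_add_cancel (by omega)]
      _ < 64 * (n + γ + 1) * p := Nat.mul_lt_mul_of_pos_right h1 (by omega)
      _ = _ := by ring
  have hμm : μ ≤ m := by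
    by_contra hlt
    have h1 : p ^ m ≤ p ^ μ := Nat.pow_le_pow_right (by omega) (by omega)
    have h2 : 64 * p * (n + γ + 1) ≤ 64 * p * (n + γ + 1) * (n * (10 * γ + 1) + 1) :=
      Nat.le_mul_of_pos_right _ (by omega)
    omega
  obtain ⟨ν', hν'⟩ : ∃ ν', m = μ + ν' := ⟨m - μ, by omega⟩
  have hpm : p ^ μ * p ^ ν' = p ^ m := by rw [← pow_add, hν']
  have hν : n * (10 * γ + 1) < p ^ ν' := by
    by_contra hlt
    have h1 : p ^ m ≤ p ^ μ * (n * (10 * γ + 1)) := by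
      rw [← hpm]
      exact Nat.mul_le_mul_left _ (not_lt.1 hlt)
    have h2 : p ^ μ * (n * (10 * γ + 1)) ≤ 64 * p * (n + γ + 1) * (n * (10 * γ + 1)) :=
      Nat.mul_le_mul_right _ hP2.le
    have h3 : 64 * p * (n + γ + 1) * (n * (10 * γ + 1) + 1) =
      64 * p * (n + γ + 1) * (n * (10 * γ + 1)) + 64 * p * (n + γ + 1) := by ring
    have h4 : 0 < 64 * p * (n + γ + 1) := by positivity
    omega
  have ha : 64 * (n * (10 * γ + 1)) ≤ p ^ m := by
    refine le_trans ?_ hm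
    have h1 : 64 ≤ 64 * p * (n + γ + 1) := by nlinarith
    calc 64 * (n * (10 * γ + 1)) ≤ 64 * p * (n + γ + 1) * (n * (10 * γ + 1)) :=
          Nat.mul_le_mul_right _ h1
      _ ≤ _ := Nat.mul_le_mul_left _ (by omega)
  -- `l`
  obtain ⟨l, hl1, hl2⟩ : ∃ l, 9 * p ^ μ + 8 * γ ≤ 8 * (n * l) ∧
      8 * (n * l) ≤ 9 * p ^ μ + 8 * γ + 8 * n := by
    refine ⟨(9 * p ^ μ + 8 * γ) / (8 * n) + 1, ?_, ?_⟩
    · have h1 := Nat.lt_div_mul_add (a := 9 * p ^ μ + 8 * γ) (b := 8 * n) (by omega)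
      nlinarith
    · have h1 := Nat.div_mul_le_self (9 * p ^ μ + 8 * γ) (8 * n)
      nlinarith
  -- dimensions
  have hX := hRm (10 * γ + 1)
  have hY := hRm l
  have hZ := (hUpp h N T hT (p ^ μ * (10 * γ + 1) + l)).2
  rw [← hn] at hX hY hZ
  have hdim := ste_dim n γ (p ^ μ) l _ _ _ hn1 hl1 hl2 hX hY hZ
  obtain ⟨f, hf, hf0, hfx⟩ := hAux h p N T hT M hM (10 * γ + 1) l μ ν' hdim (by rwa [← hn])
  rw [← hν'] at hfx
  obtain ⟨hfN, hfr⟩ := (mem_LL h N _ f).1 hf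
  -- the divisor
  have : Fintype (G ⧸ N) := Subgroup.fintypeQuotientOfFiniteIndex
  let r : Option k → G ⧸ N → ℚ := fun x c =>
    x.elim (-(((10 * γ + 1) + l * p ^ ν' : ℕ) : ℚ)) fun x => if (x, c) ∈ E then 1 else 0
  have hrX : ∀ x, x ∉ insertNone (E.image Prod.fst) → ∀ c, r x c = 0 := by
    intro x hx c
    cases x with
    | none => exact absurd (none_mem_insertNone) hx
    | some x =>
      change (if (x, c) ∈ E then (1 : ℚ) else 0) = 0
      rw [if_neg]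
      intro hxc
      exact hx (some_mem_insertNone.2 (mem_image.2 ⟨(x, c), hxc, rfl⟩))
  have hfL : f ∈ LL h N r := by
    refine (mem_LL h N _ f).2 ⟨hfN, fun x g => ?_⟩
    cases x with
    | none => exact hfr none g
    | some x =>
      change (((if (x, (g : G ⧸ N)) ∈ E then (1 : ℚ) else 0) : ℚ) : WithTop ℚ) ≤ _
      by_cases hxg : (x, (g : G ⧸ N)) ∈ E
      · rw [if_pos hxg]
        obtain ⟨hxT, hb⟩ := hE _ hxg
        have h1 : 0 < ν (some x) (g • f) := hfx x g fun b hbM hb0 => hb b hbM g rfl hb0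
        have h2 : τ (some x) • g • f = g • f := by
          have h3 : τ (some x) • g • f = g • (g⁻¹ * τ (some x) * g) • f := by
            rw [smul_smul, smul_smul]
            congr 1
            group
          rw [h3, hfN _ (hT _ hxT g)]
        have h4 : g • f ≠ 0 := fun hh => hf0 ((smul_eq_zero_iff_eq g).1 hh)
        obtain ⟨j, hj⟩ := h.int (some x) _ h2 h4
        rw [hj] at h1 ⊢
        have h5 : (0 : ℚ) < j := by exact_mod_cast h1
        have h6 : (0 : ℤ) < j := by exact_mod_cast h5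
        have h7 : (1 : ℤ) ≤ j := h6
        have h8 : (1 : ℚ) ≤ j := by exact_mod_cast h7
        exact WithTop.coe_le_coe.2 h8
      · rw [if_neg hxg]
        exact hfr (some x) g
  have hfin := hZr h N r _ hrX f hfL hf0
  rw [sum_insertNone] at hfin
  have hs1 : ∑ c, r none c = -((n : ℚ) * (((10 * γ + 1) + l * p ^ ν' : ℕ) : ℚ)) := by
    have h1 : ∀ c, r none c = -(((10 * γ + 1) + l * p ^ ν' : ℕ) : ℚ) := fun c => rfl
    rw [sum_congr rfl fun c _ => h1 c, sum_const, card_univ, ← Nat.card_eq_fintype_card,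
      ← Subgroup.index_eq_card, nsmul_eq_mul, ← hn, mul_neg]
  have hs2 : ∑ x ∈ E.image Prod.fst, ∑ c, r (some x) c = (#E : ℚ) := by
    have h1 : ∀ x c, r (some x) c = if (x, c) ∈ E then (1 : ℚ) else 0 := fun x c => rfl
    rw [sum_congr rfl fun x _ => sum_congr rfl fun c _ => h1 x c]
    rw [← sum_product' (E.image Prod.fst) univ fun x c => if (x, c) ∈ E then (1 : ℚ) else 0]
    rw [← sum_filter, sum_const, nsmul_eq_mul, mul_one]
    congr 2
    ext ⟨x, c⟩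
    rw [mem_filter, mem_product]
    constructor
    · exact fun hh => hh.2
    · exact fun hh => ⟨⟨mem_image.2 ⟨(x, c), hh, rfl⟩, mem_univ _⟩, hh⟩
  rw [hs1, hs2] at hfin
  have hE2 : #E ≤ n * ((10 * γ + 1) + l * p ^ ν') := by
    have h1 : (#E : ℚ) ≤ (n : ℚ) * (((10 * γ + 1) + l * p ^ ν' : ℕ) : ℚ) := by linarith
    exact_mod_cast h1
  exact ste_end n γ (p ^ μ) l (#E) (p ^ m) (p ^ ν') hP1 hpm ha hl2 hE2

end Pool.Agent.MP72S.SX
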