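import Pool.Agent.Lib.MP_72e2e6_nt.Sm.X.Spec

set_option autoImplicit false

namespace Pool.Agent.MP72S.SX

open Polynomial Finset

theorem tUpp (h1 : S_Zr) (h2 : S_Jmp) : S_Upp := by
  intro k Q G _ _ _ _ _ _ t ν rs τ h N _ T hT a
  classical
  haveI : Infinite k := IsAlgClosed.instInfinite
  haveI : Fintype (G ⧸ N) := Fintype.ofFinite _
  obtain ⟨c₀, hc₀⟩ := Infinite.exists_notMem_finset (Finset.eraseNone T)
  rw [Finset.mem_eraseNone] at hc₀
  have htr : ∀ c : G ⧸ N, τ (some c₀) • c = c := by
    intro c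
    induction c using QuotientGroup.induction_on with
    | H g =>
      have h3 := hT _ hc₀ g
      show ((τ (some c₀) * g : G) : G ⧸ N) = (g : G ⧸ N)
      rw [QuotientGroup.eq]
      have h4 : (τ (some c₀) * g)⁻¹ * g = (g⁻¹ * τ (some c₀) * g)⁻¹ := by group
      rw [h4]
      exact N.inv_mem h3
  set r' : Option k → G ⧸ N → ℚ := fun x c =>
    if x = some c₀ then (if c = ((1 : G) : G ⧸ N) then (a : ℚ) + 1 else a) else ra N a x c
    with hr'
  have hn : ∀ c, r' none c = -a := fun c => by
    rw [hr']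
    dsimp only
    rw [if_neg (by simp)]
    rfl
  have hx₀ : ∀ c, r' (some c₀) c = a + if c = ((1 : G) : G ⧸ N) then (1 : ℚ) else 0 := fun c => by
    rw [hr']
    dsimp only
    rw [if_pos rfl]
    split_ifs <;> ring
  have hoth : ∀ x, x ≠ some c₀ → ∀ c, r' x c = ra N a x c := fun x hx c => by
    rw [hr']
    dsimp only
    rw [if_neg hx]
  have hsum0 : ∑ c, r' (some c₀) c = (Fintype.card (G ⧸ N) : ℚ) * a + 1 := by
    rw [sum_congr rfl fun c _ => hx₀ c, sum_add_distrib, sum_const, card_univ, nsmul_eq_mul,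
      sum_ite_eq' univ ((1 : G) : G ⧸ N), if_pos (mem_univ _)]
  have hbot : LL h N r' = ⊥ := by
    rw [Submodule.eq_bot_iff]
    intro f hf
    by_contra hf0
    have h3 := h1 h N r' {none, some c₀} (by
      intro x hx c
      rw [mem_insert, mem_singleton, not_or] at hx
      rw [hoth x hx.2]
      cases x with
      | none => exact absurd rfl hx.1
      | some y => rfl) f hf hf0
    rw [sum_pair (by simp), hsum0, sum_congr rfl fun c _ => hn c, sum_const, card_univ,
      nsmul_eq_mul] at h3
    linarith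
  have hinv : Inv τ (ra N a) := by
    intro x c
    cases x <;> rfl
  have hinv' : Inv τ r' := by
    intro x c
    by_cases hx : x = some c₀
    · rw [hx, htr]
    · rw [hoth x hx, hoth x hx, hinv]
  have hfb : Module.Finite k (LL h N r') := by
    rw [hbot]
    infer_instance
  obtain ⟨hf, -, hd⟩ := h2 h N (ra N a) r' (some c₀) hinv hinv' hoth
    (by
      intro c
      rw [hx₀]
      show (0 : ℚ) ≤ _
      split_ifs <;> positivity) hfb
  have hd2 := hd htr (fun c => ⟨0, by rw [Int.cast_zero]; rfl⟩)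
    (by
      intro c
      rw [hx₀]
      split_ifs
      · exact ⟨a + 1, by push_cast; ring⟩
      · exact ⟨a, by push_cast; ring⟩)
  refine ⟨hf, ?_⟩
  have h5 : Module.finrank k (LL h N r') = 0 := by
    rw [hbot]
    exact finrank_bot k Q
  have h6 : ∑ c : G ⧸ N, (r' (some c₀) c - ra N a (some c₀) c) =
      (Fintype.card (G ⧸ N) : ℚ) * a + 1 := by
    rw [← hsum0]
    exact sum_congr rfl fun c _ => sub_zero _
  rw [h5, h6] at hd2
  have h7 : N.index = Fintype.card (G ⧸ N) := Nat.card_eq_fintype_card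
  have h8 : (Module.finrank k (LL h N (ra N a)) : ℚ) ≤ ((N.index * a + 1 : ℕ) : ℚ) := by
    rw [h7]
    push_cast
    rw [Nat.cast_zero] at hd2
    linarith
  exact_mod_cast h8

end Pool.Agent.MP72S.SX
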