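import Pool.Agent.Lib.MP_72e2e6_nt.Sm.X.Defs

/-!
# MP_72e2e6_nt, `Sm/X`: Riemann's inequality in quadratic towers and effective Stepanov

Targets: `S_SplU`, `SF.S_SplE`, `SF.S_SplI` (the number of the places of degree `n` whose Frobenius element is in the open normal
subgroup `H`, with an explicit bound for `n`). The proofs are complete in the docstrings; every module
is independent (used statements are hypotheses): file `Sm/X/<Name>.lean` (import this file only) with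
`theorem t<Name> : S_<Name>` or `theorem t<Name> (h1 : S_X) (h2 : S_Y) .. : S_<Name>` (in the order of the
docstring), namespace `Pool.Agent.MP72S.SX`, other declarations `private`. `n` is the index of `N`.
For `g : G` we write `g N` for its coset; `ν x (g • f)` depends only on `g N` if `f` is fixed by `N`.
-/

namespace Pool.Agent.MP72S.SX

open Polynomial Finset

/-! ### 1. Divisors of functions -/

/-- **Pf0** (120 lines). The divisor of an element of `k(t)`.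

Proof. `ν x (-f) = ν x f` (`ν x (-1) = 0` by `cst`), `ν x (f / g) = ν x f - ν x g` for `g ≠ 0`. For `p ∈ k[X]`, `p ≠ 0`:
`p = c ∏ (X - c_i)` (`IsAlgClosed.splits`), so `aeval t p = c ∏ (t - c_i)` is not `0` (`t - c_i ≠ 0` as its valuations
are finite), `ν (some x) (aeval t p)` is the number of the `i` with `c_i = x` (`lin`, `lin'`), and
`ν none (aeval t p)` is minus the number of all `i` (`inf`): the sum over all points is `0`. By `fix` `a = p(t) / s(t)`, and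
`p, s ≠ 0` as `a ≠ 0` (`aeval t 0 = 0`, division by `0` is `0`). -/
def S_Pf0 : Prop :=
  ∀ {k Q G : Type} [Field k] [IsAlgClosed k] [Field Q] [Algebra k Q] [Group G]
    [MulSemiringAction G Q] {t : Q} {ν : Option k → Q → WithTop ℚ} {rs : Option k → Q → k}
    {τ : Option k → G} (_ : Geo t ν rs τ) (a : Q), (∀ g : G, g • a = a) → a ≠ 0 →
    ∃ (X : Finset (Option k)) (m : Option k → ℤ), (∀ x, ν x a = ((m x : ℚ) : WithTop ℚ)) ∧
      (∀ x, x ∉ X → m x = 0) ∧ ∑ x ∈ X, m x = 0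

/-- **Pf** (200 lines, uses `S_Pf0`). The divisor of a function in the fixed field of `N`.

Proof. (1) `ν x (g • f)` depends only on `g N` (`f` is fixed by `N`), it is not `⊤` (`top`, `g • f ≠ 0`): it is `d x (g N)`;
`Inv`: `ν x (τ x • g • f) = ν x (g • f)` (`tau`). (2) Let `f_c = g • f` for `g ∈ c` (`c.out`). `P = ∏_c (X - C f_c) ∈ Q[X]`; `g • f_c =
f_(g c)`, so the coefficients `a_j` of `P` are fixed by `G` (`Finset.prod` over `G ⧸ N`, reindexed by `c ↦ g • c`; for example by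
`Polynomial.map` with the ring homomorphism `MulSemiringAction.toRingHom G Q g`), and `P` is monic of degree `n`. Let `X`
be the finite set of the points where `ν x (a_j) ≠ 0` for some `a_j ≠ 0` (`S_Pf0`). For `x ∉ X`: `P(f_c) = 0`; if
`ν x f_c < 0` then `ν x (f_c ^ n) < ν x (a_j f_c ^ j)` for all `j < n`, a contradiction (`f_c ^ n = - ∑ a_j f_c ^ j`). So
`ν x f_c ≥ 0` for all `c`, and `∑_c ν x f_c = ν x (∏ f_c) = 0` (`∏ f_c = ± a_0`, `a_0 ≠ 0`), so all are `0`. (3) `∏_c f_c` is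
fixed by `G` and not `0`, so by `S_Pf0` `∑_x ∑_c d x c = ∑_x ν x (∏ f_c) = 0` (the sum over a set containing both
finite sets; enlarging the finite set does not change the sums). -/
def S_Pf : Prop :=
  ∀ {k Q G : Type} [Field k] [IsAlgClosed k] [Field Q] [Algebra k Q] [Group G]
    [MulSemiringAction G Q] {t : Q} {ν : Option k → Q → WithTop ℚ} {rs : Option k → Q → k}
    {τ : Option k → G} (_ : Geo t ν rs τ) (N : Subgroup G) [Fintype (G ⧸ N)] (f : Q),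
    (∀ g ∈ N, g • f = f) → f ≠ 0 →
    ∃ (X : Finset (Option k)) (d : Option k → G ⧸ N → ℚ), Inv τ d ∧
      (∀ x (g : G), ν x (g • f) = ((d x g : ℚ) : WithTop ℚ)) ∧ (∀ x, x ∉ X → ∀ c, d x c = 0) ∧
      ∑ x ∈ X, ∑ c, d x c = 0

/-- **Zr** (50 lines, uses `S_Pf`). A divisor of positive degree has no functions.

Proof. Let `X'`, `d` be as in `S_Pf` for `f`; `r x c ≤ d x c` (`mem_LL`). Over `X ∪ X'`: `∑ ∑ d = 0` and
`∑ ∑ r = ∑_{x ∈ X} ∑_c r x c`. -/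
def S_Zr : Prop :=
  ∀ {k Q G : Type} [Field k] [IsAlgClosed k] [Field Q] [Algebra k Q] [Group G]
    [MulSemiringAction G Q] {t : Q} {ν : Option k → Q → WithTop ℚ} {rs : Option k → Q → k}
    {τ : Option k → G} (h : Geo t ν rs τ) (N : Subgroup G) [Fintype (G ⧸ N)]
    (r : Option k → G ⧸ N → ℚ) (X : Finset (Option k)), (∀ x, x ∉ X → ∀ c, r x c = 0) →
    ∀ f ∈ LL h N r, f ≠ 0 → ∑ x ∈ X, ∑ c, r x c ≤ 0

/-! ### 2. Jumps -/

/-- **Jm1** (150 lines). One jump.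

Proof. Write `x = x₀`, `c₀ = g₀ N`, `σ = τ x₀`. (1) For `f ≠ 0` fixed by `N` there is `m : ℤ` with `ν x (g₀ • f) = m / e`:
`σ ^ e • g₀ N = g₀ N`, so `g₀⁻¹ σ ^ e g₀ ∈ N` and `σ ^ e • g₀ • f = g₀ • f`; `y = ∏_{i < e} σ ^ i • g₀ • f` is fixed by `σ` and not `0`,
`ν x y = m` (`int`) and `ν x y = e ν x (g₀ • f)` (`tau`, `mul`). (2) If `f ∈ LL r` and `ν x (g₀ • f) ≥ r x c₀ + 1 / e` then
`f ∈ LL r'`: at `(x, σ ^ i g₀ N)` `ν x (σ ^ i g₀ • f) = ν x (g₀ • f)`; for `g` with `g N = σ ^ i • c₀` use that `ν x (g • f)`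
depends only on `g N`; at all other `(y, c)` `r' ≤ r`. (3) If all `f ∈ LL r` are in `LL r'`: clear (a submodule of a finite
module over a field, `finrank` is monotone). Otherwise let `f₁ ∈ LL r`, `f₁ ∉ LL r'`; so `f₁ ≠ 0` and
`r x c₀ ≤ ν x (g₀ • f₁) = m₁ / e < r x c₀ + 1 / e`. For `f ∈ LL r`: if `ν x (g₀ • f) ≥ r x c₀ + 1 / e` then `f ∈ LL r'`. Otherwise it is
`m / e` with `m = m₁` (both in the same half open interval of length `1`, multiplied by `e`). Let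
`y = (g₀ • f) / (g₀ • f₁)`, `ν x y = 0`, `λ = rs x y`; `ν x (g₀ • f - λ g₀ • f₁) > m₁ / e` (`res`, `mul`), and if it is finite it is
`m' / e` with `m' > m₁` (by (1) for `f - λ f₁`), so at least `(m₁ + 1) / e ≥ r x c₀ + 1 / e` and `f - λ f₁ ∈ LL r'` by (2). So
`LL r ≤ LL r' ⊔ span {f₁}`, which has dimension at most `finrank (LL r') + 1`. -/
def S_Jm1 : Prop :=
  ∀ {k Q G : Type} [Field k] [IsAlgClosed k] [Field Q] [Algebra k Q] [Group G]
    [MulSemiringAction G Q] {t : Q} {ν : Option k → Q → WithTop ℚ} {rs : Option k → Q → k}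
    {τ : Option k → G} (h : Geo t ν rs τ) (N : Subgroup G)
    (r r' : Option k → G ⧸ N → ℚ) (x₀ : Option k) (c₀ : G ⧸ N) (e : ℕ), Inv τ r → 0 < e →
    τ x₀ ^ e • c₀ = c₀ →
    (∀ x c, ¬ (x = x₀ ∧ ∃ i : ℕ, c = τ x₀ ^ i • c₀) → r' x c ≤ r x c) →
    (∀ i : ℕ, r' x₀ (τ x₀ ^ i • c₀) ≤ r x₀ c₀ + 1 / e) → Module.Finite k (LL h N r') →
    Module.Finite k (LL h N r) ∧ Module.finrank k (LL h N r) ≤ Module.finrank k (LL h N r') + 1

/-- **Jmp** (200 lines, uses `S_Jm1`). All jumps at one point.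

Proof. `n = #(G ⧸ N)`. Let `Φ(r) = ∑_c (r' x₀ c - r x₀ c) + #{c | r x₀ c < r' x₀ c} ≥ 0`. Claim: `LL r` is finite and
`finrank (LL r) ≤ finrank (LL r') + Φ(r)` for all invariant `r ≤ r'` which agree with `r'` outside `x₀`: induction on `⌊Φ(r)⌋₊`. If
`r x₀ = r' x₀` then `r = r'`. Otherwise let `r x₀ c₀ < r' x₀ c₀`, `O = {τ x₀ ^ i • c₀ | i : ℕ}` the orbit, `e = #O =
Function.minimalPeriod (τ x₀ • ·) c₀ > 0` (`G ⧸ N` is finite), and `r₁ = min (r' x₀ c₀) (r x₀ c₀ + 1 / e)` on `(x₀, O)`, `r₁ = r`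
elsewhere; `r`, `r'` are constant on `(x₀, O)`, `r₁` is invariant, `r ≤ r₁ ≤ r'`. `S_Jm1` for `(r, r₁)`:
`finrank (LL r) ≤ finrank (LL r₁) + 1`. `Φ(r₁) ≤ Φ(r) - 1`: if `r₁ = r + 1 / e` on `O` the first sum decreases by `1` and the
second term does not increase; otherwise `r₁ = r'` on `O`, the second term decreases by `e ≥ 1` and the first does not increase.
And `Φ(r) ≤ ∑ (r' - r) + n`. Last statement: all orbits have one element, `e = 1`, and `r x₀ c + 1 ≤ r' x₀ c` if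
`r x₀ c < r' x₀ c` (integers): the same induction with `Φ₀(r) = ∑_c (r' x₀ c - r x₀ c)`. -/
def S_Jmp : Prop :=
  ∀ {k Q G : Type} [Field k] [IsAlgClosed k] [Field Q] [Algebra k Q] [Group G]
    [MulSemiringAction G Q] {t : Q} {ν : Option k → Q → WithTop ℚ} {rs : Option k → Q → k}
    {τ : Option k → G} (h : Geo t ν rs τ) (N : Subgroup G) [Fintype (G ⧸ N)]
    (r r' : Option k → G ⧸ N → ℚ) (x₀ : Option k), Inv τ r → Inv τ r' →
    (∀ x, x ≠ x₀ → ∀ c, r' x c = r x c) → (∀ c, r x₀ c ≤ r' x₀ c) → Module.Finite k (LL h N r') →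
    Module.Finite k (LL h N r) ∧
    ((Module.finrank k (LL h N r) : ℚ) ≤ Module.finrank k (LL h N r') +
      ∑ c, (r' x₀ c - r x₀ c) + Fintype.card (G ⧸ N)) ∧
    ((∀ c : G ⧸ N, τ x₀ • c = c) → (∀ c, ∃ m : ℤ, r x₀ c = m) → (∀ c, ∃ m : ℤ, r' x₀ c = m) →
      (Module.finrank k (LL h N r) : ℚ) ≤ Module.finrank k (LL h N r') + ∑ c, (r' x₀ c - r x₀ c))

/-- **JmX** (100 lines, uses `S_Jmp`). Jumps at several points.

Proof. Induction on `X` (for all `r`): let `x₀ ∈ X`, `r₁` = `r'` at `x₀` and `r` elsewhere; `S_Jmp` for `(r, r₁)`, with the loss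
`#(G ⧸ N)` only if `x₀ ∈ T`; the induction hypothesis for `(r₁, r')`, `X \ {x₀}`, `T \ {x₀}` (for `T` use: at `x₀` `r₁ = r'`; it is
convenient to prove the bound with `#(T ∩ X)`). `Unr τ N x` gives `τ x • c = c` for all `c`. -/
def S_JmX : Prop :=
  ∀ {k Q G : Type} [Field k] [IsAlgClosed k] [Field Q] [Algebra k Q] [Group G]
    [MulSemiringAction G Q] {t : Q} {ν : Option k → Q → WithTop ℚ} {rs : Option k → Q → k}
    {τ : Option k → G} (h : Geo t ν rs τ) (N : Subgroup G) [Fintype (G ⧸ N)]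
    (r r' : Option k → G ⧸ N → ℚ) (X T : Finset (Option k)), Inv τ r → Inv τ r' →
    (∀ x, x ∉ X → ∀ c, r' x c = r x c) → (∀ x c, r x c ≤ r' x c) →
    (∀ x, x ∉ T → Unr τ N x ∧ ∀ c, (∃ m : ℤ, r x c = m) ∧ ∃ m : ℤ, r' x c = m) →
    Module.Finite k (LL h N r') →
    Module.Finite k (LL h N r) ∧ (Module.finrank k (LL h N r) : ℚ) ≤
      Module.finrank k (LL h N r') + ∑ x ∈ X, ∑ c, (r' x c - r x c) + #T * Fintype.card (G ⧸ N)

/-- **Upp** (80 lines, uses `S_Zr`, `S_Jmp`). The upper bound for the dimension.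

Proof. `k` is infinite: let `x₀ = some c₀ ∉ T`, so `τ x₀` acts trivially on `G ⧸ N`. `r = ra N a`; `r' = r` at `x ≠ x₀`, and
`r' x₀ c = a` for `c ≠ 1`, `r' x₀ 1 = a + 1` (`1` the coset of `1`). Both are invariant. `∑_{x ∈ {none, x₀}} ∑_c r' = - n a +
n a + 1 > 0`, so `LL r' = ⊥` by `S_Zr`, and `S_Jmp` (last part) gives `finrank (SA a) ≤ 0 + n a + 1`. -/
def S_Upp : Prop :=
  ∀ {k Q G : Type} [Field k] [IsAlgClosed k] [Field Q] [Algebra k Q] [Group G]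
    [MulSemiringAction G Q] {t : Q} {ν : Option k → Q → WithTop ℚ} {rs : Option k → Q → k}
    {τ : Option k → G} (h : Geo t ν rs τ) (N : Subgroup G) [N.FiniteIndex]
    (T : Finset (Option k)), (∀ x, x ∉ T → Unr τ N x) → ∀ a : ℕ,
    Module.Finite k (SA h N a) ∧ Module.finrank k (SA h N a) ≤ N.index * a + 1

/-! ### 3. Riemann's inequality -/

/-- **Bet** (50 lines). Eigenvectors for a subgroup of index two.

Proof. Let `s ∈ N`, `s ∉ N'` (the index is `2`), `y` as in the hypothesis, `β = y - s • y ≠ 0`. `N'` is normal in `N`, `s ^ 2 ∈ N'`: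
for `g ∈ N'` `g • β = y - s • (s⁻¹ g s) • y = β`, `s • β = s • y - s ^ 2 • y = - β`; every `s' ∈ N`, `s' ∉ N'` is `s g`, `g ∈ N'`. -/
def S_Bet : Prop :=
  ∀ {G Q : Type} [Group G] [Field Q] [MulSemiringAction G Q] (N N' : Subgroup G), N' ≤ N →
    N'.relIndex N = 2 →
    (∀ s ∈ N, s ∉ N' → ∃ y : Q, (∀ g ∈ N', g • y = y) ∧ s • y ≠ y) →
    ∃ β : Q, β ≠ 0 ∧ (∀ g ∈ N', g • β = β) ∧ ∀ s ∈ N, s ∉ N' → s • β = -β

/-- **Rst** (300 lines, uses `S_Pf`, `S_JmX`, `S_Upp`, `S_Bet`). Riemann's inequality for a quadratic extension.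

Proof. `n = N.index`, `N'.index = 2 n`. Let `β` be from `S_Bet`, `b = β ^ 2` (fixed by `N`, not `0`), `X₁`, `d'` from `S_Pf` for `b` and
`N`, `d = d' / 2`: `ν x (g • β) = d x (g N)` (`ν x ((g • β) ^ 2) = 2 ν x (g • β)`), `Inv τ d`, `d = 0` outside `X₁`,
`∑_{X₁} ∑_c d = 0`. For `x ∉ T` `d x c` is an integer: `τ x • g • β = g • (g⁻¹ τ x g) • β = g • β` and `int`. Let `a : ℕ`.
(1) `r₁ = ra N a - d`. If `v ∈ LL_N r₁` then `β v ∈ SA_{N'} a`; if `u ∈ SA_N a` then `u ∈ SA_{N'} a`. The map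
`(u, v) ↦ u + β v` is injective (apply `s ∈ N \ N'`: `u + β v = 0` gives `u - β v = 0`, `2 u = 0`). So with `S_Upp` for `N'` all
spaces are finite and `finrank (SA_{N'} a) ≥ finrank (SA_N a) + finrank (LL_N r₁)`. (2) Choose `m : k → ℕ` with finite support,
`m x ≥ d (some x) c` for all `c`, `m x = 0` if `some x ∉ X₁`, and `P = ∏_{some x ∈ X₁} (X - C x) ^ (m x)`, `y = P(t)`:
`ν (some x) y = m x`, `ν none y = - deg P`, `deg P = ∑ m x` (`lin`, `lin'`, `inf`; `y` is fixed by `G`). Choose `A : ℕ` with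
`A ≥ deg P + a + d none c` for all `c`, and let `r₀ (some x) c = - m x`, `r₀ none c = - A + deg P`. `v ∈ LL_N r₀` iff
`y v ∈ SA_N A`, so `finrank (LL_N r₀) = finrank (SA_N A) ≥ n A + 1 - γ` (`Rm`). `r₀ ≤ r₁`; both are invariant and integers for
`x ∉ T`. `S_JmX` (`X = X₁ ∪ {none}`; `Unr τ N x` for `x ∉ T` as `N' ≤ N`): `finrank (LL r₀) ≤ finrank (LL r₁) +
∑_X ∑_c (r₁ - r₀) + #T n`, and `∑_X ∑_c (r₁ - r₀) = n ∑ m x - ∑ ∑ d + n (- a + A - deg P) = n (A - a)`. So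
`finrank (LL r₁) ≥ n a + 1 - γ - n #T` and `finrank (SA_{N'} a) ≥ 2 n a + 2 - 2 γ - n #T`. -/
def S_Rst : Prop :=
  ∀ {k Q G : Type} [Field k] [IsAlgClosed k] [Field Q] [Algebra k Q] [Group G]
    [MulSemiringAction G Q] {t : Q} {ν : Option k → Q → WithTop ℚ} {rs : Option k → Q → k}
    {τ : Option k → G} (h : Geo t ν rs τ) (N N' : Subgroup G) [N.FiniteIndex]
    (T : Finset (Option k)) (γ : ℕ), N' ≤ N → N'.relIndex N = 2 →
    (∀ s ∈ N, s ∉ N' → ∃ y : Q, (∀ g ∈ N', g • y = y) ∧ s • y ≠ y) →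
    (∀ x, x ∉ T → Unr τ N' x) → Rm h N γ → Rm h N' (2 * γ + N.index * #T)

/-- **Rmc** (150 lines, uses `S_Upp`, `S_Rst`, `S_Pf0`). Riemann's inequality for towers.

Proof. For `x ∉ T` and `M ≥ N`: `Unr τ M x` (`N` is normal). Claim: for `j ≤ e` and `M ≥ N` with `M.index = 2 ^ j`:
`Rm h M (4 ^ j * #T)`. `j = 0`: `M = ⊤`; `t ^ i`, `i ≤ a`, are in `SA_⊤ a` (`ν x t ≥ 0` for `x ≠ none`: `t = (t - c) + c`;
`ν none t = -1`) and linearly independent (a relation is `aeval t p = 0` with `p ≠ 0`; but `p(t)` is a constant times a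
product of `t - c_i ≠ 0`); `finrank ≥ a + 1` with `S_Upp`. `j + 1`: the image of `M` in the finite group `G ⧸ N` of order
`2 ^ e` has order `2 ^ (e - j - 1)`, so by `Sylow.exists_subgroup_card_pow_succ` there is a subgroup of order `2 ^ (e - j)`
containing it; its preimage `M₂` has index `2 ^ j`, `M.relIndex M₂ = 2`. `S_Rst`:
`2 * 4 ^ j * #T + 2 ^ j * #T ≤ 4 ^ (j + 1) * #T` (`Rm` is monotone in `γ`). -/
def S_Rmc : Prop :=
  ∀ {k Q G : Type} [Field k] [IsAlgClosed k] [Field Q] [Algebra k Q] [Group G]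
    [MulSemiringAction G Q] {t : Q} {ν : Option k → Q → WithTop ℚ} {rs : Option k → Q → k}
    {τ : Option k → G} (h : Geo t ν rs τ) (N : Subgroup G) (T : Finset (Option k))
    (e : ℕ), N.Normal → N.index = 2 ^ e → (∀ x, x ∉ T → τ x ∈ N) →
    (∀ M : Subgroup G, N ≤ M → ∀ s, s ∉ M → ∃ y : Q, (∀ g ∈ M, g • y = y) ∧ s • y ≠ y) →
    Rm h N (4 ^ e * #T)

/-! ### 4. Stepanov -/

/-- **Rh** (80 lines). The residue maps are homomorphisms.

Proof. If `ν x (c) > 0` for a constant `c` then `c = 0` (`cst`). If `0 ≤ ν x f` then `rs x f` is the only constant `c` with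
`0 < ν x (f - c)` (`res`, the difference of two such constants). So the claims follow from `add`, `mul`:
`f g - c c' = (f - c) g + c (g - c')`. -/
def S_Rh : Prop :=
  ∀ {k Q G : Type} [Field k] [IsAlgClosed k] [Field Q] [Algebra k Q] [Group G]
    [MulSemiringAction G Q] {t : Q} {ν : Option k → Q → WithTop ℚ} {rs : Option k → Q → k}
    {τ : Option k → G} (_ : Geo t ν rs τ) (x : Option k),
    (∀ f g, 0 ≤ ν x f → 0 ≤ ν x g → rs x (f + g) = rs x f + rs x g ∧ rs x (f * g) = rs x f * rs x g) ∧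
    (∀ c : k, rs x (algebraMap k Q c) = c) ∧ ∀ f, 0 ≤ ν x f → (rs x f = 0 ↔ 0 < ν x f)

/-- **Aux** (250 lines, uses `S_Rh`, `S_Zr`, `S_Upp`). The auxiliary function of Stepanov.

Proof. Let `e i` be a basis of `SA a` and `b j` a basis of `SA l` which consists of elements of `M`
(`exists_linearIndependent` in the spanning set; the spaces are finite by `S_Upp`). The elements
`e i ^ p ^ μ * b j` are in `SA (p ^ μ * a + l)` and more than the dimension, so there is a relation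
`∑ d i j • (e i ^ p ^ μ * b j) = 0`, `d ≠ 0`. Let `c i j ^ p ^ μ = d i j`, `c' i j ^ p ^ ν' = c i j` (`k` algebraically closed), and
`f = ∑ c i j • (e i * b j ^ p ^ ν') ∈ SA (a + l * p ^ ν')`. (1) Let `(x, g)` be as in the last line, `ρ y = rs (some x) (g • y)`, on
the `y` with `0 ≤ ν (some x) (g • y)` (all elements of all `SA`) a ring homomorphism with `ρ c = c` (`S_Rh`). Then
`(ρ f) ^ p ^ μ = ∑ d i j ρ(e i) ^ p ^ μ ρ(b j) ^ p ^ (μ + ν') = ∑ d i j ρ(e i) ^ p ^ μ ρ(b j) = ρ (∑ d i j e i ^ p ^ μ b j) = 0`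
(characteristic `p`), so `ρ f = 0` and `0 < ν (some x) (g • f)` (`S_Rh`). (2) `f ≠ 0`: let `x₁ = some c₁ ∉ T` (`k` is infinite),
`w y = ν x₁ y` (with `g = 1`); `τ x₁ ∈ N` (`Unr` for `g = 1`), so `w y` is an integer for `y ≠ 0` fixed by `N`. Let
`z i = ∑_j c' i j • b j`; `f = ∑ z i ^ p ^ ν' * e i`, and not all `z i` are `0` (`b j` independent, `c' ≠ 0`). Suppose `f = 0`. Let
`w₀` be the minimum of the `w (z i)`, `z i ≠ 0` (an integer), `ϖ = t - c₁`, `y i = z i / ϖ ^ w₀` (integer power): `w (y i) ≥ 0`, some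
`w (y i) = 0`; `c'' i = rs x₁ (y i)`, not all `0`. `u = ∑ c'' i ^ p ^ ν' • e i ∈ SA a` is not `0`.
`∑ y i ^ p ^ ν' * e i = 0`, so `u = ∑ (c'' i - y i) ^ p ^ ν' * e i`, and `w (c'' i - y i) ≥ 1` (positive and an integer, or `⊤`), so
`w u ≥ p ^ ν'`. So `u ∈ LL r` with `r = ra N a` plus `p ^ ν'` at `(x₁, 1 N)`, and `S_Zr` gives `- n a + p ^ ν' ≤ 0`: a
contradiction. -/
def S_Aux : Prop :=
  ∀ {k Q G : Type} [Field k] [IsAlgClosed k] [Field Q] [Algebra k Q] [Group G]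
    [MulSemiringAction G Q] {t : Q} {ν : Option k → Q → WithTop ℚ} {rs : Option k → Q → k}
    {τ : Option k → G} (h : Geo t ν rs τ) (p : ℕ) [Fact p.Prime] [CharP k p]
    (N : Subgroup G) [N.FiniteIndex] (T : Finset (Option k)), (∀ x, x ∉ T → Unr τ N x) →
    ∀ M : Set Q, (∀ a, SA h N a = Submodule.span k {f | f ∈ M ∧ f ∈ SA h N a}) → ∀ a l μ ν' : ℕ,
    Module.finrank k (SA h N (p ^ μ * a + l)) <
      Module.finrank k (SA h N a) * Module.finrank k (SA h N l) → N.index * a < p ^ ν' →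
    ∃ f ∈ SA h N (a + l * p ^ ν'), f ≠ 0 ∧ ∀ (x : k) (g : G),
      (∀ b ∈ M, 0 ≤ ν (some x) (g • b) →
        rs (some x) (g • b) ^ p ^ (μ + ν') = rs (some x) (g • b)) → 0 < ν (some x) (g • f)

/-- **Ste** (200 lines, uses `S_Upp`, `S_Zr`, `S_Aux`). STEPANOV'S THEOREM with an explicit bound.

Proof. `n = N.index ≥ 1`. Let `P = p ^ μ` be the smallest power of `p` with `64 (n + γ + 1) ≤ P`; then
`P < 64 p (n + γ + 1)` (`P > 1`), so `μ ≤ m`, `ν' = m - μ`, `p ^ ν' = p ^ m / P > n (10 γ + 1)` and `64 n (10 γ + 1) ≤ p ^ m`. Let `l`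
be the smallest natural number with `8 n l ≥ 9 P + 8 γ`: `8 n l < 9 P + 8 γ + 8 n`. `a = 10 γ + 1`. Dimensions: `Y = finrank (SA l) ≥ n l + 1 - γ`
`≥ 9 P / 8 + 1`, `finrank (SA a) ≥ n a + 1 - γ > 0`, `finrank (SA (P a + l)) ≤ n (P a + l) + 1` (`S_Upp`). The hypothesis of `S_Aux`:
`(n a + 1 - γ) (n l + 1 - γ) - n P a - n l - 1`; with `L = n l + 1 - γ ≥ 9 P / 8 + 1` it is
`n a (L - P) - γ L + L - (L + γ - 1) - 1 = n a (L - P) - γ (L + 1)`, and `L - P ≥ P / 8 + 1`, `L ≤ 9 P / 8 + n + 1`, so it is at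
least `n (10 γ + 1) (P / 8 + 1) - γ (9 P / 8 + n + 2) > 0` (`10 n γ P / 8 + n P / 8 ≥ 9 γ P / 8 + γ P / 8 + n P / 8`,
`γ P / 8 ≥ 8 γ (n + 1)`). Let `f ∈ SA (a + l p ^ ν')` be from `S_Aux`. For `z ∈ E` and `g ∈ z.2` `0 < ν (some z.1) (g • f)`, which is an
integer (`g⁻¹ τ g ∈ N`), so it is at least `1`: `f ∈ LL r` with `r = ra N (a + l p ^ ν')` plus `1` at the `(some z.1, z.2)`, `z ∈ E`.
`S_Zr`: `#E ≤ n (a + l p ^ ν') ≤ n (10 γ + 1) + (9 P / 8 + γ + n) p ^ ν' ≤ p ^ m / 64 + 9 p ^ m / 8 + p ^ m / 64 ≤ 5 p ^ m / 4`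
(`P p ^ ν' = p ^ m`, `64 (γ + n) ≤ P`). -/
def S_Ste : Prop :=
  ∀ {k Q G : Type} [Field k] [IsAlgClosed k] [Field Q] [Algebra k Q] [Group G]
    [MulSemiringAction G Q] {t : Q} {ν : Option k → Q → WithTop ℚ} {rs : Option k → Q → k}
    {τ : Option k → G} (h : Geo t ν rs τ) (p : ℕ) [Fact p.Prime] [CharP k p]
    (N : Subgroup G) [N.FiniteIndex] (T : Finset (Option k)), (∀ x, x ∉ T → Unr τ N x) →
    ∀ γ : ℕ, Rm h N γ → ∀ M : Set Q,
    (∀ a, SA h N a = Submodule.span k {f | f ∈ M ∧ f ∈ SA h N a}) → ∀ m : ℕ,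
    64 * p * (N.index + γ + 1) * (N.index * (10 * γ + 1) + 1) ≤ p ^ m → ∀ E : Finset (k × (G ⧸ N)),
    (∀ z ∈ E, some z.1 ∉ T ∧ ∀ b ∈ M, ∀ g : G, (g : G ⧸ N) = z.2 → 0 ≤ ν (some z.1) (g • b) →
      rs (some z.1) (g • b) ^ p ^ m = rs (some z.1) (g • b)) → 4 * #E ≤ 5 * p ^ m

/-- **Des** (120 lines). Descent for the Frobenius automorphism.

Proof. Let `x ∈ W`, `φ^[m] x = x`, `m ≥ 1`, `Q = p ^ s ≥ 2`. Let `c ∈ k` be a primitive root of unity of order `Q ^ m - 1` (prime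
to `p`; `k` is algebraically closed: the polynomial `X ^ (Q ^ m - 1) - 1` is separable, e.g. `HasEnoughRootsOfUnity`), so
`c ^ Q ^ m = c` and the `c ^ Q ^ i`, `i < m`, are different. `E j = ∑_{i < m} φ^[i] (c ^ j • x) = ∑_i (c ^ Q ^ i) ^ j • φ^[i] x`
(`j < m`) is in `W` and `φ (E j) = E j` (`φ^[m] (c ^ j • x) = c ^ j • x`). The Vandermonde matrix `((c ^ Q ^ i) ^ j)` is
invertible (`Matrix.det_vandermonde_ne_zero_iff`), so `x = φ^[0] x` is a linear combination of the `E j`. -/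
def S_Des : Prop :=
  ∀ {k V : Type} [Field k] [IsAlgClosed k] [AddCommGroup V] [Module k V] (p : ℕ) [Fact p.Prime]
    [CharP k p] (s : ℕ), 0 < s → ∀ φ : V → V, (∀ x y, φ (x + y) = φ x + φ y) →
    (∀ (c : k) x, φ (c • x) = c ^ p ^ s • φ x) → ∀ W : Submodule k V, (∀ x ∈ W, φ x ∈ W) →
    (∀ x ∈ W, ∃ m, 0 < m ∧ φ^[m] x = x) → W = Submodule.span k {x | x ∈ W ∧ φ x = x}

/-! ### 5. The places of `Qf F` -/

open Pool.Agent.MP72W Pool.Agent.MP72S.D Pool.Agent.MP72S.SF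

/-- **Psi** (80 lines, uses `S_Rq`, `S_Kk`, `S_Ro` of block D). The Frobenius element at infinity and the points over a
place.

Proof. (1) `S_Rq` (3) for `w = none` (`dgP none = 1`), constants are the elements of `kF F` (`S_Kk` (2)); powers and the
inverse. (2) `S_Ro` (3): the chosen pair has the properties. (3) by the uniqueness in `S_Ro` (3) (for the pair
`(w, i)` with `w ≠ none`) and (2). -/
def S_Psi : Prop :=
  ∀ (F : Type) [Field F] [Finite F], (2 : F) ≠ 0 → ∀ A : Pl F → Lcd F, LDok F A →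
    (∀ (i : ℕ) (c : kF F), (psQ A ^ i) (c : Qf F) = ((c ^ Nat.card F ^ i : kF F) : Qf F) ∧
      ((psQ A)⁻¹ ^ i) ((c ^ Nat.card F ^ i : kF F) : Qf F) = c) ∧
    (∀ c : kF F, (plX A (some c)).1 ≠ none ∧ (plX A (some c)).2 < dgP (plX A (some c)).1.o ∧
      rtP A (plX A (some c)).1 ^ Nat.card F ^ (plX A (some c)).2 = c) ∧
    ∀ w : Pl F, w ≠ none → ∀ i, i < dgP w.o → plX A (some (rtP A w ^ Nat.card F ^ i)) = (w, i)

/-- **GeQ** (250 lines, uses `S_Psi`, and `S_Pc`, `S_Ro`, `S_Kk`, `S_Fx`, `S_Rq` of block D). The places of `Qf F`.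

Proof. Let `x` be a point, `(w, i) = plX A x`, `ψ = psQ A`, `y ↦ ψ⁻¹ ^ i y` an automorphism over `F(t)`, `ν = nuP (A w)`, with `C.Plc`
(`S_Pc` (1)). `top`, `mul`, `add`: `C.Plc`. `two`: `F → kF F`. `kfix`: definition of `Gb`; `tfix`: `t ∈ F(t)`. `fix`: `S_Fx`. `cst`: a
constant `c ≠ 0` is mapped to a constant `c'`, and `nm (e (c' - 0)) = 1` (`S_Ro` (2)), so `nuP c' = 0` (in the definition of `nuP`
the exponent is unique). `lin`, `lin'`: `ψ⁻¹ ^ i (t - c') = t - c''`, and `c'' = rtP A w` iff `c' = rtP A w ^ q ^ i = x` (`S_Psi`). If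
`c'' ≠ rtP`: `t - c'' = (t - rtP) + (rtP - c'')`, with norms `< 1` and `1`: `nuP = 0`. `t - rtP`: `w = some P`, `P = ∏ (X - c_j)` over `kF F`
with different `c_j` (the conjugates; `P` is separable: `S_Ro` (3) gives `deg P` different roots `rtP ^ q ^ j`), one of them is `rtP`;
`nuP (P(t)) = 1` (`S_Pc` (2), `IsPl`: `v P = 1 / 2`) and the other factors have `nuP = 0`. `inf`: `v t = 2`, `nuP t = -1`, `nuP (t - c) = -1`. `res`:
let `0 ≤ ν y`, `y' = ψ⁻¹ ^ i y`, `c₀ = resP y'`. `resP c₀ = c₀` (definition of `resP`, uniqueness by `S_Ro` (2)), so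
`resP (y' - c₀) = 0` (`radd`; `resP (-c₀) = -c₀`) and `0 < ν (y' - c₀)` (`r0`); `c₀ = ψ⁻¹ ^ i (c₀ ^ q ^ i)`, so
`y' - c₀ = ψ⁻¹ ^ i (y - rsX y)`. `tau`: `ψ ^ i t_w ψ⁻¹ ^ i ∈ Gb` (`S_Rq` (2), `ψ ^ i` acts on the constants by an automorphism which is undone
by `ψ⁻¹ ^ i`; `IsGeo` from `Lcd.Ok.tg`), and `C.Plc.nt`. `int`: `ψ ^ i t_w ψ⁻¹ ^ i f = f` gives `t_w (ψ⁻¹ ^ i f) = ψ⁻¹ ^ i f`, `C.Plc.int`. -/
def S_GeQ : Prop :=
  ∀ (F : Type) [Field F] [Finite F], (2 : F) ≠ 0 → ∀ A : Pl F → Lcd F, LDok F A →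
    Geo (k := kF F) (Q := Qf F) (G := Gb F) (tQ F) (nuX A) (rsX A) (tauX A) ∧
    ∀ (H : Subgroup (GQ F)), H.Normal → ∀ x, (tauX A x : GQ F) ∈ H ↔
      (A (plX A x).1).rQ (A (plX A x).1).t ∈ H

/-- **Per** (120 lines, uses `S_Psi`, and `S_Pc`, `S_Rq`, `S_Kk` of block D). All automorphisms permute the
places.

Proof. `u = ψ⁻¹ ^ i h' ∈ GQ F` where `(w, i) = plX A x`, `h' = g h`. Let the action of `h` on the constants be `c ↦ c ^ q ^ s`. `φ = rQ f_w` acts by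
`c ↦ c ^ q ^ d`, `d = deg w`. Let `j < d` and `b : ℕ` with `s + j = i + b d` for suitable representatives (choose `b` large: `j = (i + b d - s)
mod d`; precisely: choose `b` with `i + b d ≥ s` and then `j = i + b d - s - d b'`, so replace `b` by `b - b'`): we want
`u = φ⁻¹ ^ (..) ..`; simplest: `ν (φ y) = ν y`, so `ν (u f) = ν (φ ^ b₁ u f)`; choose `b₁` with `s + b₁ d ≥ i` and write
`s + b₁ d - i = - j + b₂ d` with `0 ≤ j < d`; then `ν (u f) = ν (φ⁻¹ ^ b₂ φ ^ b₁ u f)` and `g' = ψ ^ j φ⁻¹ ^ b₂ φ ^ b₁ u` is trivial on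
the constants, `φ⁻¹ ^ b₂ φ ^ b₁ u = ψ⁻¹ ^ j g'`. `x' = some (rtP A w ^ q ^ j)` (`plX A x' = (w, j)` by `S_Psi`), or `x' = none` if `w = none`
(`d = 1`, `j = 0`). -/
def S_Per : Prop :=
  ∀ (F : Type) [Field F] [Finite F], (2 : F) ≠ 0 → ∀ A : Pl F → Lcd F, LDok F A →
    ∀ (h : GQ F) (s : ℕ), (∀ c : kF F, h (c : Qf F) = ((c ^ Nat.card F ^ s : kF F) : Qf F)) →
    ∀ (x : Option (kF F)) (g : GQ F), g ∈ Gb F → ∃ (x' : Option (kF F)) (g' : GQ F), g' ∈ Gb F ∧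
      (x = none ↔ x' = none) ∧ ∀ f : Qf F, nuX A x (g (h f)) = nuX A x' (g' f)

/-- **H0** (120 lines, uses `S_Psi`, and `S_Kt`, `S_Kk` of block D). A Frobenius element in `H`.

Proof. `H` has finite index (open in a compact group, `S_Kt` (3)), so `ψ ^ m ∈ H` for some `m > 0` (`Subgroup.exists_pow_mem_of_index_ne_zero`), which
acts on the constants by `c ↦ c ^ q ^ m`. Let `s > 0` be minimal such that some `h₀ ∈ H` acts on the constants by `c ↦ c ^ q ^ s`. Let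
`h ∈ H` act by `c ↦ c ^ q ^ j`, `j = a s + j'`, `j' < s`: `h₀⁻¹ ^ a h` acts by `c ↦ c ^ q ^ j'`, so `j' = 0` by minimality and it is in
`H ∩ Gb`; so for `b` fixed by `H ∩ Gb` and `h₀`: `h b = h₀ ^ a b = b`. -/
def S_H0 : Prop :=
  ∀ (F : Type) [Field F] [Finite F], (2 : F) ≠ 0 → ∀ A : Pl F → Lcd F, LDok F A →
    ∀ H : Subgroup (GQ F), IsOpen (H : Set (GQ F)) → ∃ (h₀ : GQ F) (s : ℕ), h₀ ∈ H ∧ 0 < s ∧
      (∀ c : kF F, h₀ (c : Qf F) = ((c ^ Nat.card F ^ s : kF F) : Qf F)) ∧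
      ∀ b : Qf F, (∀ g ∈ H, g ∈ Gb F → g b = b) → h₀ b = b → ∀ h ∈ H, ∀ j : ℕ,
        (∀ c : kF F, h (c : Qf F) = ((c ^ Nat.card F ^ j : kF F) : Qf F)) → h b = b

/-- **Spn** (150 lines, uses `S_Des`, `S_Per`, and `S_Kk`, `S_Kt` of block D). The functions over the field of definition span.

Proof. `k = kF F` is algebraically closed (`S_Kk` (1)) of characteristic `p`, `q = p ^ r`. `S_Des` for `φ = h₀`, exponent `r s`, `W = SA a`. `h₀` maps
`W` to `W`: let `f ∈ W`. `h₀ f` is fixed by `N`: for `g ∈ N` `g h₀ f = h₀ (h₀⁻¹ g h₀) f`, and `h₀⁻¹ g h₀ ∈ H ∩ Gb` (`H` and `Gb` are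
normal). `nuX x (g h₀ f) = nuX x' (g' f) ≥ ra .. x'` by `S_Per`, and `ra .. x' = ra .. x`. `h₀^[m] f = f` for some `m > 0`: the stabilizer of `f` is
open (`S_Kt` (1)) in the compact group, so of finite index. -/
def S_Spn : Prop :=
  ∀ (F : Type) [Field F] [Finite F], (2 : F) ≠ 0 → ∀ A : Pl F → Lcd F, LDok F A →
    ∀ hG : Geo (k := kF F) (Q := Qf F) (G := Gb F) (tQ F) (nuX A) (rsX A) (tauX A),
    ∀ H : Subgroup (GQ F), H.Normal → ∀ (h₀ : GQ F) (s : ℕ), h₀ ∈ H → 0 < s →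
      (∀ c : kF F, h₀ (c : Qf F) = ((c ^ Nat.card F ^ s : kF F) : Qf F)) → ∀ a : ℕ,
      SA hG (H.subgroupOf (Gb F)) a = Submodule.span (kF F)
        {f | f ∈ {b : Qf F | (∀ g ∈ H, g ∈ Gb F → g b = b) ∧ h₀ b = b} ∧
          f ∈ SA hG (H.subgroupOf (Gb F)) a}

/-- **Frp** (80 lines, uses `S_Psi`, and `S_Pc`, `S_Rq`, `S_Kk` of block D). Residues of elements over the field of
definition.

Proof. `(w, i) = plX A x`, `u = ψ⁻¹ ^ i g`, `φ = rQ f_w`, `n = dgP w.o`. `y = u b`, `0 ≤ nuP y`, `resP (φ y) = resP y ^ q ^ n` (`C.Plc.rf`).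
`φ u b = u (u⁻¹ φ u) b` and `u⁻¹ φ u ∈ H` (normal) acts on the constants by `c ↦ c ^ q ^ n` (conjugation does not change the action on
the constants: `u` acts on the constants by a map which commutes with powers), so `(u⁻¹ φ u) b = b` by hypothesis. So
`resP y ^ q ^ n = resP y`; raise to the power `q ^ i`. -/
def S_Frp : Prop :=
  ∀ (F : Type) [Field F] [Finite F], (2 : F) ≠ 0 → ∀ A : Pl F → Lcd F, LDok F A →
    ∀ H : Subgroup (GQ F), H.Normal → ∀ b : Qf F, (∀ h ∈ H, ∀ j : ℕ,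
        (∀ c : kF F, h (c : Qf F) = ((c ^ Nat.card F ^ j : kF F) : Qf F)) → h b = b) →
    ∀ (x : kF F) (g : GQ F), (A (plX A (some x)).1).rQ (A (plX A (some x)).1).f ∈ H →
      0 ≤ nuX A (some x) (g b) →
      rsX A (some x) (g b) ^ Nat.card F ^ dgP (plX A (some x)).1.o = rsX A (some x) (g b)

/-- **Gal** (120 lines, uses `S_QG`, `S_Kt`, `S_Pr` of block D). Galois correspondence for the subgroups of `Gb F` which contain an open
subgroup.

Proof. `Gb F` is closed in `GQ F` (an intersection of stabilizers, which are open and so closed, `S_Kt` (1)). `M₁` = the image of `M` in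
`GQ F`; it is a finite union of cosets of `H ∩ Gb` (which has finite index in `Gb`, as `H` has finite index), so it is closed. `Qf F` is
Galois over `F(t)` (`S_QG` (1)), so `M₁` is the fixing subgroup of its fixed field (`InfiniteGalois.fixingSubgroup_fixedField`),
and `s ∉ M₁` moves an element of the fixed field. The index: `Gb ⧸ N` is a finite group in which every element has order a power of
two (`S_Pr` for the open subgroup `H`), so its order is a power of two (`IsPGroup.iff_card`). -/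
def S_Gal : Prop :=
  ∀ (F : Type) [Field F] [Finite F] (H : Subgroup (GQ F)), H.Normal → IsOpen (H : Set (GQ F)) →
    (∃ e : ℕ, (H.subgroupOf (Gb F)).index = 2 ^ e) ∧
    ∀ M : Subgroup (Gb F), H.subgroupOf (Gb F) ≤ M → ∀ s : Gb F, s ∉ M →
      ∃ y : Qf F, (∀ g ∈ M, g • y = y) ∧ s • y ≠ y

/-- **SplU** (250 lines, uses `S_Rmc`, `S_Ste`, `S_Psi`, `S_GeQ`, `S_H0`, `S_Spn`, `S_Frp`, `S_Gal`, and `SF.S_Irc`). EFFECTIVE
UPPER BOUND FOR THE PLACES WHICH SPLIT.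

Proof. `q = Nat.card F = p ^ r`, `k = kF F`. `N = H.subgroupOf (Gb F)`, `g = N.index = H.relIndex (Gb F) = 2 ^ e` (`S_Gal`), `D = 1 + ∑_{w ∈ T} dgP w`. Let
`T'` be the finite set of the points `x` with `x = none` or `(plX A x).1 ∈ T`: by `S_Psi` it is contained in
`{none} ∪ {some (rtP w ^ q ^ i) | w ∈ T, i < dgP w}`, so `#T' ≤ D`. For `x ∉ T'` `tauX A x ∈ N` (`S_GeQ`), so `Unr` (`N` is normal).
`γ = 4 ^ e #T' ≤ g ^ 2 D`, `Rm` by `S_Rmc`, `S_Gal`. `M` = the set in `S_Spn` for `h₀`, `s` of `S_H0`. `m = r n`: `p ^ m = q ^ n`. The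
hypothesis of `S_Ste`: `64 p (g + γ + 1) (g (10 γ + 1) + 1) ≤ 64 p * 3 g ^ 2 D * 12 g ^ 3 D ≤ C (g D) ^ 6` for
`C ≥ 2304 p`. Let `B = {w ∈ Irs n | φ_w ∈ H}`, `B₁ = B \ T`, `E = {(rtP w ^ q ^ j, c) | w ∈ B₁, j < n, c}`:
`#E = n #B₁ g` (`S_Psi` (3): different `(w, j)` give different points; `dgP w = n` for `w ∈ Irs n`), and the hypotheses of `S_Ste` are `S_Frp` and
`S_H0` (the elements of `M` satisfy the hypothesis on `b`). So `4 n #B₁ g ≤ 5 q ^ n`. `n #(B ∩ T) ≤ ∑_{w ∈ T} dgP w ≤ D`, and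
`8 g D ≤ q ^ n`. So `8 n #B g ≤ 11 q ^ n ≤ 12 q ^ n`, and `3 q ^ n ≤ 4 n #(Irs n)` (`S_Irc`, for `n ≥ n₀`: choose `C ≥ q ^ n₀`, then
`q ^ n ≥ C` gives `n ≥ n₀`), so `8 n #B g ≤ 16 n #(Irs n)`; `n ≥ 1` (`C > 1`). -/
def S_SplU : Prop :=
  ∀ (F : Type) [Field F] [Finite F], (2 : F) ≠ 0 → ∀ A : Pl F → Lcd F, LDok F A → ∃ C : ℕ,
    ∀ H : Subgroup (GQ F), H.Normal → IsOpen (H : Set (GQ F)) → ∀ T : Finset (Pl F),
    (∀ w, w ∉ T → (A w).rQ (A w).t ∈ H) → ∀ n,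
    C * (H.relIndex (Gb F) * (1 + ∑ w ∈ T, dgP w.o)) ^ 6 ≤ Nat.card F ^ n →
    {w ∈ Irs F n | (A w).rQ (A w).f ∈ H}.ncard * H.relIndex (Gb F) ≤ 2 * (Irs F n).ncard

end Pool.Agent.MP72S.SX

namespace Pool.Agent.MP72S.SF

open Polynomial Finset Pool.Agent.MP72W Pool.Agent.MP72S.D

/-- Target for subgroups of bounded index. -/
def S_SplE : Prop :=
  ∀ (F : Type) [Field F] [Finite F], (2 : F) ≠ 0 → ∀ A : Pl F → Lcd F, LDok F A → ∀ g₀ : ℕ,
    ∃ C : ℕ, ∀ H : Subgroup (GQ F), H.Normal → IsOpen (H : Set (GQ F)) → H.index ≤ g₀ →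
    ∀ T : Finset (Pl F), (∀ w, w ∉ T → (A w).rQ (A w).t ∈ H) →
    ∀ n, (C * (1 + ∑ w ∈ T, dgP w.o)) ^ C ≤ Nat.card F ^ n →
      {w ∈ SF.Irs F n | (A w).rQ (A w).f ∈ H}.ncard * H.relIndex (Gb F) ≤ 2 * (SF.Irs F n).ncard

/-- Target for all open normal subgroups. -/
def S_SplI : Prop :=
  ∀ (F : Type) [Field F] [Finite F], (2 : F) ≠ 0 → ∀ A : Pl F → Lcd F, LDok F A →
    ∃ C : ℕ, ∀ H : Subgroup (GQ F), H.Normal → IsOpen (H : Set (GQ F)) →
    ∀ T : Finset (Pl F), (∀ w, w ∉ T → (A w).rQ (A w).t ∈ H) →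
    ∀ n, (C * (H.index * (1 + ∑ w ∈ T, dgP w.o))) ^ C ≤ Nat.card F ^ n →
      {w ∈ SF.Irs F n | (A w).rQ (A w).f ∈ H}.ncard * H.relIndex (Gb F) ≤ 2 * (SF.Irs F n).ncard

/-- **SplF** (80 lines, uses `SX.S_SplU`, and `S_Kt` of block D; file `Sm/X/SplF.lean`, namespace `Pool.Agent.MP72S.SX`,
`theorem tSplF : S_SplU → D.S_Kt → SF.S_SplF`).

Proof. `H.relIndex (Gb F) ≤ H.index`, `H.index ≠ 0` (open in a compact group, `S_Kt` (3)). Let `C₀` be from `S_SplU` and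
`D = 1 + ∑ dgP ≥ 1`. `S_SplI`: `C = C₀ + 7`: `C₀ (g D) ^ 6 ≤ (C g D) ^ C`, `g = H.index ≥ 1`. `S_SplE`: `C = C₀ + g₀ + 7`:
`C₀ (g₀ D) ^ 6 ≤ C ^ 7 D ^ 6 ≤ (C D) ^ C`. -/
def S_SplF : Prop := S_SplE ∧ S_SplI

end Pool.Agent.MP72S.SF
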