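import Pool.Agent.Lib.MP_72e2e6_nt.Sm.F.Spec

/-!
# MP_72e2e6_nt, `Sm/X`: Riemann's inequality in quadratic towers and effective Stepanov, definitions

`k` is an algebraically closed field, `Q` an extension of `k(t)` on which the group `G` acts, with the
fixed field `k(t)`. The points of the projective line are the elements of `Option k`; for every point `x`
there is a valuation `ν x` of `Q` (with rational values, extending the order at `x` of the elements of
`k(t)`), a residue map `rs x` and an element `τ x` of `G` (a generator of the inertia group). The points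
over `x` of the fixed field of a subgroup `N` of finite index correspond to the cosets `c ∈ G ⧸ N`
(modulo `τ x`), with the valuation `f ↦ ν x (g • f)`, `g ∈ c`. A function `r : Option k → G ⧸ N → ℚ` is
used as a divisor: `LL h N r` is the space of the `f` in the fixed field of `N` with
`ν x (g • f) ≥ r x g`. `SA h N a` are the functions which are integral outside infinity, with poles of
order at most `a` over infinity.
-/

namespace Pool.Agent.MP72S.SX

open Polynomial Finset

/-- Places and automorphisms of a field over `k(t)`. -/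
structure Geo {k Q G : Type} [Field k] [Field Q] [Algebra k Q] [Group G] [MulSemiringAction G Q]
    (t : Q) (ν : Option k → Q → WithTop ℚ) (rs : Option k → Q → k) (τ : Option k → G) : Prop where
  two : (2 : k) ≠ 0
  kfix : ∀ (g : G) (c : k), g • algebraMap k Q c = algebraMap k Q c
  tfix : ∀ g : G, g • t = t
  fix : ∀ a : Q, (∀ g : G, g • a = a) → ∃ p s : k[X], a = aeval t p / aeval t s
  top : ∀ x f, ν x f = ⊤ ↔ f = 0
  mul : ∀ x f g, ν x (f * g) = ν x f + ν x g
  add : ∀ x f g, min (ν x f) (ν x g) ≤ ν x (f + g)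
  cst : ∀ x (c : k), c ≠ 0 → ν x (algebraMap k Q c) = 0
  lin : ∀ c : k, ν (some c) (t - algebraMap k Q c) = ((1 : ℚ) : WithTop ℚ)
  lin' : ∀ c c' : k, c ≠ c' → ν (some c) (t - algebraMap k Q c') = 0
  inf : ∀ c' : k, ν none (t - algebraMap k Q c') = ((-1 : ℚ) : WithTop ℚ)
  res : ∀ x f, 0 ≤ ν x f → 0 < ν x (f - algebraMap k Q (rs x f))
  tau : ∀ x f, ν x (τ x • f) = ν x f
  int : ∀ x f, τ x • f = f → f ≠ 0 → ∃ m : ℤ, ν x f = ((m : ℚ) : WithTop ℚ)

section

variable {k Q G : Type} [Field k] [Field Q] [Algebra k Q] [Group G] [MulSemiringAction G Q]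
  {t : Q} {ν : Option k → Q → WithTop ℚ} {rs : Option k → Q → k} {τ : Option k → G}

theorem Geo.v0 (h : Geo t ν rs τ) (x : Option k) : ν x 0 = ⊤ := (h.top x 0).mpr rfl

theorem Geo.v1 (h : Geo t ν rs τ) (x : Option k) : ν x 1 = 0 := by
  rw [← map_one (algebraMap k Q)]
  exact h.cst x 1 one_ne_zero

theorem Geo.smul_k (h : Geo t ν rs τ) (g : G) (c : k) (f : Q) : g • (c • f) = c • g • f := by
  rw [Algebra.smul_def, Algebra.smul_def, smul_mul', h.kfix]

theorem Geo.v_smul (h : Geo t ν rs τ) (x : Option k) (c : k) (f : Q) : ν x f ≤ ν x (c • f) := by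
  by_cases hc : c = 0
  · rw [hc, zero_smul, h.v0]
    exact le_top
  · rw [Algebra.smul_def, h.mul, h.cst x c hc, zero_add]

/-- The functions in the fixed field of `N` with `ν x (g • f) ≥ r x g`. -/
def LL (h : Geo t ν rs τ) (N : Subgroup G) (r : Option k → G ⧸ N → ℚ) : Submodule k Q where
  carrier := {f | (∀ g ∈ N, g • f = f) ∧ ∀ x (g : G), ((r x g : ℚ) : WithTop ℚ) ≤ ν x (g • f)}
  zero_mem' := ⟨fun g _ => smul_zero g, fun x g => by rw [smul_zero, h.v0]; exact le_top⟩
  add_mem' := by
    rintro a b ⟨ha, ha'⟩ ⟨hb, hb'⟩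
    refine ⟨fun g hg => by rw [smul_add, ha g hg, hb g hg], fun x g => ?_⟩
    rw [smul_add]
    exact (le_min (ha' x g) (hb' x g)).trans (h.add x _ _)
  smul_mem' := by
    rintro c a ⟨ha, ha'⟩
    refine ⟨fun g hg => by rw [h.smul_k, ha g hg], fun x g => ?_⟩
    rw [h.smul_k]
    exact (ha' x g).trans (h.v_smul x c _)

theorem mem_LL (h : Geo t ν rs τ) (N : Subgroup G) (r : Option k → G ⧸ N → ℚ) (f : Q) :
    f ∈ LL h N r ↔ (∀ g ∈ N, g • f = f) ∧ ∀ x (g : G), ((r x g : ℚ) : WithTop ℚ) ≤ ν x (g • f) :=
  Iff.rfl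

/-- The divisor of the functions with poles of order at most `a` over infinity. -/
def ra {k G : Type} [Group G] (N : Subgroup G) (a : ℕ) : Option k → G ⧸ N → ℚ
  | none, _ => -a
  | some _, _ => 0

/-- The functions in the fixed field of `N` which are integral outside infinity, with poles of order
at most `a` over infinity. -/
def SA (h : Geo t ν rs τ) (N : Subgroup G) (a : ℕ) : Submodule k Q := LL h N (ra N a)

/-- The divisor is invariant under the inertia groups. -/
def Inv {k G : Type} [Group G] (τ : Option k → G) {N : Subgroup G} (r : Option k → G ⧸ N → ℚ) :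
    Prop := ∀ x c, r x (τ x • c) = r x c

/-- The fixed field of `N` is unramified at `x`. -/
def Unr {k G : Type} [Group G] (τ : Option k → G) (N : Subgroup G) (x : Option k) : Prop :=
  ∀ g : G, g⁻¹ * τ x * g ∈ N

/-- Riemann's inequality, with the constant `γ`. -/
def Rm (h : Geo t ν rs τ) (N : Subgroup G) (γ : ℕ) : Prop :=
  ∀ a : ℕ, N.index * a + 1 ≤ Module.finrank k (SA h N a) + γ

end

/-! ### The concrete places of `Qf F` -/

open Pool.Agent.MP72W Pool.Agent.MP72S.D

/-- The Frobenius element at infinity; it acts on the constants by `c ↦ c ^ q`. -/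
noncomputable def psQ {F : Type} [Field F] (A : Pl F → Lcd F) : GQ F := (A none).rQ (A none).f

/-- For a point `x` of the projective line over the constants the place `w` below it and the `i` with
`x = θ_w ^ q ^ i`, `i < deg w`. -/
noncomputable def plX {F : Type} [Field F] (A : Pl F → Lcd F) : Option (kF F) → Pl F × ℕ
  | none => (none, 0)
  | some c => open Classical in
    if h : ∃ p : Pl F × ℕ, p.1 ≠ none ∧ p.2 < dgP p.1.o ∧ rtP A p.1 ^ Nat.card F ^ p.2 = c then
      h.choose else (none, 0)

/-- The valuation of `Qf F` at the point `x`. -/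
noncomputable def nuX {F : Type} [Field F] (A : Pl F → Lcd F) (x : Option (kF F)) (f : Qf F) :
    WithTop ℚ :=
  nuP (A (plX A x).1) (((psQ A)⁻¹ ^ (plX A x).2) f)

/-- The residue map at the point `x`. -/
noncomputable def rsX {F : Type} [Field F] (A : Pl F → Lcd F) (x : Option (kF F)) (f : Qf F) : kF F :=
  resP (A (plX A x).1) (((psQ A)⁻¹ ^ (plX A x).2) f) ^ Nat.card F ^ (plX A x).2

/-- The inertia generator at the point `x`. -/
noncomputable def tauX {F : Type} [Field F] (A : Pl F → Lcd F) (x : Option (kF F)) : SF.Gb F :=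
  open Classical in
  if h : psQ A ^ (plX A x).2 * (A (plX A x).1).rQ (A (plX A x).1).t * (psQ A)⁻¹ ^ (plX A x).2 ∈
    SF.Gb F then ⟨_, h⟩ else 1

end Pool.Agent.MP72S.SX
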