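import Pool.Agent.Lib.MP_72e2e6_nt.Sm.X.Spec

/-!
# MP_72e2e6_nt, `Sm/X`: module `Des`
-/

namespace Pool.Agent.MP72S.SX

open Polynomial Finset

theorem tDes : S_Des := by
  intro k V _ _ _ _ p _ _ s hs φ hadd hsm W hW hper
  classical
  have hp2 : 2 ≤ p := (Fact.out : p.Prime).two_le
  set Q : ℕ := p ^ s with hQ
  have hQ2 : 2 ≤ Q := hp2.trans (Nat.le_self_pow hs.ne' p)
  have h0 : φ 0 = 0 := by
    have h := hadd 0 0
    rw [add_zero] at h
    exact left_eq_add.1 h
  have hsum : ∀ (S : Finset ℕ) (f : ℕ → V), φ (∑ i ∈ S, f i) = ∑ i ∈ S, φ (f i) := by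
    intro S f
    induction S using Finset.induction_on with
    | empty => rw [sum_empty, sum_empty, h0]
    | insert a S ha ih => rw [sum_insert ha, sum_insert ha, hadd, ih]
  have hiter : ∀ (i : ℕ) (c : k) (x : V), φ^[i] (c • x) = c ^ Q ^ i • φ^[i] x := by
    intro i
    induction i with
    | zero => intro c x; simp
    | succ i ih =>
      intro c x
      rw [Function.iterate_succ_apply', ih, hsm, Function.iterate_succ_apply', ← pow_mul,
        ← pow_succ]
  have hWi : ∀ (i : ℕ) (x : V), x ∈ W → φ^[i] x ∈ W := by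
    intro i
    induction i with
    | zero => intro x hx; exact hx
    | succ i ih =>
      intro x hx
      rw [Function.iterate_succ_apply']
      exact hW _ (ih x hx)
  apply le_antisymm
  · intro x hx
    obtain ⟨m, hm, hmx⟩ := hper x hx
    have hQm : 2 ≤ Q ^ m := hQ2.trans (Nat.le_self_pow hm.ne' Q)
    -- a primitive root
    have hne : ((Q ^ m - 1 : ℕ) : k) ≠ 0 := by
      intro hz
      rw [CharP.cast_eq_zero_iff k p] at hz
      have h1 : p ∣ Q ^ m := by
        rw [hQ, ← pow_mul]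
        exact dvd_pow_self p (Nat.mul_pos hs hm).ne'
      have h2 : p ∣ Q ^ m - (Q ^ m - 1) := Nat.dvd_sub h1 hz
      rw [Nat.sub_sub_self (by omega), Nat.dvd_one] at h2
      omega
    have : NeZero ((Q ^ m - 1 : ℕ) : k) := ⟨hne⟩
    obtain ⟨c, hc⟩ := HasEnoughRootsOfUnity.exists_primitiveRoot k (Q ^ m - 1)
    have hcQ : c ^ Q ^ m = c := by
      have : Q ^ m = (Q ^ m - 1) + 1 := by omega
      rw [this, pow_succ, hc.pow_eq_one, one_mul]
    -- the Vandermonde matrix
    let v : Fin m → k := fun i => c ^ Q ^ (i : ℕ)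
    have hv : Function.Injective v := by
      intro i j hij
      by_contra hne
      have hm2 : 2 ≤ m := by
        by_contra hlt
        apply hne
        apply Fin.ext
        have := i.2
        have := j.2
        omega
      have hlt : ∀ i : Fin m, Q ^ (i : ℕ) < Q ^ m - 1 := by
        intro i
        have h1 : Q ^ (i : ℕ) ≤ Q ^ (m - 1) := Nat.pow_le_pow_right (by omega) (by omega)
        have h2 : Q ^ m = Q ^ (m - 1) * Q := by
          rw [← pow_succ, Nat.sub_add_cancel hm]
        have h3 : 2 ≤ Q ^ (m - 1) := hQ2.trans (Nat.le_self_pow (by omega) Q)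
        have h4 : Q ^ (m - 1) * 2 ≤ Q ^ (m - 1) * Q := Nat.mul_le_mul_left _ hQ2
        omega
      have h1 := hc.pow_inj (hlt i) (hlt j) hij
      exact hne (Fin.ext (Nat.pow_right_injective hQ2 h1))
    have hdet : (Matrix.vandermonde v).det ≠ 0 := Matrix.det_vandermonde_ne_zero_iff.2 hv
    let A : Matrix (Fin m) (Fin m) k := (Matrix.vandermonde v).transpose
    have hA : IsUnit A.det := by
      rw [Matrix.det_transpose]
      exact hdet.isUnit
    let E : Fin m → V := fun j => ∑ i ∈ range m, φ^[i] (c ^ (j : ℕ) • x)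
    have hE : ∀ j, E j ∈ W ∧ φ (E j) = E j := by
      intro j
      refine ⟨sum_mem fun i _ => hWi i _ (W.smul_mem _ hx), ?_⟩
      change φ (∑ i ∈ range m, φ^[i] (c ^ (j : ℕ) • x)) = ∑ i ∈ range m, φ^[i] (c ^ (j : ℕ) • x)
      rw [hsum]
      have h1 : ∑ i ∈ range m, φ (φ^[i] (c ^ (j : ℕ) • x)) =
          ∑ i ∈ range m, φ^[i + 1] (c ^ (j : ℕ) • x) := by
        apply sum_congr rfl
        intro i _
        rw [Function.iterate_succ_apply']
      have h2 := sum_range_succ' (fun i => φ^[i] (c ^ (j : ℕ) • x)) m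
      rw [sum_range_succ] at h2
      have h3 : φ^[m] (c ^ (j : ℕ) • x) = c ^ (j : ℕ) • x := by
        rw [hiter, hmx, ← pow_mul, mul_comm, pow_mul, hcQ]
      rw [h3] at h2
      rw [h1]
      exact (add_right_cancel h2).symm
    have hE2 : ∀ j, E j = ∑ i : Fin m, A j i • φ^[(i : ℕ)] x := by
      intro j
      change ∑ i ∈ range m, φ^[i] (c ^ (j : ℕ) • x) = _
      rw [Finset.sum_range]
      apply sum_congr rfl
      intro i _
      rw [hiter]
      congr 1
      change (c ^ (j : ℕ)) ^ Q ^ (i : ℕ) = (c ^ Q ^ (i : ℕ)) ^ (j : ℕ)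
      exact pow_right_comm c _ _
    have hx2 : x = ∑ j : Fin m, A⁻¹ ⟨0, hm⟩ j • E j := by
      have h1 : ∑ j : Fin m, A⁻¹ ⟨0, hm⟩ j • E j =
          ∑ i : Fin m, (A⁻¹ * A) ⟨0, hm⟩ i • φ^[(i : ℕ)] x := by
        simp only [hE2, smul_sum, smul_smul, Matrix.mul_apply, sum_smul]
        rw [sum_comm]
      rw [h1, Matrix.nonsing_inv_mul A hA]
      simp [Matrix.one_apply]
    rw [hx2]
    exact sum_mem fun j _ => Submodule.smul_mem _ _ (Submodule.subset_span (hE j))
  · rw [Submodule.span_le]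
    intro x hx
    exact hx.1

end Pool.Agent.MP72S.SX
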