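import Pool.Agent.Lib.MP_72e2e6_nt.Sm.X.Spec

/-!
# MP_72e2e6_nt, `Sm/X/Pf0`: the divisor of an element of `k(t)`
-/

namespace Pool.Agent.MP72S.SX

open Polynomial Finset

section

variable {k Q G : Type} [Field k] [Field Q] [Algebra k Q] [Group G] [MulSemiringAction G Q]
  {t : Q} {ν : Option k → Q → WithTop ℚ} {rs : Option k → Q → k} {τ : Option k → G}

private theorem pf0_prod (h : Geo t ν rs τ) (x : Option k) (s : Multiset Q) :
    ν x s.prod = (s.map (ν x)).sum := by
  induction s using Multiset.induction with
  | empty => rw [Multiset.prod_zero, Multiset.map_zero, Multiset.sum_zero, h.v1]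
  | cons a s ih => rw [Multiset.prod_cons, Multiset.map_cons, Multiset.sum_cons, h.mul, ih]

/-- The orders of a product of linear factors. -/
private noncomputable def pf0_m (s : Multiset k) : Option k → ℤ := by
  classical exact fun x => x.elim (-(Multiset.card s : ℤ)) (fun c => (s.count c : ℤ))

private theorem pf0_lin (h : Geo t ν rs τ) (x : Option k) (s : Multiset k) :
    (s.map (fun a => ν x (t - algebraMap k Q a))).sum = ((pf0_m s x : ℚ) : WithTop ℚ) := by
  classical
  induction s using Multiset.induction with
  | empty =>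
    rw [Multiset.map_zero, Multiset.sum_zero]
    cases x <;> simp [pf0_m]
  | cons a s ih =>
    rw [Multiset.map_cons, Multiset.sum_cons, ih]
    cases x with
    | none =>
      rw [h.inf, ← WithTop.coe_add]
      congr 1
      simp [pf0_m]
    | some c =>
      by_cases hc : c = a
      · subst hc
        rw [h.lin, ← WithTop.coe_add]
        congr 1
        simp [pf0_m, add_comm]
      · rw [h.lin' c a hc, zero_add]
        congr 2
        simp [pf0_m, Multiset.count_cons_of_ne hc]

private theorem pf0_cnt [IsAlgClosed k] (h : Geo t ν rs τ) {p : k[X]} (hp : p ≠ 0)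
    (x : Option k) : ν x (aeval t p) = ((pf0_m p.roots x : ℚ) : WithTop ℚ) := by
  classical
  have h1 : p = C p.leadingCoeff * (p.roots.map (fun a => X - C a)).prod :=
    (IsAlgClosed.splits p).eq_prod_roots
  have h2 : aeval t p = algebraMap k Q p.leadingCoeff *
      (p.roots.map (fun a => t - algebraMap k Q a)).prod := by
    conv_lhs => rw [h1]
    rw [map_mul, aeval_C, map_multiset_prod, Multiset.map_map]
    congr 2
    refine Multiset.map_congr rfl fun a _ => ?_
    simp
  rw [h2, h.mul, h.cst x _ (leadingCoeff_ne_zero.2 hp), zero_add, pf0_prod h, Multiset.map_map]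
  exact pf0_lin h x p.roots

private theorem pf0_sum (s : Multiset k) : ∃ X : Finset (Option k),
    (∀ x, x ∉ X → pf0_m s x = 0) ∧ ∑ x ∈ X, pf0_m s x = 0 := by
  classical
  refine ⟨insert none (s.toFinset.image some), fun x hx => ?_, ?_⟩
  · cases x with
    | none => exact absurd (Finset.mem_insert_self _ _) hx
    | some c =>
      simp only [pf0_m, Option.elim_some]
      rw [Nat.cast_eq_zero, Multiset.count_eq_zero]
      intro hc
      exact hx (Finset.mem_insert_of_mem (Finset.mem_image_of_mem _ (Multiset.mem_toFinset.2 hc)))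
  · rw [Finset.sum_insert (by simp), Finset.sum_image (by intro a _ b _ hab; exact Option.some_injective _ hab)]
    simp only [pf0_m, Option.elim_none, Option.elim_some]
    rw [← Nat.cast_sum, Multiset.toFinset_sum_count_eq]
    ring

end

/-- **Pf0**. -/
theorem tPf0 : S_Pf0 := by
  intro k Q G _ _ _ _ _ _ t ν rs τ h a ha ha0
  classical
  obtain ⟨p, s, hps⟩ := h.fix a ha
  have hp : p ≠ 0 := by
    rintro rfl
    rw [map_zero, zero_div] at hps
    exact ha0 hps
  have hs0 : aeval t s ≠ 0 := by
    intro hs
    rw [hs, div_zero] at hps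
    exact ha0 hps
  have hs : s ≠ 0 := by
    rintro rfl
    exact hs0 (map_zero _)
  obtain ⟨X, hX, hX'⟩ := pf0_sum p.roots
  obtain ⟨Y, hY, hY'⟩ := pf0_sum s.roots
  refine ⟨X ∪ Y, fun x => pf0_m p.roots x - pf0_m s.roots x, fun x => ?_, fun x hx => ?_, ?_⟩
  · have h1 : ν x a + ((pf0_m s.roots x : ℚ) : WithTop ℚ) = ((pf0_m p.roots x : ℚ) : WithTop ℚ) := by
      rw [← pf0_cnt h hs x, ← pf0_cnt h hp x, ← h.mul, hps, div_mul_cancel₀ _ hs0]
    generalize ν x a = v at h1
    induction v using WithTop.recTopCoe with
    | top =>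
      rw [WithTop.top_add] at h1
      exact absurd h1 WithTop.top_ne_coe
    | coe v =>
      rw [← WithTop.coe_add, WithTop.coe_inj] at h1
      rw [WithTop.coe_inj]
      push_cast
      linarith
  · rw [Finset.mem_union, not_or] at hx
    change pf0_m p.roots x - pf0_m s.roots x = 0
    rw [hX x hx.1, hY x hx.2, sub_zero]
  · rw [Finset.sum_sub_distrib,
      ← Finset.sum_subset (Finset.subset_union_left : X ⊆ X ∪ Y) (fun x _ hx => hX x hx),
      ← Finset.sum_subset (Finset.subset_union_right : Y ⊆ X ∪ Y) (fun x _ hx => hY x hx),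
      hX', hY', sub_zero]

end Pool.Agent.MP72S.SX
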