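import Pool.Agent.Lib.MP_72e2e6_nt.Sm.X.Spec

/-!
# MP_72e2e6_nt, `Sm/X/Zr`: a divisor of positive degree has no functions
-/

namespace Pool.Agent.MP72S.SX

open Polynomial Finset

/-- **Zr**. -/
theorem tZr (h0 : S_Pf) : S_Zr := by
  intro k Q G _ _ _ _ _ _ t ν rs τ h N _ r X hX f hf hf0
  classical
  rw [mem_LL] at hf
  obtain ⟨Y, d, -, hd, hY, hsum⟩ := h0 h N f hf.1 hf0
  have hle : ∀ x c, r x c ≤ d x c := by
    intro x c
    obtain ⟨g, rfl⟩ := QuotientGroup.mk_surjective c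
    have h1 := hf.2 x g
    rw [hd] at h1
    exact_mod_cast h1
  calc ∑ x ∈ X, ∑ c, r x c = ∑ x ∈ X ∪ Y, ∑ c, r x c :=
        Finset.sum_subset Finset.subset_union_left fun x _ hx =>
          Finset.sum_eq_zero fun c _ => hX x hx c
    _ ≤ ∑ x ∈ X ∪ Y, ∑ c, d x c :=
        Finset.sum_le_sum fun x _ => Finset.sum_le_sum fun c _ => hle x c
    _ = ∑ x ∈ Y, ∑ c, d x c :=
        (Finset.sum_subset Finset.subset_union_right fun x _ hx =>
          Finset.sum_eq_zero fun c _ => hY x hx c).symm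
    _ = 0 := hsum
    _ ≤ 0 := le_rfl

end Pool.Agent.MP72S.SX
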